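import Pool.Agent.CXS.Z
import Pool.Agent.ISO.Per
import Pool.Agent.JZR.Model

/-!
# [CXS-Z2] the hypothesis `H(l)` over `N` and over `KK`, for all `D ≠ 0`
-/

set_option autoImplicit false

open NumberField IsDedekindDomain
open scoped Classical

namespace CXS

open CM27 CF
open JD (ED jK Below)

theorem ed_six {K : Type} [Field K] (d : K) {x : K} (hx : x ≠ 0) :
    ED (d * x ^ 6) = (⟨(Units.mk0 x hx)⁻¹, 0, 0, 0⟩ : WeierstrassCurve.VariableChange K) • ED d := by
  ext <;> simp [WeierstrassCurve.variableChange_def, ED]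
  ring

theorem primeL_six {K : Type} [Field K] [NumberField K] (l : ℕ) {d x : K} (hd : d ≠ 0) (hx : x ≠ 0) :
    CX.PL l (ED (d * x ^ 6)) ↔ CX.PL l (ED d) := by
  have hΔ : (ED d).Δ ≠ 0 := by
    rw [JD.ED_Δ]
    exact mul_ne_zero (by norm_num) (pow_ne_zero 2 hd)
  rw [ed_six d hx]
  have e := VC63.vcEquiv (ED d) (⟨(Units.mk0 x hx)⁻¹, 0, 0, 0⟩ : WeierstrassCurve.VariableChange K)
  unfold CX.PL
  refine and_congr ⟨fun h P hP => ?_, fun h P hP => ?_⟩ (forall_congr' fun v => ?_)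
  · have h1 := h (e.symm P) (by rw [← map_nsmul, hP, map_zero])
    exact (map_eq_zero_iff _ e.symm.injective).1 h1
  · have h1 := h (e P) (by rw [← map_nsmul, hP, map_zero])
    exact (map_eq_zero_iff _ e.injective).1 h1
  · rw [ISO.tam_smul (ED d) hΔ]

theorem hn_six {l : ℕ} (hl : l = 2 ∨ l = 3) {D e : Eis} {N : Type} [Field N] [NumberField N] [Algebra KK N] (h : HN l (D * e ^ 6) N) : HN l D N := by
  intro v w φ hB
  rcases h v w φ hB with h1 | ⟨h1, h2⟩
  · exact Or.inl h1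
  · refine Or.inr ⟨h1, h2.imp_left fun h3 x hx => ?_⟩
    rcases hl with rfl | rfl
    · refine h3 (x * algebraMap KK (v.adicCompletion KK) (jK e) ^ 2) ?_
      rw [map_mul, map_mul, map_pow, map_pow, ← hx]
      ring
    · refine h3 (x * algebraMap KK (v.adicCompletion KK) (jK e) ^ 3) ?_
      rw [map_mul, map_mul, map_pow, map_pow, ← hx]
      ring

/-- `E_D(N)` finite without `Sha[l]` if and only if the same over `KK`. -/
theorem fin_iff_any {l n : ℕ} (hl : l = 2 ∨ l = 3) {D : Eis} (hD0 : D ≠ 0) (hD : CX.PL l (ED (jK D))) {N : Type} [Field N] [NumberField N]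
    [Algebra KK N] [IsGalois KK N] (hdeg : Module.finrank KK N = l ^ n) (hN : HN l D N) :
    Fin l (ED (algebraMap KK N (jK D))) ↔ Fin l (ED (jK D)) := by
  obtain ⟨D₀, e, hf, he, rfl⟩ := JZR.mdl_part D hD0
  have hjK : ∀ a : Eis, a ≠ 0 → jK a ≠ 0 := fun a ha h0 => ha (JD.jK_inj (h0.trans (map_zero jK).symm))
  have h1 : jK (D₀ * e ^ 6) = jK D₀ * jK e ^ 6 := by rw [map_mul, map_pow]
  rw [h1] at hD ⊢
  have he' := hjK e he
  rw [map_mul, map_pow, fin_six l _ _ ((map_ne_zero (algebraMap KK N)).2 he'), fin_six l _ _ he']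
  exact fin_iff hl hf ((primeL_six l (hjK D₀ hf.1) he').1 hD) hdeg (hn_six hl hN)

end CXS
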