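import Pool.Agent.JD.L0
import Pool.Agent.JD.N1
import Pool.Agent.JT.T0

/-!
# [CXS] the curve `y² = x³ + D` over Galois extensions `N` of `KK = ℚ(ω)` of degree `l ^ n`: Selmer groups, definitions

`K ⊆ N ⊆ L`, `L` an algebraic closure. `JD.Coc`, `JD.LocTriv` (JD/N1.lean) are the cocycles with values in the points of `ED d` and their local
triviality.
-/

set_option autoImplicit false

open NumberField IsDedekindDomain
open scoped Classical

namespace CXS

open CM27 CF JZ
open JD (ED ptE Coc LocTriv phiE KerE Below jK)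
open JT (TwoE)
open CUD (gal_comm alg_comm tau_comm am_ne am_o)

/-- finitely many points, and no element of order `l` in the Tate–Shafarevich group -/
def Fin (l : ℕ) {K : Type} [Field K] [NumberField K] (W : WeierstrassCurve K) : Prop :=
  Finite W.toAffine.Point ∧ ∀ x : SBSD.Sha W, l • x = 0 → x = 0

section
variable {K N L : Type} [Field K] [Field N] [Field L] [Algebra K N] [Algebra N L] [Algebra K L] [IsScalarTower K N L]

/-- an automorphism of `L / N` as an automorphism of `L / K` -/
noncomputable def res (σ : L ≃ₐ[N] L) : L ≃ₐ[K] L := σ.restrictScalars K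

theorem res_apply (σ : L ≃ₐ[N] L) (x : L) : (res σ : L ≃ₐ[K] L) x = σ x := rfl

theorem nor_apply [Normal K N] (g : L ≃ₐ[K] L) (x : N) : g (algebraMap N L x) = algebraMap N L (g.restrictNormal N x) :=
  (AlgEquiv.restrictNormal_commutes g N x).symm

/-- `g⁻¹ σ g` -/
noncomputable def cj [Normal K N] (g : L ≃ₐ[K] L) (σ : L ≃ₐ[N] L) : L ≃ₐ[N] L :=
  AlgEquiv.ofRingEquiv (f := (g.toRingEquiv.trans σ.toRingEquiv).trans g.symm.toRingEquiv) (fun x => by
    show g.symm (σ (g (algebraMap N L x))) = algebraMap N L x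
    rw [nor_apply, σ.commutes, ← nor_apply, AlgEquiv.symm_apply_apply])

theorem cj_apply [Normal K N] (g : L ≃ₐ[K] L) (σ : L ≃ₐ[N] L) (x : L) : cj g σ x = g.symm (σ (g x)) := rfl

theorem gN (g : L ≃ₐ[K] L) (d : K) : (g : L →+* L) (algebraMap N L (algebraMap K N d)) = algebraMap N L (algebraMap K N d) := by
  show g (algebraMap N L (algebraMap K N d)) = _
  rw [← IsScalarTower.algebraMap_apply K N L, g.commutes]

theorem idN (d : K) : (RingHom.id L) (algebraMap K L d) = algebraMap N L (algebraMap K N d) := by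
  rw [RingHom.id_apply, IsScalarTower.algebraMap_apply K N L]

/-- the transport of the points to the curve over `N` -/
noncomputable def tr (K N : Type) {L : Type} [Field K] [Field N] [Field L] [Algebra K N] [Algebra N L] [Algebra K L] [IsScalarTower K N L]
    {d : K} (P : (ED (algebraMap K L d)).toAffine.Point) : (ED (algebraMap N L (algebraMap K N d))).toAffine.Point :=
  ptE (RingHom.id L) (idN d) P

/-- the cocycles over `N` (functions on `Gal(L/N)`) for the curve over `K` -/
abbrev Ch (K N L : Type) [Field K] [Field N] [Field L] [Algebra K N] [Algebra N L] (d : K) : Type :=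
  (L ≃ₐ[N] L) → (ED (algebraMap N L (algebraMap K N d))).toAffine.Point

/-- the action of `Gal(L/K)` on the functions on `Gal(L/N)` -/
noncomputable def ac [Normal K N] {d : K} (g : L ≃ₐ[K] L) (c : Ch K N L d) : Ch K N L d :=
  fun σ => ptE (g : L →+* L) (gN g d) (c (cj g σ))

/-- `T ↦ (σ ↦ σ T - T)` over `N` -/
noncomputable def dN {d : N} (T : (ED (algebraMap N L d)).toAffine.Point) : (L ≃ₐ[N] L) → (ED (algebraMap N L d)).toAffine.Point :=
  fun σ => ptE (σ : L →+* L) (gal_comm σ d) T - T

/-- A subgroup `W` of the points over `L`, killed by `l`, stable under `Gal(L/K)`, without nonzero elements fixed by `Gal(L/N)`. -/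
structure Adm (l : ℕ) (K N : Type) {L : Type} [Field K] [Field N] [Field L] [Algebra K N] [Algebra N L] [Algebra K L] [IsScalarTower K N L]
    {d : K} (W : AddSubgroup (ED (algebraMap N L (algebraMap K N d))).toAffine.Point) : Prop where
  kill : ∀ P ∈ W, l • P = 0
  stab : ∀ (g : L ≃ₐ[K] L), ∀ P ∈ W, ptE (g : L →+* L) (gN g d) P ∈ W
  fix : ∀ P ∈ W, (∀ σ : L ≃ₐ[N] L, ptE (σ : L →+* L) (gal_comm σ (algebraMap K N d)) P = P) → P = 0

end

/-- The cocycle `c` becomes principal over the extension `C` of `K` (with algebraic closure `M`), for the embedding `ι`. -/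
def LocAt {K L : Type} [Field K] [Field L] [Algebra K L] {d : K} (c : (L ≃ₐ[K] L) → (ED (algebraMap K L d)).toAffine.Point)
    (C M : Type) [Field C] [Algebra K C] [Field M] [Algebra C M] [Algebra K M] [IsScalarTower K C M] (ι : L →ₐ[K] M) : Prop :=
  ∃ Q : (ED (algebraMap K M d)).toAffine.Point,
    ∀ (τ : M ≃ₐ[C] M) (σ : L ≃ₐ[K] L), (∀ x, ι (σ x) = τ (ι x)) →
      ptE (ι : L →+* M) (alg_comm ι d) (c σ) = ptE (τ : M →+* M) (tau_comm K C M τ d) Q - Q

/-- The extension `C` of the completion of `KK` at `v` is trivial, or `v` is not over `l` and (`D` has no square root (`l = 3`), no cube root (`l = 2`)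
in the completion of `KK` or `C` is unramified). -/
def Ok (l : ℕ) (D : Eis) (v : HeightOneSpectrum (𝓞 KK)) {C : Type} [Field C] (φ : v.adicCompletion KK →+* C) : Prop :=
  Function.Surjective φ ∨
  (v.valuation KK (l : KK) = 1 ∧
    ((∀ x : v.adicCompletion KK, x ^ (5 - l) ≠ algebraMap KK (v.adicCompletion KK) (jK D)) ∨
      ∃ val : Valuation C (WithZero (Multiplicative ℤ)), ∀ x : v.adicCompletion KK, val (φ x) = Valued.v x))

/-- At every place `v` of `KK` the cocycle becomes principal over an extension of the completion which satisfies `Ok`. -/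
def LocC (l : ℕ) (D : Eis) {L : Type} [Field L] [Algebra KK L] (c : (L ≃ₐ[KK] L) → (ED (algebraMap KK L (jK D))).toAffine.Point) : Prop :=
  ∀ v : HeightOneSpectrum (𝓞 KK),
    ∃ (C M : Type) (_ : Field C) (_ : Field M) (_ : Algebra KK C) (_ : Algebra C M) (_ : Algebra KK M) (_ : IsScalarTower KK C M)
      (_ : IsAlgClosure C M) (φ : v.adicCompletion KK →+* C) (ι : L →ₐ[KK] M),
      (∀ x : KK, φ (algebraMap KK (v.adicCompletion KK) x) = algebraMap KK C x) ∧ LocAt c C M ι ∧ Ok l D v φ

/-- the condition on the extension `N` of `KK` -/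
def HN (l : ℕ) (D : Eis) (N : Type) [Field N] [NumberField N] [Algebra KK N] : Prop :=
  ∀ (v : HeightOneSpectrum (𝓞 KK)) (w : HeightOneSpectrum (𝓞 N)) (φ : v.adicCompletion KK →+* w.adicCompletion N),
    Below v w φ → Ok l D v φ

end CXS
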