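import Pool.Agent.TW.T8a
import Pool.Agent.CXS.Defs

/-!
# [CXS-D1] the restriction of the Tate–Shafarevich group to `N`

PROOF. Copy of the proof of `TW.restrict` (TW/T8a.lean) with `l` instead of `2 ^ k` (`TW.t8aC_nsmul`, `TW.t8aC_coboundaries`, `TW.t8aC_locTrivial` are for all `n`).
-/

set_option autoImplicit false

open NumberField IsDedekindDomain
open scoped Classical

namespace CXS

/-- [CXS-D1] -/
theorem restrict_l {K N : Type} [Field K] [NumberField K] [Field N] [NumberField N] [Algebra K N] (l : ℕ)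
    (W : WeierstrassCurve K) (hsha : ∀ x : SBSD.Sha (W.baseChange N), l • x = 0 → x = 0)
    (c : SBSD.AbsGal K → SBSD.Pts W (AlgebraicClosure K)) (hc : c ∈ SBSD.locTrivial W)
    (h2 : l • c ∈ SBSD.coboundaries W) (ι : N →ₐ[K] AlgebraicClosure K) :
    ∃ R : SBSD.Pts W (AlgebraicClosure K), ∀ σ : SBSD.AbsGal K, (∀ x : N, σ (ι x) = ι x) →
      c σ = WeierstrassCurve.Affine.Point.map σ.toAlgHom R - R := by
  -- the isomorphism of the algebraic closures
  obtain ⟨φ, hφN⟩ : ∃ φ : AlgebraicClosure N ≃+* AlgebraicClosure K,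
      ∀ x : N, φ (algebraMap N (AlgebraicClosure N) x) = ι x := by
    let _ : Algebra N (AlgebraicClosure K) := (ι : N →+* AlgebraicClosure K).toAlgebra
    have hst : IsScalarTower K N (AlgebraicClosure K) :=
      IsScalarTower.of_algebraMap_eq fun x => (ι.commutes x).symm
    have h3 : IsAlgClosure N (AlgebraicClosure K) :=
      ⟨inferInstance, Algebra.IsAlgebraic.tower_top (K := K) N⟩
    exact ⟨(IsAlgClosure.equiv N (AlgebraicClosure N) (AlgebraicClosure K)).toRingEquiv,
      fun x => (IsAlgClosure.equiv N (AlgebraicClosure N) (AlgebraicClosure K)).commutes x⟩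
  have hφ : ∀ x : K, φ (algebraMap N (AlgebraicClosure N) (algebraMap K N x)) =
      algebraMap K (AlgebraicClosure K) x := fun x => by rw [hφN, ι.commutes]
  -- the restriction of the cocycle is principal
  let d : SBSD.locTrivial (W.baseChange N) := ⟨TW.t8aC' W φ hφ c, TW.t8aC_locTrivial W φ hφ c hc⟩
  have h3 : l • (QuotientAddGroup.mk d : SBSD.Sha (W.baseChange N)) = 0 := by
    have h4 : (l • d) ∈ (SBSD.coboundaries (W.baseChange N)).addSubgroupOf
        (SBSD.locTrivial (W.baseChange N)) := by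
      rw [AddSubgroup.mem_addSubgroupOf]
      show l • TW.t8aC' W φ hφ c ∈ _
      rw [← TW.t8aC_nsmul]
      exact TW.t8aC_coboundaries W φ hφ _ h2
    exact (QuotientAddGroup.eq_zero_iff _).2 h4
  have h5 := hsha _ h3
  obtain ⟨P, hP⟩ : TW.t8aC' W φ hφ c ∈ SBSD.coboundaries (W.baseChange N) :=
    AddSubgroup.mem_addSubgroupOf.1 ((QuotientAddGroup.eq_zero_iff d).1 h5)
  have hb : (φ : AlgebraicClosure N →+* AlgebraicClosure K).comp (TW.t8aTau K N) =
      algebraMap K (AlgebraicClosure K) := by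
    ext x
    exact hφ x
  refine ⟨WR.mapPt W (τ := TW.t8aTau K N) (τ' := algebraMap K (AlgebraicClosure K))
    (φ : AlgebraicClosure N →+* AlgebraicClosure K) hb P, fun σ hσ => ?_⟩
  -- `σ` is a restriction
  obtain ⟨σ', rfl⟩ : ∃ σ' : SBSD.AbsGal N, TW.t8aRes φ hφ σ' = σ := by
    refine ⟨AlgEquiv.ofRingEquiv (f := (φ.trans σ.toRingEquiv).trans φ.symm) (fun x => ?_), ?_⟩
    · show φ.symm (σ (φ (algebraMap N (AlgebraicClosure N) x))) = _
      rw [hφN, hσ, ← hφN, φ.symm_apply_apply]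
    · ext x
      rw [TW.t8aRes_apply]
      show φ (φ.symm (σ (φ (φ.symm x)))) = σ x
      rw [φ.apply_symm_apply, φ.apply_symm_apply]
  have e1 : ∀ Q : SBSD.Pts W (AlgebraicClosure K),
      WR.mapPt W (τ := TW.t8aTau K N) (τ' := algebraMap K (AlgebraicClosure K))
        (φ : AlgebraicClosure N →+* AlgebraicClosure K) hb
        (WR.mapPt W (τ := algebraMap K (AlgebraicClosure K)) (τ' := TW.t8aTau K N)
          (φ.symm : AlgebraicClosure K →+* AlgebraicClosure N)
          (TW.t8a_hb φ hφ) Q) = Q := by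
    intro Q
    refine (WR.mapPt_mapPt W _ _ _ _ _).trans ?_
    refine (WR.mapPt_congr W (f' := RingHom.id (AlgebraicClosure K)) ?_ _ rfl Q).trans
      (WR.mapPt_id' W _ _)
    ext x
    exact φ.apply_symm_apply x
  have h6 := (congrArg (WR.mapPt W (τ := TW.t8aTau K N) (τ' := algebraMap K (AlgebraicClosure K))
    (φ : AlgebraicClosure N →+* AlgebraicClosure K) hb) (hP σ')).trans
    (map_sub (WR.mapPt W (τ := TW.t8aTau K N) (τ' := algebraMap K (AlgebraicClosure K))
    (φ : AlgebraicClosure N →+* AlgebraicClosure K) hb) _ _)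
  refine (e1 (c (TW.t8aRes φ hφ σ'))).symm.trans (h6.trans ?_)
  refine congrArg (fun z => z - WR.mapPt W (τ := TW.t8aTau K N)
    (τ' := algebraMap K (AlgebraicClosure K))
    (φ : AlgebraicClosure N →+* AlgebraicClosure K) hb P) ?_
  refine (congrArg (WR.mapPt W (τ := TW.t8aTau K N) (τ' := algebraMap K (AlgebraicClosure K))
    (φ : AlgebraicClosure N →+* AlgebraicClosure K) hb) (TW.t8a_map W σ'.toAlgHom P)).trans ?_
  refine (WR.mapPt_mapPt W _ _ _ _ _).trans ?_
  refine Eq.trans ?_ (WR.r4c_map W (TW.t8aRes φ hφ σ').toAlgHom _).symm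
  refine Eq.trans ?_ (WR.mapPt_mapPt W _ _ _ _ _).symm
  refine WR.mapPt_congr W ?_ _ _ _
  ext x
  show φ (σ' x) = TW.t8aRes φ hφ σ' (φ x)
  rw [TW.t8aRes_apply, φ.symm_apply_apply]

end CXS
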