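import Mathlib

/-!
# [CXS-D2] averaging; fixed points of `p`-groups

PROOF. `avg`: `c₁ σ = c σ - (ρ σ R - R)` is a crossed homomorphism which vanishes on `H`; `c₁ (σ h) = c₁ σ` for `h ∈ H`, so `c₁` is a function on `G ⧸ H` (`Quotient.lift`/`QuotientGroup`), and `c₁ σ` is fixed by `H`: `h σ = σ (σ⁻¹ h σ)`, `c₁ (h σ) = ρ h (c₁ σ)`. `S = ∑_{q : G ⧸ H} c₁ q` (a `Fintype`). For `σ`: the map `q ↦ σ q` is a bijection of `G ⧸ H`, `c₁ (σ g) = c₁ σ + ρ σ (c₁ g)`, so `S = m • c₁ σ + ρ σ S`, `m = Nat.card (G ⧸ H)`.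
`S` is fixed by `H` (each term is). `hdiv` gives `k : ℕ` with `(k * m) • P = P` for all `H`-fixed `P`. Multiply by `k`: `c₁ σ = k • S - ρ σ (k • S)`, so `c σ = ρ σ (R - k • S) - (R - k • S)`.
`no_fix`: the subgroup `V` of the `a` with `p • a = 0` is finite; `Q` acts on it; if `V ≠ 0` then `p ∣ Nat.card V` and `IsPGroup.exists_fixed_point_of_prime_dvd_card_of_fixed_point` gives a nonzero fixed point.
-/

set_option autoImplicit false

namespace CXS

/-- [CXS-D2a] -/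
theorem avg {G A : Type} [Group G] [AddCommGroup A] (ρ : G → A →+ A) (hρ : ∀ σ τ a, ρ (σ * τ) a = ρ σ (ρ τ a)) (c : G → A)
    (hc : ∀ σ τ, c (σ * τ) = c σ + ρ σ (c τ)) (H : Subgroup G) [H.Normal] [Finite (G ⧸ H)] (R : A) (hR : ∀ σ ∈ H, c σ = ρ σ R - R)
    (k : ℕ) (hdiv : ∀ P : A, (∀ σ ∈ H, ρ σ P = P) → (k * Nat.card (G ⧸ H)) • P = P) : ∃ Q : A, ∀ σ, c σ = ρ σ Q - Q := by
  classical
  let c1 : G → A := fun σ => c σ - (ρ σ R - R)
  have hc1 : ∀ σ, c1 σ = c σ - (ρ σ R - R) := fun _ => rfl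
  have hmul : ∀ σ τ, c1 (σ * τ) = c1 σ + ρ σ (c1 τ) := by
    intro σ τ
    rw [hc1, hc1, hc1, hc, hρ, map_sub, map_sub]
    abel
  have hH : ∀ h ∈ H, c1 h = 0 := by
    intro h hh
    rw [hc1, hR h hh, sub_self]
  have hright : ∀ σ, ∀ h ∈ H, c1 (σ * h) = c1 σ := by
    intro σ h hh
    rw [hmul, hH h hh, map_zero, add_zero]
  have hfix : ∀ σ, ∀ h ∈ H, ρ h (c1 σ) = c1 σ := by
    intro σ h hh
    have h1 : c1 (h * σ) = ρ h (c1 σ) := by rw [hmul, hH h hh, zero_add]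
    have h2 : h * σ = σ * (σ⁻¹ * h * σ) := by group
    have h3 : σ⁻¹ * h * σ ∈ H := by
      have := (inferInstance : H.Normal).conj_mem h hh σ⁻¹
      rwa [inv_inv] at this
    rw [← h1, h2, hright σ _ h3]
  let c2 : G ⧸ H → A := Quotient.lift c1 (by
    intro a b hab
    have h1 : a⁻¹ * b ∈ H := QuotientGroup.leftRel_apply.mp hab
    have h2 : b = a * (a⁻¹ * b) := by group
    rw [h2, hright a _ h1])
  have hc2 : ∀ σ : G, c2 (σ : G ⧸ H) = c1 σ := fun _ => rfl
  have : Fintype (G ⧸ H) := Fintype.ofFinite _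
  let S : A := ∑ q : G ⧸ H, c2 q
  have hS : S = ∑ q : G ⧸ H, c2 q := rfl
  have hSfix : ∀ h ∈ H, ρ h S = S := by
    intro h hh
    rw [hS, map_sum]
    refine Finset.sum_congr rfl fun q _ => ?_
    induction q using QuotientGroup.induction_on with
    | H g => exact hfix g h hh
  have hSσ : ∀ σ : G, S = Nat.card (G ⧸ H) • c1 σ + ρ σ S := by
    intro σ
    have h1 : ∑ q : G ⧸ H, c2 (σ • q) = ∑ q : G ⧸ H, c2 q :=
      Equiv.sum_comp (MulAction.toPerm σ) c2
    have h2 : ∀ q : G ⧸ H, c2 (σ • q) = c1 σ + ρ σ (c2 q) := by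
      intro q
      induction q using QuotientGroup.induction_on with
      | H g => exact hmul σ g
    have h3 : ∑ q : G ⧸ H, c2 (σ • q) = Nat.card (G ⧸ H) • c1 σ + ρ σ S := by
      rw [Finset.sum_congr rfl fun q _ => h2 q, Finset.sum_add_distrib, Finset.sum_const,
        Finset.card_univ, ← Nat.card_eq_fintype_card, ← map_sum]
    rw [← h3, h1]
  refine ⟨R - k • S, fun σ => ?_⟩
  have h1 := hdiv (c1 σ) (fun h hh => hfix σ h hh)
  have h2 : Nat.card (G ⧸ H) • c1 σ = S - ρ σ S := by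
    have := hSσ σ
    rw [eq_sub_iff_add_eq]
    exact this.symm
  rw [mul_smul, h2] at h1
  have h3 : c σ = c1 σ + (ρ σ R - R) := by rw [hc1]; abel
  rw [h3, ← h1, map_sub, map_nsmul, smul_sub]
  abel

/-- [CXS-D2b] -/
theorem no_fix {Q A : Type} [Group Q] [Finite Q] [AddCommGroup A] [Finite A] {p : ℕ} (hp : p.Prime) (hQ : IsPGroup p Q) (ρ : Q → A →+ A)
    (hone : ∀ a, ρ 1 a = a) (hmul : ∀ g h a, ρ (g * h) a = ρ g (ρ h a)) (hfix : ∀ a : A, p • a = 0 → (∀ g, ρ g a = a) → a = 0)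
    (a : A) (ha : p • a = 0) : a = 0 := by
  classical
  have hF : Fact p.Prime := ⟨hp⟩
  let V : AddSubgroup A :=
    { carrier := {b | p • b = 0}
      zero_mem' := smul_zero p
      add_mem' := fun {x y} hx hy => by
        show p • (x + y) = 0
        rw [smul_add, hx, hy, add_zero]
      neg_mem' := fun {x} hx => by
        show p • (-x) = 0
        rw [smul_neg, hx, neg_zero] }
  have hV : ∀ b, b ∈ V ↔ p • b = 0 := fun _ => Iff.rfl
  let act : MulAction Q V :=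
    { smul := fun g b => ⟨ρ g b.1, by
        rw [hV, ← map_nsmul, (hV _).mp b.2, map_zero]⟩
      one_smul := fun b => Subtype.ext (hone b.1)
      mul_smul := fun g h b => Subtype.ext (hmul g h b.1) }
  by_contra hne
  have hpV : p ∣ Nat.card V := by
    have h1 : addOrderOf (⟨a, ha⟩ : V) = p := by
      apply addOrderOf_eq_prime
      · exact Subtype.ext ha
      · intro h
        exact hne (congrArg Subtype.val h)
    rw [← h1]
    exact addOrderOf_dvd_natCard _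
  have h0 : (0 : V) ∈ MulAction.fixedPoints Q V := fun g => Subtype.ext (map_zero (ρ g))
  obtain ⟨b, hb, hb0⟩ := hQ.exists_fixed_point_of_prime_dvd_card_of_fixed_point V hpV h0
  apply hb0
  have h1 : b.1 = 0 := hfix b.1 b.2 (fun g => congrArg Subtype.val (hb g))
  exact (Subtype.ext h1).symm

end CXS
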