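import Pool.Agent.CXS.D1
import Pool.Agent.CXS.D2
import Pool.Agent.TW.T8b
import Pool.Agent.ISO.Sha

/-!
# [CXS-D3] from `N` to `K`

PROOF. `fin_down`: (1) `W(K)` is finite: `Point.map` for `K → N` is injective into `(W.baseChange N).Point`. (2) `W(N)` has no point of order `l`: `no_fix` (D2) for `Q = N ≃ₐ[K] N` (order `l ^ n`, `IsGalois.card_aut_eq_finrank`, `IsPGroup.of_card`) acting on `A = (W.baseChange N).Point` (finite) by `Point.map`: a fixed point comes from `W(K)` (`IsGalois.mem_bot_iff_fixed`/`InfiniteGalois`: coordinates fixed by all automorphisms are in `K`), where `h0` applies.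
(3) `Sha`: let `x` be the class of `c`, `l • x = 0`. `restrict_l` (D1) with `ι : N →ₐ[K] AlgebraicClosure K` (`IsAlgClosed.lift`) gives `R`. `avg` (D2) with `G = SBSD.AbsGal K`, `H = ι.fieldRange.fixingSubgroup` (normal: `N / K` normal; `G ⧸ H` finite of order `finrank K N = l ^ n` — or `H` = kernel of `AlgEquiv.restrictNormalHom`, with `Algebra N (AlgebraicClosure K)` given by `ι`; the index is a power of `l`:
the quotient embeds in `N ≃ₐ[K] N`, so its order divides `l ^ n`), `ρ σ = Point.map σ`, as in the proof of `TW.sha_quad` (TW/T8b.lean). The `H`-fixed points of `W(AlgebraicClosure K)` come from `W(N)` (`TW.t8b_pt`), a finite group without element of order `l`, so of order `m` prime to `l` (Cauchy); choose `k` with `k * Nat.card (G ⧸ H) ≡ 1 mod m` (Bézout); `m • P = 0`.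
`fin_smul`: `ISO.sha_smul`, `ISO.pts` (the finiteness). `fin_six`: `ED (d * x ^ 6)` is `C • ED d` for the change of variables `C = ⟨x⁻¹, 0, 0, 0⟩` (or `x`) as a unit; compare `JZR`/`CF` lemmas on sixth powers, `WeierstrassCurve.ext`.
-/

set_option autoImplicit false

open NumberField IsDedekindDomain
open scoped Classical

namespace CXS

open JD (ED)

/-- Galois descent of points from `N` to `K`. -/
theorem D3_emb {K N : Type} [Field K] [NumberField K] [Field N] [NumberField N] [Algebra K N] [IsGalois K N]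
    [FiniteDimensional K N] (W : WeierstrassCurve K) :
    ∃ f : W.toAffine.Point →+ (W.baseChange N).toAffine.Point, Function.Injective f ∧
      ∀ P : (W.baseChange N).toAffine.Point,
        (∀ g : N ≃ₐ[K] N, WeierstrassCurve.Affine.Point.map (W' := W) g.toAlgHom P = P) → ∃ Q, f Q = P := by
  refine ⟨WeierstrassCurve.Affine.Point.map (W' := W) (Algebra.ofId K N), ?_, ?_⟩
  · exact WeierstrassCurve.Affine.Point.map_injective (W' := W) (Algebra.ofId K N)
  · intro P hP
    rcases P with _ | ⟨x, y, h⟩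
    · exact ⟨0, rfl⟩
    · have h1 : ∀ g : N ≃ₐ[K] N, g x = x ∧ g y = y := by
        intro g
        have h2 := hP g
        rw [WeierstrassCurve.Affine.Point.map_some] at h2
        exact WeierstrassCurve.Affine.Point.some.inj h2
      obtain ⟨x₀, rfl⟩ := (IsGalois.mem_range_algebraMap_iff_fixed x).2 fun g => (h1 g).1
      obtain ⟨y₀, rfl⟩ := (IsGalois.mem_range_algebraMap_iff_fixed y).2 fun g => (h1 g).2
      exact ⟨.some x₀ y₀ ((WeierstrassCurve.Affine.baseChange_nonsingular (W := W)
        (Algebra.ofId K N).injective x₀ y₀).1 h), rfl⟩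

/-- The automorphisms which fix the image of a Galois extension. -/
theorem D3_index {K N Ω : Type} [Field K] [CharZero K] [Field N] [Algebra K N] [Field Ω]
    [Algebra K Ω] [IsAlgClosure K Ω] [FiniteDimensional K N] [IsGalois K N] (ι : N →ₐ[K] Ω) :
    ∃ H : Subgroup (Ω ≃ₐ[K] Ω), H.Normal ∧ Finite ((Ω ≃ₐ[K] Ω) ⧸ H) ∧
      Nat.card ((Ω ≃ₐ[K] Ω) ⧸ H) ∣ Module.finrank K N ∧
      (∀ σ, σ ∈ H ↔ ∀ x : N, σ (ι x) = ι x) ∧
      ∀ x : Ω, (∀ σ ∈ H, σ x = x) → ∃ y : N, ι y = x := by
  have : Algebra.IsAlgebraic K Ω := IsAlgClosure.isAlgebraic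
  have : IsAlgClosed Ω := IsAlgClosure.isAlgClosed K
  let e : N ≃ₐ[K] ι.fieldRange := AlgEquiv.ofInjectiveField ι
  have hfd : FiniteDimensional K ι.fieldRange := LinearEquiv.finiteDimensional e.toLinearEquiv
  have hgal : IsGalois K ι.fieldRange := IsGalois.of_algEquiv e
  let r := AlgEquiv.restrictNormalHom (F := K) (K₁ := Ω) ι.fieldRange
  have hmem : ∀ σ : Ω ≃ₐ[K] Ω, σ ∈ r.ker ↔ ∀ x : N, σ (ι x) = ι x := by
    intro σ
    rw [MonoidHom.mem_ker]
    constructor
    · intro h x
      have h3 : ((r σ ⟨ι x, ⟨x, rfl⟩⟩ : ι.fieldRange) : Ω) = σ (ι x) :=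
        AlgEquiv.restrictNormalHom_apply ι.fieldRange σ ⟨ι x, ⟨x, rfl⟩⟩
      rw [h] at h3
      exact h3.symm
    · intro h
      ext x
      rw [AlgEquiv.restrictNormalHom_apply]
      obtain ⟨y, hy⟩ := x.2
      have h4 : (x : Ω) = ι y := hy.symm
      rw [h4, h y, ← h4]
      rfl
  have hfin : Finite (ι.fieldRange ≃ₐ[K] ι.fieldRange) := inferInstance
  have heq := QuotientGroup.quotientKerEquivRange r
  refine ⟨r.ker, inferInstance, ?_, ?_, hmem, ?_⟩
  · exact Finite.of_injective heq heq.injective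
  · rw [Nat.card_congr heq.toEquiv]
    have h1 : Nat.card (ι.fieldRange ≃ₐ[K] ι.fieldRange) = Module.finrank K N := by
      rw [IsGalois.card_aut_eq_finrank]
      exact (LinearEquiv.finrank_eq e.toLinearEquiv).symm
    rw [← h1]
    exact Subgroup.card_subgroup_dvd_card _
  · intro x hx
    have hgal' : IsGalois K Ω := inferInstance
    have h3 : x ∈ IntermediateField.fixedField ι.fieldRange.fixingSubgroup := by
      rw [IntermediateField.mem_fixedField_iff]
      intro σ hσ
      apply hx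
      rw [hmem]
      rw [IntermediateField.mem_fixingSubgroup_iff] at hσ
      exact fun y => hσ (ι y) ⟨y, rfl⟩
    rw [InfiniteGalois.fixedField_fixingSubgroup] at h3
    exact h3

/-- [CXS-D3a] -/
theorem fin_down {K N : Type} [Field K] [NumberField K] [Field N] [NumberField N] [Algebra K N] [IsGalois K N] {l n : ℕ} (hl : l.Prime)
    (hdeg : Module.finrank K N = l ^ n) (W : WeierstrassCurve K) (h0 : ∀ P : W.toAffine.Point, l • P = 0 → P = 0)
    (h : Fin l (W.baseChange N)) : Fin l W := by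
  have hfd : FiniteDimensional K N := Module.finite_of_finrank_pos (by rw [hdeg]; exact pow_pos hl.pos n)
  have hfin := h.1
  obtain ⟨f, hf, hdesc⟩ := D3_emb (K := K) (N := N) W
  refine ⟨Finite.of_injective f hf, ?_⟩
  -- no point of order `l` over `N`
  have hN : ∀ P : (W.baseChange N).toAffine.Point, l • P = 0 → P = 0 := by
    intro P hP
    refine no_fix (Q := N ≃ₐ[K] N) hl (IsPGroup.of_card (n := n) (by rw [IsGalois.card_aut_eq_finrank, hdeg]))
      (fun g => WeierstrassCurve.Affine.Point.map (W' := W) g.toAlgHom) ?_ ?_ ?_ P hP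
    · intro a
      cases a <;> rfl
    · intro g k a
      cases a <;> rfl
    · intro a ha hg
      obtain ⟨Q, rfl⟩ := hdesc a hg
      rw [← map_nsmul] at ha
      have h1 : l • Q = 0 := by
        apply hf
        rw [ha, map_zero]
      rw [h0 Q h1, map_zero]
  -- the order of the group of the points is prime to `l`
  have hcop : Nat.Coprime (Nat.card (W.baseChange N).toAffine.Point) l := by
    rw [Nat.coprime_comm, hl.coprime_iff_not_dvd]
    intro hdvd
    have hF : Fact l.Prime := ⟨hl⟩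
    obtain ⟨P, hP⟩ := exists_prime_addOrderOf_dvd_card' l hdvd
    have h1 : l • P = 0 := by
      rw [← hP]
      exact addOrderOf_nsmul_eq_zero P
    have h2 := hN P h1
    rw [h2, addOrderOf_zero] at hP
    exact hl.one_lt.ne hP
  intro x hx
  obtain ⟨c, rfl⟩ := QuotientAddGroup.mk_surjective x
  have h3 : l • c ∈ (SBSD.coboundaries W).addSubgroupOf (SBSD.locTrivial W) := by
    rw [← QuotientAddGroup.eq_zero_iff]
    exact hx
  have h4 : l • c.1 ∈ SBSD.coboundaries W := AddSubgroup.mem_addSubgroupOf.1 h3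
  let ι : N →ₐ[K] AlgebraicClosure K := IsAlgClosed.lift
  obtain ⟨R, hR⟩ := restrict_l l W h.2 c.1 c.2 h4 ι
  obtain ⟨H, hHn, hHf, hHc, hH1, hH3⟩ := D3_index ι
  have hcop2 : Nat.Coprime (Nat.card ((AlgebraicClosure K ≃ₐ[K] AlgebraicClosure K) ⧸ H))
      (Nat.card (W.baseChange N).toAffine.Point) := by
    refine Nat.Coprime.coprime_dvd_left (hHc.trans (dvd_of_eq hdeg)) ?_
    exact Nat.Coprime.pow_left n hcop.symm
  have hm : 0 < Nat.card (W.baseChange N).toAffine.Point := Nat.card_pos
  obtain ⟨Q, hQ⟩ := avg (G := SBSD.AbsGal K)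
    (fun σ : SBSD.AbsGal K => WeierstrassCurve.Affine.Point.map (W' := W) σ.toAlgHom)
    (fun σ τ a => by cases a <;> rfl) c.1 c.2.1.2 H R
    (fun σ hσ => hR σ ((hH1 σ).1 hσ))
    (Nat.card ((AlgebraicClosure K ≃ₐ[K] AlgebraicClosure K) ⧸ H) ^
      (Nat.totient (Nat.card (W.baseChange N).toAffine.Point) - 1)) (by
      intro P hP
      obtain ⟨P', rfl⟩ := TW.t8b_pt W ι H hH3 P hP
      have h6 := Nat.ModEq.pow_totient hcop2
      have h7 : Nat.card ((AlgebraicClosure K ≃ₐ[K] AlgebraicClosure K) ⧸ H) ^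
          (Nat.totient (Nat.card (W.baseChange N).toAffine.Point) - 1) *
          Nat.card ((AlgebraicClosure K ≃ₐ[K] AlgebraicClosure K) ⧸ H) =
          Nat.card ((AlgebraicClosure K ≃ₐ[K] AlgebraicClosure K) ⧸ H) ^
          Nat.totient (Nat.card (W.baseChange N).toAffine.Point) := by
        rw [← pow_succ, Nat.sub_add_cancel (Nat.totient_pos.2 hm)]
      have h8 : (Nat.card ((AlgebraicClosure K ≃ₐ[K] AlgebraicClosure K) ⧸ H) ^
          (Nat.totient (Nat.card (W.baseChange N).toAffine.Point) - 1) *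
          Nat.card ((AlgebraicClosure K ≃ₐ[K] AlgebraicClosure K) ⧸ H)) • P' = P' := by
        rw [h7]
        have h9 := (nsmul_eq_nsmul_iff_modEq (x := P')).2
          (h6.of_dvd (addOrderOf_dvd_natCard P'))
        rwa [one_nsmul] at h9
      exact (map_nsmul (WeierstrassCurve.Affine.Point.map (W' := W) ι) _ P').symm.trans
        (congrArg (WeierstrassCurve.Affine.Point.map (W' := W) ι) h8))
  exact (QuotientAddGroup.eq_zero_iff _).2 (AddSubgroup.mem_addSubgroupOf.2 ⟨Q, hQ⟩)

/-- [CXS-D3b] -/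
theorem fin_smul {K : Type} [Field K] [NumberField K] (l : ℕ) (W : WeierstrassCurve K) (C : WeierstrassCurve.VariableChange K) :
    Fin l (C • W) ↔ Fin l W :=
  and_congr (ISO.pts W C).1 (ISO.sha_smul W C l)

/-- [CXS-D3c] -/
theorem fin_six {K : Type} [Field K] [NumberField K] (l : ℕ) (d x : K) (hx : x ≠ 0) : Fin l (ED (d * x ^ 6)) ↔ Fin l (ED d) := by
  have h1 : ED (d * x ^ 6) = (⟨(Units.mk0 x hx)⁻¹, 0, 0, 0⟩ : WeierstrassCurve.VariableChange K) • ED d := by
    ext
    · simp [ED, WeierstrassCurve.variableChange_a₁]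
    · simp [ED, WeierstrassCurve.variableChange_a₂]
    · simp [ED, WeierstrassCurve.variableChange_a₃]
    · simp [ED, WeierstrassCurve.variableChange_a₄]
    · simp [ED, WeierstrassCurve.variableChange_a₆, mul_comm]
  rw [h1]
  exact fin_smul l (ED d) _

end CXS
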