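import Mathlib

/-!
# [CXS-S1] a nonzero invariant class under a `p`-group

PROOF. Work in `Z ⧸ B`, on which `G` acts through additive maps.  `V` is the subgroup generated by the orbit of the class of `z₀`.
-/

set_option autoImplicit false

namespace CXS

section S1

variable {G Z : Type} [AddCommGroup Z]

/-- the map induced by `ρ g` on `Z ⧸ B` -/
def S1_map (B : AddSubgroup Z) (ρ : G → Z → Z) (hadd : ∀ g z z', ρ g (z + z') = ρ g z + ρ g z')
    (hB : ∀ g, ∀ z ∈ B, ρ g z ∈ B) (g : G) : Z ⧸ B →+ Z ⧸ B :=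
  QuotientAddGroup.map B B (AddMonoidHom.mk' (ρ g) (hadd g)) (fun z hz => hB g z hz)

theorem S1_map_mk (B : AddSubgroup Z) (ρ : G → Z → Z)
    (hadd : ∀ g z z', ρ g (z + z') = ρ g z + ρ g z')
    (hB : ∀ g, ∀ z ∈ B, ρ g z ∈ B) (g : G) (z : Z) :
    S1_map B ρ hadd hB g (QuotientAddGroup.mk z) = QuotientAddGroup.mk (ρ g z) := rfl

theorem S1_mk_eq {B : AddSubgroup Z} {z z' : Z} (h : z - z' ∈ B) :
    (QuotientAddGroup.mk z : Z ⧸ B) = QuotientAddGroup.mk z' := by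
  rw [QuotientAddGroup.eq]
  have := B.neg_mem h
  rwa [neg_sub, sub_eq_neg_add] at this

theorem S1_mk_eq' {B : AddSubgroup Z} {z z' : Z}
    (h : (QuotientAddGroup.mk z : Z ⧸ B) = QuotientAddGroup.mk z') : z - z' ∈ B := by
  rw [QuotientAddGroup.eq] at h
  have := B.neg_mem h
  rwa [neg_add, neg_neg, ← sub_eq_add_neg] at this

end S1

/-- [CXS-S1] -/
theorem inv_class {G Z : Type} [Group G] [AddCommGroup Z] (p : ℕ) (hpp : p.Prime) (S B : AddSubgroup Z) (hBS : B ≤ S) (ρ : G → Z → Z)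
    (hadd : ∀ g z z', ρ g (z + z') = ρ g z + ρ g z') (hmul : ∀ g h z, ρ (g * h) z = ρ g (ρ h z)) (hone : ∀ z, ρ 1 z = z)
    (hp : ∀ z ∈ S, p • z ∈ B) (hS : ∀ g, ∀ z ∈ S, ρ g z ∈ S) (hB : ∀ g, ∀ z ∈ B, ρ g z ∈ B)
    (H : Subgroup G) [H.Normal] [Finite (G ⧸ H)] (n : ℕ) (hG : ∀ g : G, g ^ p ^ n ∈ H)
    (hH : ∀ g ∈ H, ∀ z ∈ S, ρ g z - z ∈ B) {z₀ : Z} (hz₀ : z₀ ∈ S) (hz₀' : z₀ ∉ B) :
    ∃ z ∈ S, z ∉ B ∧ ∀ g, ρ g z - z ∈ B := by
  classical
  have : Fact p.Prime := ⟨hpp⟩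
  have φmk := S1_map_mk B ρ hadd hB
  obtain ⟨φ, hφ⟩ : ∃ φ : G → (Z ⧸ B →+ Z ⧸ B), φ = S1_map B ρ hadd hB := ⟨_, rfl⟩
  rw [← hφ] at φmk
  have φmul : ∀ g h (a : Z ⧸ B), φ (g * h) a = φ g (φ h a) := by
    intro g h a
    obtain ⟨z, rfl⟩ := QuotientAddGroup.mk_surjective a
    rw [φmk, φmk, φmk, hmul]
  have φone : ∀ a : Z ⧸ B, φ 1 a = a := by
    intro a
    obtain ⟨z, rfl⟩ := QuotientAddGroup.mk_surjective a
    rw [φmk, hone]
  have φH : ∀ h ∈ H, ∀ z ∈ S, φ h (QuotientAddGroup.mk z) = (QuotientAddGroup.mk z : Z ⧸ B) := by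
    intro h hh z hz
    rw [φmk]
    exact S1_mk_eq (hH h hh z hz)
  set a₀ : Z ⧸ B := QuotientAddGroup.mk z₀ with ha₀
  have ha₀0 : a₀ ≠ 0 := by
    intro h
    exact hz₀' ((QuotientAddGroup.eq_zero_iff z₀).mp h)
  set V : AddSubgroup (Z ⧸ B) := AddSubgroup.closure (Set.range fun g => φ g a₀) with hV
  -- all elements of `V` come from `S`
  have VS : ∀ a ∈ V, ∃ z ∈ S, (QuotientAddGroup.mk z : Z ⧸ B) = a := by
    intro a ha
    have hle : V ≤ S.map (QuotientAddGroup.mk' B) := by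
      rw [hV, AddSubgroup.closure_le]
      rintro _ ⟨g, rfl⟩
      exact ⟨ρ g z₀, hS g z₀ hz₀, (φmk g z₀).symm⟩
    exact hle ha
  have Vst : ∀ g, ∀ a ∈ V, φ g a ∈ V := by
    intro g a ha
    have hle : V ≤ V.comap (φ g) := by
      conv_lhs => rw [hV]
      rw [AddSubgroup.closure_le]
      rintro _ ⟨h, rfl⟩
      show φ g (φ h a₀) ∈ V
      rw [← φmul]
      exact AddSubgroup.subset_closure ⟨g * h, rfl⟩
    exact hle ha
  have a₀V : a₀ ∈ V := AddSubgroup.subset_closure ⟨1, φone a₀⟩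
  have VH : ∀ h ∈ H, ∀ a ∈ V, φ h a = a := by
    intro h hh a ha
    obtain ⟨z, hz, rfl⟩ := VS a ha
    exact φH h hh z hz
  have Vp : ∀ a ∈ V, p • a = 0 := by
    intro a ha
    obtain ⟨z, hz, rfl⟩ := VS a ha
    have : (p • (QuotientAddGroup.mk z) : Z ⧸ B) = QuotientAddGroup.mk (p • z) := rfl
    rw [this]
    exact (QuotientAddGroup.eq_zero_iff _).mpr (hp z hz)
  -- the orbit is finite
  have hfin : (Set.range fun g => φ g a₀).Finite := by
    refine (Set.finite_range fun q : G ⧸ H => φ (Quotient.out q) a₀).subset ?_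
    rintro _ ⟨g, rfl⟩
    refine ⟨(g : G ⧸ H), ?_⟩
    show φ (Quotient.out (g : G ⧸ H)) a₀ = φ g a₀
    have h1 : g⁻¹ * Quotient.out (g : G ⧸ H) ∈ H := by
      rw [← QuotientGroup.eq]
      exact (QuotientGroup.out_eq' (g : G ⧸ H)).symm
    have h2 : Quotient.out (g : G ⧸ H) = g * (g⁻¹ * Quotient.out (g : G ⧸ H)) := by group
    rw [h2, φmul, VH _ h1 a₀ a₀V]
  have hVfin : Finite V := by
    have : AddGroup.FG V := by
      rw [AddGroup.fg_iff_addSubgroup_fg, AddSubgroup.fg_iff]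
      exact ⟨_, hV.symm, hfin⟩
    have : Module.Finite ℤ V := Module.Finite.iff_addGroup_fg.mpr inferInstance
    refine Module.finite_of_fg_torsion V ?_
    intro x
    refine ⟨⟨(p : ℤ), ?_⟩, ?_⟩
    · exact mem_nonZeroDivisors_of_ne_zero (by exact_mod_cast hpp.ne_zero)
    · apply Subtype.ext
      show ((p : ℤ) • (x : Z ⧸ B)) = 0
      rw [natCast_zsmul]
      exact Vp x x.2
  let act : MulAction G V :=
    { smul := fun g v => ⟨φ g v, Vst g v v.2⟩
      one_smul := fun v => Subtype.ext (φone v)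
      mul_smul := fun g h v => Subtype.ext (φmul g h v) }
  have actv : ∀ (g : G) (v : V), ((g • v : V) : Z ⧸ B) = φ g v := fun g v => rfl
  set Q := (MulAction.toPermHom G V).range with hQ
  have hQp : IsPGroup p Q := by
    rintro ⟨σ, g, rfl⟩
    refine ⟨n, Subtype.ext ?_⟩
    show (MulAction.toPermHom G V g) ^ p ^ n = 1
    rw [← map_pow]
    refine Equiv.ext fun v => ?_
    show (g ^ p ^ n) • v = v
    exact Subtype.ext (VH _ (hG g) v v.2)
  have hcard : p ∣ Nat.card V := by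
    have h1 : addOrderOf (⟨a₀, a₀V⟩ : V) = p := by
      refine addOrderOf_eq_prime (Subtype.ext (Vp a₀ a₀V)) ?_
      intro h
      exact ha₀0 (congrArg Subtype.val h)
    rw [← h1]
    exact addOrderOf_dvd_natCard _
  have h0 : (0 : V) ∈ MulAction.fixedPoints Q V := by
    rintro ⟨σ, g, rfl⟩
    show g • (0 : V) = 0
    refine Subtype.ext ?_
    rw [actv]
    exact map_zero (φ g)
  obtain ⟨b, hb, hb0⟩ := hQp.exists_fixed_point_of_prime_dvd_card_of_fixed_point V hcard h0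
  obtain ⟨z, hz, hzb⟩ := VS b b.2
  refine ⟨z, hz, ?_, ?_⟩
  · intro hzB
    apply hb0
    refine Subtype.ext ?_
    show (0 : Z ⧸ B) = b
    rw [← hzb]
    exact ((QuotientAddGroup.eq_zero_iff z).mpr hzB).symm
  · intro g
    have h1 := hb ⟨MulAction.toPermHom G V g, g, rfl⟩
    have h2 : g • b = b := h1
    have h3 : φ g b = b := by rw [← actv, h2]
    rw [← hzb, φmk] at h3
    exact S1_mk_eq' h3

end CXS
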