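import Pool.Agent.CXS.Defs

/-!
# [CXS-S2] the action of `Gal(L/K)` on the cocycles over `N`
-/

set_option autoImplicit false

open NumberField IsDedekindDomain
open scoped Classical

namespace CXS

open JD (ED ptE Coc LocTriv)
open CUD (gal_comm alg_comm tau_comm am_ne am_o)

variable {K N L : Type} [Field K] [CharZero K] [Field N] [CharZero N] [Field L] [Algebra K N] [Algebra N L] [Algebra K L] [IsScalarTower K N L] [Normal K N]
  {d : K}

omit [CharZero K] [CharZero N] in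
theorem s2_cj_mul (g h : L ≃ₐ[K] L) (σ : L ≃ₐ[N] L) : cj (g * h) σ = cj h (cj g σ) := by
  ext x
  rfl

omit [CharZero K] [CharZero N] in
theorem s2_cj_one (σ : L ≃ₐ[N] L) : cj (1 : L ≃ₐ[K] L) σ = σ := by
  ext x
  rfl

omit [CharZero K] [CharZero N] in
theorem s2_cj_hom (g : L ≃ₐ[K] L) (σ τ : L ≃ₐ[N] L) : cj g (σ * τ) = cj g σ * cj g τ := by
  ext x
  rw [AlgEquiv.mul_apply, cj_apply, cj_apply, cj_apply, AlgEquiv.apply_symm_apply, AlgEquiv.mul_apply]

omit [CharZero N] in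
theorem ac_add (g : L ≃ₐ[K] L) (c c' : Ch K N L d) : ac g (c + c') = ac g c + ac g c' := by
  have : CharZero L := charZero_of_injective_algebraMap (algebraMap K L).injective
  funext σ
  show ptE (g : L →+* L) (gN g d) (c (cj g σ) + c' (cj g σ)) = _
  rw [JD.ptE_add]
  rfl

omit [CharZero K] [CharZero N] in
theorem ac_mul (g h : L ≃ₐ[K] L) (c : Ch K N L d) : ac (g * h) c = ac g (ac h c) := by
  funext σ
  show ptE ((g * h : L ≃ₐ[K] L) : L →+* L) (gN (g * h) d) (c (cj (g * h) σ)) =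
    ptE (g : L →+* L) (gN g d) (ptE (h : L →+* L) (gN h d) (c (cj h (cj g σ))))
  rw [JD.ptE_comp, s2_cj_mul]
  rfl

omit [CharZero K] [CharZero N] in
theorem ac_one (c : Ch K N L d) : ac (1 : L ≃ₐ[K] L) c = c := by
  funext σ
  show ptE ((1 : L ≃ₐ[K] L) : L →+* L) (gN (1 : L ≃ₐ[K] L) d) (c (cj (1 : L ≃ₐ[K] L) σ)) = c σ
  rw [s2_cj_one]
  cases c σ <;> rfl

omit [CharZero N] in
theorem ac_dN (g : L ≃ₐ[K] L) (T : (ED (algebraMap N L (algebraMap K N d))).toAffine.Point) :
    ac g (dN T : Ch K N L d) = dN (ptE (g : L →+* L) (gN g d) T) := by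
  have : CharZero L := charZero_of_injective_algebraMap (algebraMap K L).injective
  funext σ
  show ptE (g : L →+* L) (gN g d) (ptE (cj g σ : L →+* L) (gal_comm (cj g σ) (algebraMap K N d)) T - T) =
    ptE (σ : L →+* L) (gal_comm σ (algebraMap K N d)) (ptE (g : L →+* L) (gN g d) T) - ptE (g : L →+* L) (gN g d) T
  rw [JD.ptE_sub, JD.ptE_comp, JD.ptE_comp]
  refine congrArg (fun z => z - ptE (g : L →+* L) (gN g d) T) (JD.ptE_congr ?_ _ _ T)
  ext x
  show g (cj g σ x) = σ (g x)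
  rw [cj_apply, AlgEquiv.apply_symm_apply]

omit [CharZero K] [CharZero N] in
theorem s2_cont [Algebra.IsAlgebraic N L] (g : L ≃ₐ[K] L) : Continuous (cj g : (L ≃ₐ[N] L) → (L ≃ₐ[N] L)) := by
  let f : (L ≃ₐ[N] L) →* (L ≃ₐ[N] L) := MonoidHom.mk' (cj g) (s2_cj_hom g)
  have hf : ContinuousAt f 1 := by
    rw [ContinuousAt, map_one]
    intro s hs
    rw [krullTopology_mem_nhds_one_iff] at hs
    obtain ⟨E, hE, hEs⟩ := hs
    rw [Filter.mem_map, krullTopology_mem_nhds_one_iff]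
    let b := Module.finBasis N E
    let S : Set L := Set.range fun i => g (b i : L)
    have hfin : Finite S := Set.finite_range _
    refine ⟨IntermediateField.adjoin N S,
      IntermediateField.finiteDimensional_adjoin fun x _ =>
        (Algebra.IsAlgebraic.isAlgebraic (R := N) x).isIntegral, ?_⟩
    intro σ hσ
    apply hEs
    have hσ' : ∀ i, σ (g (b i : L)) = g (b i : L) :=
      fun i => (IntermediateField.mem_fixingSubgroup_iff _ _).1 hσ _
        (IntermediateField.subset_adjoin N S ⟨i, rfl⟩)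
    refine (IntermediateField.mem_fixingSubgroup_iff _ _).2 fun x hx => ?_
    show cj g σ x = x
    have h1 : (⟨x, hx⟩ : E) = ∑ i, b.repr ⟨x, hx⟩ i • b i := (b.sum_repr _).symm
    have h2 : x = ∑ i, algebraMap N L (b.repr ⟨x, hx⟩ i) * (b i : L) := by
      have := congrArg (fun z : E => (z : L)) h1
      simp only [AddSubmonoidClass.coe_finsetSum, Algebra.smul_def] at this
      exact this
    rw [h2, map_sum]
    refine Finset.sum_congr rfl fun i _ => ?_
    rw [map_mul, AlgEquiv.commutes, cj_apply g σ (b i : L), hσ', AlgEquiv.symm_apply_apply]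
  exact continuous_of_continuousAt_one f hf

omit [CharZero N] in
theorem ac_coc [Algebra.IsAlgebraic N L] (g : L ≃ₐ[K] L) {c : Ch K N L d} (hc : Coc N L (algebraMap K N d) c) : Coc N L (algebraMap K N d) (ac g c) := by
  have : CharZero L := charZero_of_injective_algebraMap (algebraMap K L).injective
  refine ⟨(hc.loc.comp_continuous (s2_cont g)).comp (ptE (g : L →+* L) (gN g d)), fun σ τ => ?_⟩
  show ptE (g : L →+* L) (gN g d) (c (cj g (σ * τ))) = ptE (g : L →+* L) (gN g d) (c (cj g σ)) +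
    ptE (σ : L →+* L) (gal_comm σ (algebraMap K N d)) (ptE (g : L →+* L) (gN g d) (c (cj g τ)))
  rw [s2_cj_hom, hc.crossed, JD.ptE_add, JD.ptE_comp, JD.ptE_comp]
  refine congrArg (fun z => ptE (g : L →+* L) (gN g d) (c (cj g σ)) + z) (JD.ptE_congr ?_ _ _ _)
  ext x
  show g (cj g σ x) = σ (g x)
  rw [cj_apply, AlgEquiv.apply_symm_apply]

omit [CharZero N] in
theorem ac_inner {c : Ch K N L d} (hc : Coc N L (algebraMap K N d) c) (σ : L ≃ₐ[N] L) : ac (res σ : L ≃ₐ[K] L) c - c = dN (c σ) := by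
  have : CharZero L := charZero_of_injective_algebraMap (algebraMap K L).injective
  funext τ
  have e1 : σ * cj (res σ : L ≃ₐ[K] L) τ = τ * σ := by
    ext x
    show σ ((res σ : L ≃ₐ[K] L).symm (τ ((res σ : L ≃ₐ[K] L) x))) = τ (σ x)
    have h1 : σ ((res σ : L ≃ₐ[K] L).symm (τ (σ x))) = τ (σ x) := (res σ : L ≃ₐ[K] L).apply_symm_apply _
    exact h1
  have h1 := hc.crossed σ (cj (res σ : L ≃ₐ[K] L) τ)
  have h2 := hc.crossed τ σ
  rw [e1, h2] at h1
  show ptE ((res σ : L ≃ₐ[K] L) : L →+* L) (gN (res σ) d) (c (cj (res σ : L ≃ₐ[K] L) τ)) - c τ =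
    ptE (τ : L →+* L) (gal_comm τ (algebraMap K N d)) (c σ) - c σ
  have e2 : ptE ((res σ : L ≃ₐ[K] L) : L →+* L) (gN (res σ) d) (c (cj (res σ : L ≃ₐ[K] L) τ)) =
      ptE (σ : L →+* L) (gal_comm σ (algebraMap K N d)) (c (cj (res σ : L ≃ₐ[K] L) τ)) := JD.ptE_congr rfl _ _ _
  rw [e2, sub_eq_sub_iff_add_eq_add, add_comm _ (c σ), ← h1, add_comm]

end CXS
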