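import Pool.Agent.CXS.Defs
import Pool.Agent.TW.T8a

/-!
# [CXS-S3] the action of `Gal(L/K)` preserves the cocycles over `N` which are locally trivial

PROOF. Let `g ∈ Gal(L/K)`, `g₀ = g.restrictNormal N : N ≃ₐ[K] N`, `w` a place of `N`, `ι : L →ₐ[N] M`, `M = AlgebraicClosure (w.adicCompletion N)`.
`CM27.exists_below` (MP_9ab903_nt/SB/CO.lean) for the extension `N / N` with the algebra structure given by `g₀`
(`@CM27.exists_below N N _ _ _ _ (g₀ : N →+* N).toAlgebra w`) gives a place `w'` of `N` and `φ : N_{w'} →+* N_w` with `φ (x) = g₀ x` for `x : N`.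
Let `M' = AlgebraicClosure (w'.adicCompletion N)`, `F' : M' →+* M` with `F' ∘ algebraMap = algebraMap ∘ φ` (`IsAlgClosed.lift` with the algebra structure
`((algebraMap N_w M).comp φ).toAlgebra`, as in the proof of `TW.t8aC_trivialOver` in TW/T8a.lean, which is the model for the whole file).
Choose any `ι₀ : L →ₐ[N] M'` (`IsAlgClosed.lift`). The two homomorphisms `F' ∘ ι₀` and `ι ∘ g` from `L` to `M` agree on `N` (`F' (ι₀ (x)) = φ(x) = g₀ x = ι (g x)`), so (`L / N` normal,
`WR.r4c_normal` with the algebra structure on `M` given by this common map `N →+* M`, see TW/T8a.lean) there is `h : L ≃ₐ[N] L` with `F' (ι₀ (h x)) = ι (g x)`. Put `j = ι₀ ∘ h`. `hloc w' j` gives `Q'`. Then `Q = ptE F' Q'` works: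
for `τ ∈ Gal(M/N_w)` there is `τ' ∈ Gal(M'/N_{w'})` with `F' ∘ τ' = τ ∘ F'` (as in TW/T8a.lean). If `ι (σ x) = τ (ι x)`, then `j (cj g σ x) = τ' (j x)` (apply the injective `F'`: `F' j (g⁻¹ σ g x) = ι (σ g x) = τ ι (g x) = τ F' j x`), so
`ptE j (c (cj g σ)) = ptE τ' Q' - Q'`, and `ptE ι (ac g c σ) = ptE (ι ∘ g) (c (cj g σ)) = ptE (F' ∘ j) (..) = ptE F' (ptE τ' Q' - Q') = ptE τ Q - Q` (`JD.ptE_comp`, `JD.ptE_congr`, `JD.ptE_sub`).
-/

set_option autoImplicit false

open NumberField IsDedekindDomain
open scoped Classical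

namespace CXS

open JD (ED ptE Coc LocTriv)
open CUD (gal_comm alg_comm tau_comm am_ne am_o)

variable {K N L : Type} [Field K] [CharZero K] [Field N] [NumberField N] [Field L] [Algebra K N] [Algebra N L] [Algebra K L] [IsScalarTower K N L] [Normal K N]
  {d : K}

/-- the place below, for the field `N` embedded in itself by `g` -/
theorem s3_below {N : Type} [Field N] [NumberField N] (g : N →+* N) (w : HeightOneSpectrum (𝓞 N)) :
    ∃ (w' : HeightOneSpectrum (𝓞 N)) (φ : w'.adicCompletion N →+* w.adicCompletion N),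
      ∀ x : N, φ (algebraMap N (w'.adicCompletion N) x) = algebraMap N (w.adicCompletion N) (g x) := by
  obtain ⟨w', -, φ, hφ⟩ := @CM27.exists_below N N _ _ _ _ g.toAlgebra w
  exact ⟨w', φ, hφ⟩

/-- two homomorphisms on a normal extension which agree on the ground field differ by an automorphism -/
theorem s3_normal {N L M : Type} [Field N] [Field L] [Field M] [Algebra N L] [Normal N L] (a b : L →+* M)
    (h : ∀ x : N, a (algebraMap N L x) = b (algebraMap N L x)) : ∃ g : L ≃ₐ[N] L, ∀ x, a (g x) = b x := by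
  let _ : Algebra N M := (b.comp (algebraMap N L)).toAlgebra
  let b' : L →ₐ[N] M := { toRingHom := b, commutes' := fun x => rfl }
  let _ : Algebra L M := a.toAlgebra
  have : IsScalarTower N L M := IsScalarTower.of_algebraMap_eq fun x => (h x).symm
  exact ⟨b'.restrictNormal' L, fun x => b'.restrictNormal_commutes L x⟩

/-- [CXS-S3] -/
theorem ac_loc [IsAlgClosure N L] (g : L ≃ₐ[K] L) {c : Ch K N L d}
    (hloc : ∀ w : HeightOneSpectrum (𝓞 N), LocTriv c (w.adicCompletion N) (AlgebraicClosure (w.adicCompletion N)))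
    (w : HeightOneSpectrum (𝓞 N)) : LocTriv (ac g c) (w.adicCompletion N) (AlgebraicClosure (w.adicCompletion N)) := by
  intro ι
  obtain ⟨w', φ, hφ⟩ := s3_below ((g.restrictNormal N : N ≃ₐ[K] N) : N →+* N) w
  have hA : ∀ (w₁ : HeightOneSpectrum (𝓞 N)) (x : N), algebraMap (w₁.adicCompletion N) (AlgebraicClosure (w₁.adicCompletion N))
      (algebraMap N (w₁.adicCompletion N) x) = algebraMap N (AlgebraicClosure (w₁.adicCompletion N)) x := fun w₁ x =>
    (IsScalarTower.algebraMap_apply N (w₁.adicCompletion N) (AlgebraicClosure (w₁.adicCompletion N)) x).symm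
  have hgN : ∀ x : N, g (algebraMap N L x) = algebraMap N L (g.restrictNormal N x) := nor_apply g
  -- the embedding of the algebraic closures
  obtain ⟨F', hF'⟩ : ∃ F' : AlgebraicClosure (w'.adicCompletion N) →+* AlgebraicClosure (w.adicCompletion N),
      ∀ x, F' (algebraMap (w'.adicCompletion N) (AlgebraicClosure (w'.adicCompletion N)) x) =
        algebraMap (w.adicCompletion N) (AlgebraicClosure (w.adicCompletion N)) (φ x) := by
    let _ : Algebra (w'.adicCompletion N) (AlgebraicClosure (w.adicCompletion N)) :=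
      ((algebraMap (w.adicCompletion N) (AlgebraicClosure (w.adicCompletion N))).comp φ).toAlgebra
    let l : AlgebraicClosure (w'.adicCompletion N) →ₐ[w'.adicCompletion N] AlgebraicClosure (w.adicCompletion N) := IsAlgClosed.lift
    exact ⟨(l : AlgebraicClosure (w'.adicCompletion N) →+* AlgebraicClosure (w.adicCompletion N)), fun x => l.commutes x⟩
  have hF'i : Function.Injective F' := F'.injective
  have hF'N : ∀ x : N, F' (algebraMap N (AlgebraicClosure (w'.adicCompletion N)) x) =
      algebraMap N (AlgebraicClosure (w.adicCompletion N)) (g.restrictNormal N x) := by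
    intro x
    rw [← hA, hF', hφ, ← hA]
    rfl
  -- the embedding of `L`
  obtain ⟨j, hj⟩ : ∃ j : L →ₐ[N] AlgebraicClosure (w'.adicCompletion N), ∀ x, F' (j x) = ι (g x) := by
    have hnorm : Normal N L := IsAlgClosure.normal N L
    have halg : Algebra.IsAlgebraic N L := IsAlgClosure.isAlgebraic
    let j0 : L →ₐ[N] AlgebraicClosure (w'.adicCompletion N) := IsAlgClosed.lift
    obtain ⟨h, hh⟩ := s3_normal (N := N) (F'.comp (j0 : L →+* AlgebraicClosure (w'.adicCompletion N)))
      ((ι : L →+* AlgebraicClosure (w.adicCompletion N)).comp (g : L →+* L)) (fun x => by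
        show F' (j0 (algebraMap N L x)) = ι (g (algebraMap N L x))
        rw [j0.commutes, hF'N, hgN, ι.commutes])
    exact ⟨j0.comp (h : L →ₐ[N] L), fun x => hh x⟩
  obtain ⟨Q, hQ⟩ := hloc w' j
  have hdF : F' (algebraMap N (AlgebraicClosure (w'.adicCompletion N)) (algebraMap K N d)) =
      algebraMap N (AlgebraicClosure (w.adicCompletion N)) (algebraMap K N d) := by
    rw [hF'N]
    exact congrArg _ ((g.restrictNormal N).commutes d)
  refine ⟨ptE F' hdF Q, fun τ σ hστ => ?_⟩
  -- the restriction of `τ`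
  obtain ⟨τ', hτ'⟩ : ∃ τ' : AlgebraicClosure (w'.adicCompletion N) ≃ₐ[w'.adicCompletion N] AlgebraicClosure (w'.adicCompletion N),
      ∀ x, F' (τ' x) = τ (F' x) := by
    have hnorm : Normal (w'.adicCompletion N) (AlgebraicClosure (w'.adicCompletion N)) := 
      IsAlgClosure.normal (w'.adicCompletion N) (AlgebraicClosure (w'.adicCompletion N))
    exact s3_normal (N := w'.adicCompletion N) F'
      ((τ : AlgebraicClosure (w.adicCompletion N) →+* AlgebraicClosure (w.adicCompletion N)).comp F') (fun x => by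
        show F' (algebraMap (w'.adicCompletion N) (AlgebraicClosure (w'.adicCompletion N)) x) =
          τ (F' (algebraMap (w'.adicCompletion N) (AlgebraicClosure (w'.adicCompletion N)) x))
        rw [hF', τ.commutes])
  have hcomm : ∀ x, j (cj g σ x) = τ' (j x) := by
    intro x
    apply hF'i
    rw [hj, cj_apply, AlgEquiv.apply_symm_apply, hστ, hτ', hj]
  have key := hQ τ' (cj g σ) hcomm
  have key2 := (congrArg (ptE F' hdF) key).trans (JD.ptE_sub _ _ _ _)
  have e1 : ptE (ι : L →+* AlgebraicClosure (w.adicCompletion N)) (alg_comm ι (algebraMap K N d)) (ac g c σ) =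
      ptE F' hdF (ptE (j : L →+* AlgebraicClosure (w'.adicCompletion N)) (alg_comm j (algebraMap K N d)) (c (cj g σ))) := by
    refine (JD.ptE_comp _ _ _ _ _).trans ?_
    refine Eq.trans ?_ (JD.ptE_comp _ _ _ _ _).symm
    refine JD.ptE_congr ?_ _ _ _
    ext x
    exact (hj x).symm
  have e2 : ptE (τ : AlgebraicClosure (w.adicCompletion N) →+* AlgebraicClosure (w.adicCompletion N))
      (tau_comm N (w.adicCompletion N) (AlgebraicClosure (w.adicCompletion N)) τ (algebraMap K N d)) (ptE F' hdF Q) =
      ptE F' hdF (ptE (τ' : AlgebraicClosure (w'.adicCompletion N) →+* AlgebraicClosure (w'.adicCompletion N))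
        (tau_comm N (w'.adicCompletion N) (AlgebraicClosure (w'.adicCompletion N)) τ' (algebraMap K N d)) Q) := by
    refine (JD.ptE_comp _ _ _ _ _).trans ?_
    refine Eq.trans ?_ (JD.ptE_comp _ _ _ _ _).symm
    refine JD.ptE_congr ?_ _ _ _
    ext x
    exact (hτ' x).symm
  rw [e1, e2]
  exact key2

end CXS
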