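import Pool.Agent.CXS.S2

/-!
# [CXS-S4] extension of an invariant class to `K`
-/

set_option autoImplicit false

open NumberField IsDedekindDomain
open scoped Classical

namespace CXS

open JD (ED ptE Coc LocTriv)
open CUD (gal_comm alg_comm tau_comm am_ne am_o)

variable {K N L : Type} [Field K] [CharZero K] [Field N] [CharZero N] [Field L] [Algebra K N] [Algebra N L] [Algebra K L] [IsScalarTower K N L] [Normal K N]
  {d : K}

omit [CharZero K] [CharZero N] [Normal K N] in
/-- an open subgroup of `Gal(L/K)` contained in the image of a neighbourhood of `1` in `Gal(L/N)` -/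
theorem s4_open [FiniteDimensional K N] [IsAlgClosure N L] {X : Type} {c : (L ≃ₐ[N] L) → X} (hc : IsLocallyConstant c) :
    ∃ U : Subgroup (L ≃ₐ[K] L), IsOpen (U : Set (L ≃ₐ[K] L)) ∧ ∀ u ∈ U, ∃ σ : L ≃ₐ[N] L, (res σ : L ≃ₐ[K] L) = u ∧ c σ = c 1 := by
  have halg : Algebra.IsAlgebraic N L := IsAlgClosure.isAlgebraic
  have halgK : Algebra.IsAlgebraic K L := Algebra.IsAlgebraic.trans K N L
  obtain ⟨V, hV, h1V, hcV⟩ := (IsLocallyConstant.iff_exists_open _).1 hc 1
  have hV' := hV.mem_nhds h1V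
  rw [krullTopology_mem_nhds_one_iff] at hV'
  obtain ⟨E, hE, hEV⟩ := hV'
  let E' : IntermediateField K L := E.restrictScalars K
  have hE' : FiniteDimensional K E' := by
    have h1 : FiniteDimensional K E := FiniteDimensional.trans K N E
    exact h1
  refine ⟨E'.fixingSubgroup, IntermediateField.fixingSubgroup_isOpen E', fun u hu => ?_⟩
  have hu' : ∀ x ∈ E, u x = x := fun x hx => (IntermediateField.mem_fixingSubgroup_iff _ _).1 hu x hx
  let σ : L ≃ₐ[N] L := AlgEquiv.ofRingEquiv (f := u.toRingEquiv) (fun x => hu' _ (E.algebraMap_mem x))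
  refine ⟨σ, by ext x; rfl, hcV σ (hEV ?_)⟩
  exact (IntermediateField.mem_fixingSubgroup_iff _ _).2 fun x hx => hu' x hx

/-- [CXS-S4] -/
theorem ext_coc [FiniteDimensional K N] [IsAlgClosure N L] {l : ℕ} {W : AddSubgroup (ED (algebraMap N L (algebraMap K N d))).toAffine.Point}
    (hW : Adm l K N W) {c : Ch K N L d} (hc : Coc N L (algebraMap K N d) c) (hcW : ∀ σ, c σ ∈ W)
    (hinv : ∀ g : L ≃ₐ[K] L, ∃ T ∈ W, ac g c - c = dN T) :
    ∃ c' : (L ≃ₐ[K] L) → (ED (algebraMap K L d)).toAffine.Point, Coc K L d c' ∧ (∀ σ, tr K N (c' σ) ∈ W) ∧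
      ∀ σ : L ≃ₐ[N] L, tr K N (c' (res σ)) = c σ := by
  have hL0 : CharZero L := charZero_of_injective_algebraMap (algebraMap K L).injective
  choose T hTW hT using hinv
  have hdN : ∀ P Q : (ED (algebraMap N L (algebraMap K N d))).toAffine.Point, (dN (P - Q) : Ch K N L d) = dN P - dN Q := by
    intro P Q
    funext σ
    show ptE (σ : L →+* L) (gal_comm σ (algebraMap K N d)) (P - Q) - (P - Q) =
      (ptE (σ : L →+* L) (gal_comm σ (algebraMap K N d)) P - P) - (ptE (σ : L →+* L) (gal_comm σ (algebraMap K N d)) Q - Q)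
    rw [JD.ptE_sub]
    abel
  have huniq : ∀ P ∈ W, ∀ Q ∈ W, (dN P : Ch K N L d) = dN Q → P = Q := by
    intro P hP Q hQ h
    refine sub_eq_zero.1 (hW.fix _ (W.sub_mem hP hQ) fun σ => ?_)
    have h1 : (dN (P - Q) : Ch K N L d) σ = 0 := by
      rw [hdN, h, sub_self]
      rfl
    exact sub_eq_zero.1 h1
  have hres : ∀ σ : L ≃ₐ[N] L, T (res σ) = c σ := fun σ =>
    huniq _ (hTW _) _ (hcW σ) ((hT (res σ)).symm.trans (ac_inner hc σ))
  have hmul : ∀ g h : L ≃ₐ[K] L, T (g * h) = T g + ptE (g : L →+* L) (gN g d) (T h) := by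
    intro g h
    refine huniq _ (hTW _) _ (W.add_mem (hTW g) (hW.stab g _ (hTW h))) ?_
    have h1 : ac h c = c + dN (T h) := by rw [← hT h]; abel
    have h2 : (dN (T g + ptE (g : L →+* L) (gN g d) (T h)) : Ch K N L d) = dN (T g) + dN (ptE (g : L →+* L) (gN g d) (T h)) := by
      have h3 := hdN (T g) (-ptE (g : L →+* L) (gN g d) (T h))
      have h4 := hdN 0 (ptE (g : L →+* L) (gN g d) (T h))
      have h5 : (dN (0 : (ED (algebraMap N L (algebraMap K N d))).toAffine.Point) : Ch K N L d) = 0 := by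
        have := hdN 0 0
        rwa [sub_self, sub_self] at this
      rw [sub_neg_eq_add] at h3
      rw [zero_sub, h5, zero_sub] at h4
      rw [h3, h4, sub_neg_eq_add]
    rw [← hT (g * h), ac_mul, h1, ac_add, ac_dN, h2, ← hT g]
    abel
  have hback : (RingHom.id L) (algebraMap N L (algebraMap K N d)) = algebraMap K L d := by
    rw [RingHom.id_apply, ← IsScalarTower.algebraMap_apply K N L]
  have htr : ∀ P : (ED (algebraMap N L (algebraMap K N d))).toAffine.Point, tr K N (ptE (RingHom.id L) hback P) = P := by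
    intro P
    unfold tr
    rw [JD.ptE_comp]
    cases P <;> rfl
  refine ⟨fun g => ptE (RingHom.id L) hback (T g), ⟨?_, ?_⟩, fun g => ?_, fun σ => ?_⟩
  · obtain ⟨U, hU, hUc⟩ := s4_open (K := K) hc.loc
    have hc1 : c 1 = 0 := by
      have h1 := hc.crossed 1 1
      have h2 : ptE ((1 : L ≃ₐ[N] L) : L →+* L) (gal_comm 1 (algebraMap K N d)) (c 1) = c 1 := by
        cases c 1 <;> rfl
      rw [one_mul, h2] at h1
      exact left_eq_add.1 h1
    rw [IsLocallyConstant.iff_exists_open]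
    intro g
    refine ⟨(fun x => g⁻¹ * x) ⁻¹' (U : Set (L ≃ₐ[K] L)), hU.preimage (continuous_const_mul g⁻¹), ?_, fun x hx => ?_⟩
    · show g⁻¹ * g ∈ U
      rw [inv_mul_cancel]
      exact U.one_mem
    · obtain ⟨σ, hσ, hcσ⟩ := hUc _ hx
      have h1 : x = g * res σ := by rw [hσ, mul_inv_cancel_left]
      have h2 : T x = T g := by
        rw [h1, hmul, hres, hcσ, hc1, JD.ptE_zero, add_zero]
      show ptE (RingHom.id L) hback (T x) = ptE (RingHom.id L) hback (T g)
      rw [h2]
  · intro g h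
    show ptE (RingHom.id L) hback (T (g * h)) = ptE (RingHom.id L) hback (T g) +
      ptE (g : L →+* L) (gal_comm g d) (ptE (RingHom.id L) hback (T h))
    rw [hmul, JD.ptE_add, JD.ptE_comp, JD.ptE_comp]
    exact congrArg (fun z => ptE (RingHom.id L) hback (T g) + z) (JD.ptE_congr rfl _ _ _)
  · show tr K N (ptE (RingHom.id L) hback (T g)) ∈ W
    rw [htr]
    exact hTW g
  · show tr K N (ptE (RingHom.id L) hback (T (res σ))) = c σ
    rw [htr, hres]

end CXS
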