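import Pool.Agent.CXS.Defs

/-!
# [CXS-S5] from the cocycle over `K` to the local conditions
-/

set_option autoImplicit false

open NumberField IsDedekindDomain
open scoped Classical

namespace CXS

open JD (ED ptE Coc LocTriv)
open CUD (gal_comm alg_comm tau_comm am_ne am_o)

variable {K N L : Type} [Field K] [CharZero K] [Field N] [CharZero N] [Field L] [Algebra K N] [Algebra N L] [Algebra K L] [IsScalarTower K N L]
  {d : K}

omit [CharZero K] [CharZero N] in
theorem tr_inj {P Q : (ED (algebraMap K L d)).toAffine.Point} (h : tr K N P = tr K N Q) : P = Q :=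
  JD.ptE_injective _ _ h

omit [CharZero N] in
theorem cob_res {c : Ch K N L d} {c' : (L ≃ₐ[K] L) → (ED (algebraMap K L d)).toAffine.Point} (h : ∀ σ : L ≃ₐ[N] L, tr K N (c' (res σ)) = c σ)
    {T : (ED (algebraMap K L d)).toAffine.Point} (hT : ∀ σ, c' σ = ptE (σ : L →+* L) (gal_comm σ d) T - T) : c = dN (tr K N T) := by
  have : CharZero L := charZero_of_injective_algebraMap (algebraMap K L).injective
  funext σ
  rw [← h σ, hT]
  show ptE (RingHom.id L) (idN d) (ptE ((res σ : L ≃ₐ[K] L) : L →+* L) (gal_comm (res σ) d) T - T) =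
    ptE (σ : L →+* L) (gal_comm σ (algebraMap K N d)) (ptE (RingHom.id L) (idN d) T) - ptE (RingHom.id L) (idN d) T
  rw [JD.ptE_sub, JD.ptE_comp, JD.ptE_comp]
  exact congrArg (fun z => z - ptE (RingHom.id L) (idN d) T) (JD.ptE_congr rfl _ _ T)

omit [CharZero N] in
theorem locAt_res {c : Ch K N L d} {c' : (L ≃ₐ[K] L) → (ED (algebraMap K L d)).toAffine.Point} (h : ∀ σ : L ≃ₐ[N] L, tr K N (c' (res σ)) = c σ)
    (C M : Type) [Field C] [Algebra K C] [Algebra N C] [IsScalarTower K N C] [Field M] [Algebra C M] [Algebra K M] [Algebra N M] [IsScalarTower K C M]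
    [IsScalarTower N C M] (ι : L →ₐ[N] M) (ι' : L →ₐ[K] M) (hι : ∀ x, ι' x = ι x)
    (Q : (ED (algebraMap N M (algebraMap K N d))).toAffine.Point)
    (hQ : ∀ (τ : M ≃ₐ[C] M) (σ : L ≃ₐ[N] L), (∀ x, ι (σ x) = τ (ι x)) →
      ptE (ι : L →+* M) (alg_comm ι (algebraMap K N d)) (c σ) = ptE (τ : M →+* M) (tau_comm N C M τ (algebraMap K N d)) Q - Q) :
    LocAt c' C M ι' := by
  have : CharZero M := charZero_of_injective_algebraMap (algebraMap K M).injective
  have hM : ∀ x : K, algebraMap N M (algebraMap K N x) = algebraMap K M x := by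
    intro x
    rw [IsScalarTower.algebraMap_apply N C M, ← IsScalarTower.algebraMap_apply K N C, ← IsScalarTower.algebraMap_apply K C M]
  have hid : (RingHom.id M) (algebraMap N M (algebraMap K N d)) = algebraMap K M d := hM d
  refine ⟨ptE (RingHom.id M) hid Q, fun τ σ hστ => ?_⟩
  -- `σ` fixes `N`
  have hfix : ∀ x : N, σ (algebraMap N L x) = algebraMap N L x := by
    intro x
    apply (ι : L →+* M).injective
    show ι (σ (algebraMap N L x)) = ι (algebraMap N L x)
    rw [← hι, hστ, hι, ι.commutes, IsScalarTower.algebraMap_apply N C M, τ.commutes]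
  obtain ⟨σ', rfl⟩ : ∃ σ' : L ≃ₐ[N] L, (res σ' : L ≃ₐ[K] L) = σ :=
    ⟨AlgEquiv.ofRingEquiv (f := σ.toRingEquiv) hfix, by ext x; rfl⟩
  have h1 := hQ τ σ' (fun x => by rw [← hι, ← hι]; exact hστ x)
  rw [← h σ'] at h1
  have h2 := congrArg (ptE (RingHom.id M) hid) h1
  rw [JD.ptE_sub] at h2
  have e1 : ptE (RingHom.id M) hid (ptE (ι : L →+* M) (alg_comm ι (algebraMap K N d)) (tr K N (c' (res σ')))) =
      ptE (ι' : L →+* M) (alg_comm ι' d) (c' (res σ')) := by
    unfold tr
    rw [JD.ptE_comp, JD.ptE_comp]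
    refine JD.ptE_congr ?_ _ _ _
    ext x
    exact (hι x).symm
  have e2 : ptE (RingHom.id M) hid (ptE (τ : M →+* M) (tau_comm N C M τ (algebraMap K N d)) Q) =
      ptE (τ : M →+* M) (tau_comm K C M τ d) (ptE (RingHom.id M) hid Q) := by
    rw [JD.ptE_comp, JD.ptE_comp]
    exact JD.ptE_congr rfl _ _ _
  rw [e1, e2] at h2
  exact h2

end CXS
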