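import Pool.Agent.CXS.S5

/-!
# [CXS-S6] the local conditions at all places of `KK`

PROOF. `exists_above`: the prime ideal `v.asIdeal` of `𝓞 KK` has a prime `P` of `𝓞 N` over it (`Ideal.exists_ideal_over_maximal_of_isIntegral` or the instance `Nonempty (v.asIdeal.primesOver (𝓞 N))`), which is not `⊥`; let `w` be this place.
`JD.exists_Below` (JD/L0.lean) gives some `v'`, `φ`; go into its proof (`JD.l0a_map`) or redo it: with `w.asIdeal.LiesOver v.asIdeal` the map `φ : v.adicCompletion KK →+* w.adicCompletion N` is built as there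
(`l0a_map` is stated with an existential `v`; copy its proof and the proof of `exists_Below` for the given `v`).
`locC_of`: for `v` take `w`, `φ` from `exists_above`, `C = w.adicCompletion N`, `M = AlgebraicClosure C`, with the algebra structure of `KK` on `C` given by `(algebraMap N C).comp (algebraMap KK N)` (unless there is an instance: then `IsScalarTower KK N C` must be proved), `M`: the instances
(`IsScalarTower`); `ι : L →ₐ[N] M` by `IsAlgClosed.lift`, `ι' = ι.restrictScalars KK`; `hloc w ι` and `locAt_res`; `hN v w φ`.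
-/

set_option autoImplicit false

open NumberField IsDedekindDomain
open scoped Classical

namespace CXS

open CM27 CF
open JD (ED ptE Coc LocTriv Below jK)
open CUD (gal_comm alg_comm tau_comm am_ne am_o)

theorem s6_prime (N : Type) [Field N] [NumberField N] [Algebra KK N] (v : HeightOneSpectrum (𝓞 KK)) :
    ∃ w : HeightOneSpectrum (𝓞 N), w.asIdeal.LiesOver v.asIdeal := by
  have h0 : Nonempty (v.asIdeal.primesOver (𝓞 N)) := inferInstance
  obtain ⟨⟨P, hP1, hP2⟩⟩ := h0
  have h1 : P ≠ ⊥ := by
    intro h
    apply v.ne_bot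
    have h2 : v.asIdeal = P.under (𝓞 KK) := hP2.over
    rw [h2, h]
    exact Ideal.under_bot _ _
  exact ⟨⟨P, hP1, h1⟩, hP2⟩

theorem s6_map {N : Type} [Field N] [NumberField N] [Algebra KK N] (v : HeightOneSpectrum (𝓞 KK)) (w : HeightOneSpectrum (𝓞 N))
    (hvw : w.asIdeal.LiesOver v.asIdeal) :
    (∀ x : KK, v.valuation KK x ≤ 1 → w.valuation N (algebraMap KK N x) ≤ 1) ∧
      ∃ φ : v.adicCompletion KK →+* w.adicCompletion N, Continuous φ ∧
        ∀ x : KK, φ (algebraMap KK (v.adicCompletion KK) x) =
          algebraMap N (w.adicCompletion N) (algebraMap KK N x) := by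
  have huc := HeightOneSpectrum.uniformContinuous_algebraMap_liesOver (A := 𝓞 KK) (K := KK)
    (B := 𝓞 N) N v w
  let ψ : (v.valuation KK).Completion →+* (w.valuation N).Completion :=
    UniformSpace.Completion.mapRingHom
      (algebraMap (WithVal (v.valuation KK)) (WithVal (w.valuation N))) huc.continuous
  have hψ : Continuous ψ := UniformSpace.Completion.continuous_map
  refine ⟨fun x hx => ?_, ((HeightOneSpectrum.adicCompletion.equiv N w).symm.toRingHom.comp ψ).comp
    (HeightOneSpectrum.adicCompletion.equiv KK v).toRingHom, ?_, fun x => ?_⟩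
  · rw [← HeightOneSpectrum.valuation_liesOver N v w]
    exact pow_le_one' hx _
  · exact ((HeightOneSpectrum.adicCompletion.continuous_ofCompletion N w).comp hψ).comp
      (HeightOneSpectrum.adicCompletion.continuous_toCompletion KK v)
  · apply HeightOneSpectrum.adicCompletion.ext
    have h1 := UniformSpace.Completion.mapRingHom_coe (f := algebraMap (WithVal (v.valuation KK))
      (WithVal (w.valuation N))) huc.continuous (WithVal.toVal (v.valuation KK) x)
    exact h1

theorem s6_Below {N : Type} [Field N] [NumberField N] [Algebra KK N] (v : HeightOneSpectrum (𝓞 KK)) (w : HeightOneSpectrum (𝓞 N))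
    (hvw : w.asIdeal.LiesOver v.asIdeal) : ∃ φ : v.adicCompletion KK →+* w.adicCompletion N, Below v w φ := by
  obtain ⟨hv, φ, hφ, hcomm⟩ := s6_map v w hvw
  refine ⟨φ, hcomm, fun x hx => ?_⟩
  have h1 : IsOpen {y : v.adicCompletion KK | Valued.v (y - x) ≤ (1 : WithZero (Multiplicative ℤ))} :=
    (Valued.isOpen_integer (v.adicCompletion KK)).preimage (continuous_id.sub continuous_const)
  have h2 : IsOpen {y : v.adicCompletion KK |
      Valued.v (φ y - φ x) ≤ (1 : WithZero (Multiplicative ℤ))} :=
    (Valued.isOpen_integer (w.adicCompletion N)).preimage (hφ.sub continuous_const)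
  obtain ⟨k, hk1, hk2⟩ := (HeightOneSpectrum.denseRange_algebraMap KK v).exists_mem_open
    (h1.inter h2) ⟨x, by
      constructor
      · show Valued.v (x - x) ≤ (1 : WithZero (Multiplicative ℤ))
        rw [sub_self, map_zero]
        exact zero_le_one
      · show Valued.v (φ x - φ x) ≤ (1 : WithZero (Multiplicative ℤ))
        rw [sub_self, map_zero]
        exact zero_le_one⟩
  have hk3 : v.valuation KK k ≤ 1 := by
    rw [← HeightOneSpectrum.valuedAdicCompletion_eq_valuation' v k]
    have e : algebraMap KK (v.adicCompletion KK) k =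
      (algebraMap KK (v.adicCompletion KK) k - x) + x := by ring
    have h3 : Valued.v (algebraMap KK (v.adicCompletion KK) k) ≤
        (1 : WithZero (Multiplicative ℤ)) := by
      rw [e]
      exact (Valued.v.map_add _ _).trans (max_le hk1 hx)
    exact h3
  have hk4 := hv k hk3
  have hk5 : Valued.v (φ (algebraMap KK (v.adicCompletion KK) k)) ≤
      (1 : WithZero (Multiplicative ℤ)) := by
    rw [hcomm]
    have h3 := HeightOneSpectrum.valuedAdicCompletion_eq_valuation' w (algebraMap KK N k)
    exact (le_of_eq h3).trans hk4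
  have e : φ x = φ (algebraMap KK (v.adicCompletion KK) k) -
      (φ (algebraMap KK (v.adicCompletion KK) k) - φ x) := by ring
  rw [e]
  exact (Valued.v.map_sub _ _).trans (max_le hk5 hk2)

theorem exists_above (N : Type) [Field N] [NumberField N] [Algebra KK N] (v : HeightOneSpectrum (𝓞 KK)) :
    ∃ (w : HeightOneSpectrum (𝓞 N)) (φ : v.adicCompletion KK →+* w.adicCompletion N), Below v w φ ∧ w.asIdeal.LiesOver v.asIdeal := by
  obtain ⟨w, hw⟩ := s6_prime N v
  obtain ⟨φ, hφ⟩ := s6_Below v w hw
  exact ⟨w, φ, hφ, hw⟩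

theorem locC_of {l : ℕ} {D : Eis} {N L : Type} [Field N] [NumberField N] [Field L] [Algebra KK N] [Algebra N L] [Algebra KK L] [IsScalarTower KK N L]
    [IsAlgClosure N L] (hN : HN l D N) {c : Ch KK N L (jK D)}
    (hloc : ∀ w : HeightOneSpectrum (𝓞 N), LocTriv c (w.adicCompletion N) (AlgebraicClosure (w.adicCompletion N)))
    {c' : (L ≃ₐ[KK] L) → (ED (algebraMap KK L (jK D))).toAffine.Point} (h : ∀ σ : L ≃ₐ[N] L, tr KK N (c' (res σ)) = c σ) : LocC l D c' := by
  intro v
  obtain ⟨w, φ, hφ, hw⟩ := exists_above N v
  let a1 : Algebra KK (w.adicCompletion N) := ((algebraMap N (w.adicCompletion N)).comp (algebraMap KK N)).toAlgebra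
  have t1 : IsScalarTower KK N (w.adicCompletion N) := IsScalarTower.of_algebraMap_eq (fun _ => rfl)
  have : Algebra.IsAlgebraic N L := IsAlgClosure.isAlgebraic
  let ι : L →ₐ[N] AlgebraicClosure (w.adicCompletion N) := IsAlgClosed.lift
  have t2 : IsScalarTower KK N (AlgebraicClosure (w.adicCompletion N)) := IsScalarTower.of_algebraMap_eq (fun _ => rfl)
  let ι' : L →ₐ[KK] AlgebraicClosure (w.adicCompletion N) := ι.restrictScalars KK
  obtain ⟨Q, hQ⟩ := hloc w ι
  refine ⟨w.adicCompletion N, AlgebraicClosure (w.adicCompletion N), inferInstance, inferInstance, a1, inferInstance, inferInstance, inferInstance,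
    inferInstance, φ, ι', hφ.comm, ?_, hN v w φ hφ⟩
  exact locAt_res h (w.adicCompletion N) (AlgebraicClosure (w.adicCompletion N)) ι ι' (fun _ => rfl) Q hQ

end CXS
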