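import Pool.Agent.CXS.Defs

/-!
# [CXS-S7] unramified and completely split places

PROOF. `below_over`: for `x ∈ v.asIdeal` suppose `w (x) = 1` (it is `≤ 1`). There is `z ∈ KK` with `w (z) > 1` (the inverse of a nonzero element of `w.asIdeal ∩ 𝓞 KK`). `v (z x ^ n) ≤ 1` for large `n`, so by `h.int`, `h.comm` (`valuedAdicCompletion_eq_valuation'`) `w (z x ^ n) = w z ≤ 1`, a contradiction. So `v.asIdeal ≤ w.asIdeal.under (𝓞 KK)`, and `v.asIdeal` is maximal.
`below_val`: `he` for elements of `KK`; `KK` is dense in the completion and both sides are locally constant away from `0`: for `x ≠ 0` choose `k ∈ KK` with `Valued.v (x - k) < Valued.v x` (so `Valued.v k = Valued.v x`) and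
`Valued.v ((x - k) / k) < 1` gives `Valued.v (φ ((x - k) / k)) ≤ 1`; to get `< 1`: `y = (x - k) / k` has `Valued.v y < 1`, choose `π ∈ KK` with `v π = exp (-1)` (uniformizer, `HeightOneSpectrum.valuation_exists_uniformizer`), `Valued.v (y / π) ≤ 1`, so `Valued.v (φ y) ≤ w π = v π < 1` by `he`.
So `Valued.v (φ x) = Valued.v (φ k) * Valued.v (1 + φ y) = w k = v k = Valued.v x`.
`val_eq_of_ram`: `HeightOneSpectrum.valuation_liesOver` (Mathlib.NumberTheory.RamificationInertia.Valuation) with `ramificationIdx' = 1`.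
`below_surj`: `φ` preserves the valuation (`below_val`), so it is an isometric embedding (uniform embedding) of a complete field: its range is closed. The range contains the image of `N`: let `x ∈ N`. It suffices (closed) to find for every `n` an element `k ∈ KK` with `w (x - k) ≤ exp (-n)`. Induction on `n`, starting with `k` such that `w(x - k)` is
`≤ w (π ^ (-m))`: multiply by `π ^ m` to get `w x ≤ 1`; then step: `w x ≤ 1` implies `w (x - k) < 1` i.e. `≤ exp (-1) = w π` for some `k ∈ 𝓞 KK` (write `x = a / b`, `a, b ∈ 𝓞 N`, `b ∉ w` (`HeightOneSpectrum` lemma `exists_primeCompl_mul_eq_of_integer`, used in JD/L0.lean), `hres` for `a` and for `b`, and the inverse of the residue of `b` modulo `v`), then continue with `(x - k) / π`.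
`N` is dense in `w.adicCompletion N` (`HeightOneSpectrum.denseRange_algebraMap`), so the closed range is everything.
`res_of_inertia`: `inertiaDeg' = 1`: the map of residue fields is of degree `1`, so surjective.
-/

set_option autoImplicit false

open NumberField IsDedekindDomain
open scoped Classical

namespace CXS

open CM27 CF
open JD (ED ptE Coc LocTriv Below jK)

section gen

variable {F : Type} [Field F] [Valued F (WithZero (Multiplicative ℤ))]

theorem s7_lt (γ : WithZero (Multiplicative ℤ)) (h : γ ≠ 0) : ∃ n : ℕ, WithZero.exp (-(n : ℤ)) < γ := by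
  obtain ⟨n, hn⟩ := exists_pow_lt₀ (a := (WithZero.exp (-1 : ℤ) : WithZero (Multiplicative ℤ))) (by
    rw [← WithZero.exp_zero, WithZero.exp_lt_exp]; norm_num) (Units.mk0 γ h)
  refine ⟨n, ?_⟩
  rw [← WithZero.exp_nsmul] at hn
  simpa using hn

theorem s7_A (γ : (MonoidWithZeroHom.ValueGroup₀ (.ofClass (Valued.v : Valuation F (WithZero (Multiplicative ℤ)))))ˣ) :
    ∃ n : ℕ, ∀ x : F, Valued.v x ≤ (WithZero.exp (-(n : ℤ)) : WithZero (Multiplicative ℤ)) → Valued.v.restrict x < γ.1 := by
  obtain ⟨n, hn⟩ := s7_lt (MonoidWithZeroHom.ValueGroup₀.embedding γ.1) (by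
    rw [Ne, map_eq_zero]
    exact γ.ne_zero)
  refine ⟨n, fun x hx => ?_⟩
  rw [Valuation.restrict_lt_iff_lt_embedding]
  exact hx.trans_lt hn

theorem s7_B (hs : ∀ g : WithZero (Multiplicative ℤ), ∃ x : F, Valued.v x = g) (n : ℕ) :
    ∃ γ : (MonoidWithZeroHom.ValueGroup₀ (.ofClass (Valued.v : Valuation F (WithZero (Multiplicative ℤ)))))ˣ,
      ∀ x : F, Valued.v.restrict x < γ.1 → Valued.v x ≤ (WithZero.exp (-(n : ℤ)) : WithZero (Multiplicative ℤ)) := by
  obtain ⟨x0, h0⟩ := hs (WithZero.exp (-(n : ℤ)))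
  have hx0 : Valued.v.restrict x0 ≠ 0 := by
    rw [Ne, Valuation.restrict_eq_zero_iff, h0]
    exact WithZero.exp_ne_zero
  refine ⟨Units.mk0 _ hx0, fun x hx => ?_⟩
  rw [Units.val_mk0, Valuation.restrict_lt_iff, h0] at hx
  exact hx.le

end gen

/-- an isometry of valued fields with dense image from a complete field is surjective -/
theorem s7_surj {F F' : Type} [Field F] [Field F'] [Valued F (WithZero (Multiplicative ℤ))] [Valued F' (WithZero (Multiplicative ℤ))]
    [CompleteSpace F] [T0Space F'] (φ : F →+* F') (hφ : ∀ x, Valued.v (φ x) = (Valued.v x : WithZero (Multiplicative ℤ)))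
    (hs : ∀ g : WithZero (Multiplicative ℤ), ∃ x : F, Valued.v x = g)
    (hd : ∀ (y : F') (n : ℕ), ∃ x : F, Valued.v (φ x - y) ≤ (WithZero.exp (-(n : ℤ)) : WithZero (Multiplicative ℤ))) :
    Function.Surjective φ := by
  have hs' : ∀ g : WithZero (Multiplicative ℤ), ∃ x : F', Valued.v x = g := fun g => by
    obtain ⟨x, hx⟩ := hs g
    exact ⟨φ x, by rw [hφ, hx]⟩
  have hui : IsUniformInducing φ := by
    rw [Filter.HasBasis.isUniformInducing_iff (Valued.hasBasis_uniformity F _) (Valued.hasBasis_uniformity F' _)]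
    constructor
    · intro γ' _
      obtain ⟨n, hn⟩ := s7_A γ'
      obtain ⟨γ, hγ⟩ := s7_B hs n
      refine ⟨γ, trivial, fun x y hxy => ?_⟩
      apply hn
      show Valued.v (φ y - φ x) ≤ _
      rw [← map_sub, hφ]
      exact hγ _ hxy
    · intro γ _
      obtain ⟨n, hn⟩ := s7_A γ
      obtain ⟨γ', hγ⟩ := s7_B hs' n
      refine ⟨γ', trivial, fun x y hxy => ?_⟩
      apply hn
      show Valued.v (y - x) ≤ _
      rw [← hφ, map_sub]
      exact hγ _ hxy
  have hcl : IsClosed (Set.range φ) := hui.isComplete_range.isClosed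
  intro y
  have hy : y ∈ closure (Set.range φ) := by
    rw [mem_closure_iff_nhds]
    intro t ht
    obtain ⟨γ, hγ⟩ := Valued.mem_nhds.1 ht
    obtain ⟨n, hn⟩ := s7_A γ
    obtain ⟨x, hx⟩ := hd y n
    exact ⟨φ x, hγ (hn _ hx), x, rfl⟩
  rw [hcl.closure_eq] at hy
  exact hy

variable {N : Type} [Field N] [NumberField N] [Algebra KK N] {v : HeightOneSpectrum (𝓞 KK)} {w : HeightOneSpectrum (𝓞 N)}
  {φ : v.adicCompletion KK →+* w.adicCompletion N}

theorem s7_vv (k : KK) : (Valued.v (algebraMap KK (v.adicCompletion KK) k) : WithZero (Multiplicative ℤ)) = v.valuation KK k :=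
  HeightOneSpectrum.valuedAdicCompletion_eq_valuation' v k

omit [Algebra KK N] in
theorem s7_ww (k : N) : (Valued.v (algebraMap N (w.adicCompletion N) k) : WithZero (Multiplicative ℤ)) = w.valuation N k :=
  HeightOneSpectrum.valuedAdicCompletion_eq_valuation' w k

theorem s7_le {g : WithZero (Multiplicative ℤ)} (h : g < 1) : g ≤ WithZero.exp (-1 : ℤ) := by
  rcases eq_or_ne g 0 with rfl | h0
  · exact zero_le
  · rw [← WithZero.exp_log h0] at h ⊢
    rw [← WithZero.exp_zero, WithZero.exp_lt_exp] at h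
    rw [WithZero.exp_le_exp]
    omega

theorem s7_int (h : Below v w φ) {k : KK} (hk : v.valuation KK k ≤ 1) : w.valuation N (algebraMap KK N k) ≤ 1 := by
  have h1 := h.int (algebraMap KK (v.adicCompletion KK) k) (by rw [s7_vv]; exact hk)
  rw [h.comm] at h1
  exact (s7_ww _).ge.trans h1

theorem below_over (h : Below v w φ) : w.asIdeal.LiesOver v.asIdeal := by
  have hle : v.asIdeal ≤ w.asIdeal.under (𝓞 KK) := by
    intro x hx
    by_contra hcon
    obtain ⟨y, hy, hy0⟩ := Submodule.exists_mem_ne_zero_of_ne_bot (p := w.asIdeal.under (𝓞 KK)) (Ideal.under_ne_bot _ w.ne_bot)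
    have hx0 : x ≠ 0 := by
      rintro rfl
      exact hcon (Ideal.zero_mem _)
    have e1 : v.valuation KK (algebraMap (𝓞 KK) KK x) < 1 := by
      rw [HeightOneSpectrum.valuation_of_algebraMap]
      exact (v.intValuation_lt_one_iff_mem x).2 hx
    have e2 : w.valuation N (algebraMap KK N (algebraMap (𝓞 KK) KK y)) < 1 := by
      rw [← IsScalarTower.algebraMap_apply (𝓞 KK) KK N, IsScalarTower.algebraMap_apply (𝓞 KK) (𝓞 N) N,
        HeightOneSpectrum.valuation_of_algebraMap]
      exact (w.intValuation_lt_one_iff_mem _).2 hy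
    have e3 : w.valuation N (algebraMap KK N (algebraMap (𝓞 KK) KK x)) = 1 := by
      rw [← IsScalarTower.algebraMap_apply (𝓞 KK) KK N, IsScalarTower.algebraMap_apply (𝓞 KK) (𝓞 N) N,
        HeightOneSpectrum.valuation_of_algebraMap]
      refine le_antisymm (w.intValuation_le_one _) (not_lt.1 fun hlt => hcon ?_)
      exact (w.intValuation_lt_one_iff_mem _).1 hlt
    have hy1 : (algebraMap (𝓞 KK) KK y) ≠ 0 := by
      rw [Ne, FaithfulSMul.algebraMap_eq_zero_iff]
      exact hy0
    obtain ⟨n, hn⟩ := exists_pow_lt₀ e1 (Units.mk0 (v.valuation KK (algebraMap (𝓞 KK) KK y)) (by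
      rw [Ne, map_eq_zero]
      exact hy1))
    rw [Units.val_mk0] at hn
    have h1 := s7_int h (k := (algebraMap (𝓞 KK) KK x) ^ n / algebraMap (𝓞 KK) KK y) (by
      rw [map_div₀, map_pow]
      exact div_le_one_of_le₀ hn.le zero_le)
    rw [map_div₀, map_div₀, map_pow, map_pow, e3, one_pow, div_le_one₀ (by
      rw [zero_lt_iff, Ne, map_eq_zero, map_eq_zero]
      exact hy1)] at h1
    exact absurd h1 (not_le.2 e2)
  have hmax : v.asIdeal.IsMaximal := v.isMaximal
  refine ⟨?_⟩
  refine hmax.eq_of_le ?_ hle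
  exact (Ideal.IsPrime.under (𝓞 KK) w.asIdeal).ne_top

theorem below_val (h : Below v w φ) (he : ∀ x : KK, w.valuation N (algebraMap KK N x) = v.valuation KK x) (x : v.adicCompletion KK) :
    Valued.v (φ x) = (Valued.v x : WithZero (Multiplicative ℤ)) := by
  rcases eq_or_ne x 0 with rfl | hx
  · rw [map_zero, map_zero, map_zero]
  have hvx : (Valued.v x : WithZero (Multiplicative ℤ)) ≠ 0 := by rwa [Ne, map_eq_zero]
  have h2 : IsOpen ((fun y : v.adicCompletion KK => y - x) ⁻¹' {y | Valued.v.restrict y < Valued.v.restrict x}) :=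
    (Valued.isOpen_ball (v.adicCompletion KK) (Valued.v.restrict x)).preimage (continuous_id.sub continuous_const)
  obtain ⟨k, hk⟩ := (HeightOneSpectrum.denseRange_algebraMap KK v).exists_mem_open h2 ⟨x, by
      show Valued.v.restrict (x - x) < Valued.v.restrict x
      rw [sub_self, Valuation.restrict_lt_iff, map_zero]
      exact zero_lt_iff.2 hvx⟩
  have hk : Valued.v (algebraMap KK (v.adicCompletion KK) k - x) < (Valued.v x : WithZero (Multiplicative ℤ)) :=
    (Valuation.restrict_lt_iff _).1 hk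
  have hkx : (Valued.v (algebraMap KK (v.adicCompletion KK) k) : WithZero (Multiplicative ℤ)) = Valued.v x :=
    Valuation.map_eq_of_sub_lt _ hk
  have hk0 : algebraMap KK (v.adicCompletion KK) k ≠ 0 := by
    intro h0
    rw [h0, map_zero] at hkx
    exact hvx hkx.symm
  set y : v.adicCompletion KK := (x - algebraMap KK (v.adicCompletion KK) k) / algebraMap KK (v.adicCompletion KK) k with hy
  have hxy : x = algebraMap KK (v.adicCompletion KK) k * (1 + y) := by
    rw [hy]
    field_simp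
    ring
  have hvy : (Valued.v y : WithZero (Multiplicative ℤ)) < 1 := by
    rw [hy, map_div₀, Valuation.map_sub_swap, hkx]
    exact (div_lt_one₀ (zero_lt_iff.2 hvx)).2 hk
  obtain ⟨ϖ, hϖ⟩ := HeightOneSpectrum.valuation_exists_uniformizer KK v
  have hϖ0 : algebraMap KK (v.adicCompletion KK) ϖ ≠ 0 := by
    rw [Ne, map_eq_zero]
    rintro rfl
    rw [map_zero] at hϖ
    exact WithZero.exp_ne_zero hϖ.symm
  have h1 := h.int (y / algebraMap KK (v.adicCompletion KK) ϖ) (by
    rw [map_div₀, s7_vv, hϖ]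
    exact (div_le_one₀ (zero_lt_iff.2 WithZero.exp_ne_zero)).2 (s7_le hvy))
  have e1 : (Valued.v (φ (algebraMap KK (v.adicCompletion KK) ϖ)) : WithZero (Multiplicative ℤ)) = WithZero.exp (-1 : ℤ) := by
    rw [h.comm, s7_ww, he, hϖ]
  have hφy : (Valued.v (φ y) : WithZero (Multiplicative ℤ)) < 1 := by
    rw [map_div₀, map_div₀, e1, div_le_one₀ (zero_lt_iff.2 WithZero.exp_ne_zero)] at h1
    refine h1.trans_lt ?_
    rw [← WithZero.exp_zero, WithZero.exp_lt_exp]
    norm_num
  have e2 : (Valued.v (1 + φ y) : WithZero (Multiplicative ℤ)) = 1 := by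
    rw [Valuation.map_add_eq_of_lt_left _ (by rw [map_one]; exact hφy), map_one]
  have e3 : (Valued.v (1 + y) : WithZero (Multiplicative ℤ)) = 1 := by
    rw [Valuation.map_add_eq_of_lt_left _ (by rw [map_one]; exact hvy), map_one]
  rw [hxy, map_mul, map_mul, map_mul, map_add, map_one, e2, e3, h.comm, s7_ww, he, s7_vv]

theorem val_eq_of_ram [w.asIdeal.LiesOver v.asIdeal] (he : v.asIdeal.ramificationIdx' w.asIdeal = 1) (x : KK) :
    w.valuation N (algebraMap KK N x) = v.valuation KK x := by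
  rw [← HeightOneSpectrum.valuation_liesOver N v w, he, pow_one]

theorem below_surj (h : Below v w φ) (he : ∀ x : KK, w.valuation N (algebraMap KK N x) = v.valuation KK x)
    (hres : ∀ a : 𝓞 N, ∃ k : 𝓞 KK, a - algebraMap (𝓞 KK) (𝓞 N) k ∈ w.asIdeal) : Function.Surjective φ := by
  have hlo := below_over h
  have hmax : v.asIdeal.IsMaximal := v.isMaximal
  obtain ⟨ϖ, hϖ⟩ := HeightOneSpectrum.valuation_exists_uniformizer KK v
  have hϖ0 : ϖ ≠ 0 := by
    rintro rfl
    rw [map_zero] at hϖ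
    exact WithZero.exp_ne_zero hϖ.symm
  have hwϖ : w.valuation N (algebraMap KK N ϖ) = WithZero.exp (-1 : ℤ) := by rw [he, hϖ]
  have hwϖ0 : algebraMap KK N ϖ ≠ 0 := by rwa [Ne, map_eq_zero]
  -- one step
  have step : ∀ x : N, w.valuation N x ≤ 1 → ∃ k : KK, w.valuation N (x - algebraMap KK N k) ≤ WithZero.exp (-1 : ℤ) := by
    intro x hx
    obtain ⟨a, ⟨b, hb⟩, hab⟩ := HeightOneSpectrum.exists_primeCompl_mul_eq_of_integer w x hx
    obtain ⟨ka, hka⟩ := hres a
    obtain ⟨kb, hkb⟩ := hres b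
    have hkb' : kb ∉ v.asIdeal := by
      intro hmem
      apply hb
      have h1 : algebraMap (𝓞 KK) (𝓞 N) kb ∈ w.asIdeal := by
        have := hlo.over ▸ hmem
        exact this
      have h2 := w.asIdeal.add_mem hkb h1
      rwa [sub_add_cancel] at h2
    obtain ⟨kc, hkc⟩ := (Ideal.Quotient.maximal_ideal_iff_isField_quotient v.asIdeal).1 hmax |>.mul_inv_cancel
      (a := Ideal.Quotient.mk v.asIdeal kb) (by rwa [Ne, Ideal.Quotient.eq_zero_iff_mem])
    obtain ⟨kc, rfl⟩ := Ideal.Quotient.mk_surjective kc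
    rw [← map_mul, ← map_one (Ideal.Quotient.mk v.asIdeal), Ideal.Quotient.mk_eq_mk_iff_sub_mem] at hkc
    have hkc' : algebraMap (𝓞 KK) (𝓞 N) (kb * kc - 1) ∈ w.asIdeal := by
      have := hlo.over ▸ hkc
      exact this
    have hnum : a - b * algebraMap (𝓞 KK) (𝓞 N) (ka * kc) ∈ w.asIdeal := by
      have e : a - b * algebraMap (𝓞 KK) (𝓞 N) (ka * kc) = (a - algebraMap (𝓞 KK) (𝓞 N) ka)
          - (b - algebraMap (𝓞 KK) (𝓞 N) kb) * algebraMap (𝓞 KK) (𝓞 N) (ka * kc)
          - algebraMap (𝓞 KK) (𝓞 N) ka * algebraMap (𝓞 KK) (𝓞 N) (kb * kc - 1) := by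
        simp only [map_mul, map_sub, map_one]
        ring
      rw [e]
      exact w.asIdeal.sub_mem (w.asIdeal.sub_mem hka (w.asIdeal.mul_mem_right _ hkb)) (w.asIdeal.mul_mem_left _ hkc')
    refine ⟨algebraMap (𝓞 KK) KK (ka * kc), s7_le ?_⟩
    have hb1 : w.valuation N (algebraMap (𝓞 N) N b) = 1 := by
      rw [HeightOneSpectrum.valuation_of_algebraMap]
      exact (w.intValuation_eq_one_iff_mem_primeCompl b).2 hb
    have e2 : (x - algebraMap KK N (algebraMap (𝓞 KK) KK (ka * kc))) * algebraMap (𝓞 N) N b =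
        algebraMap (𝓞 N) N (a - b * algebraMap (𝓞 KK) (𝓞 N) (ka * kc)) := by
      rw [← IsScalarTower.algebraMap_apply (𝓞 KK) KK N, sub_mul, hab, (algebraMap (𝓞 N) N).map_sub, (algebraMap (𝓞 N) N).map_mul,
        ← IsScalarTower.algebraMap_apply (𝓞 KK) (𝓞 N) N, mul_comm (algebraMap (𝓞 KK) N (ka * kc))]
    have e3 := congrArg (w.valuation N) e2
    rw [map_mul, hb1, mul_one] at e3
    rw [e3, HeightOneSpectrum.valuation_of_algebraMap]
    exact (w.intValuation_lt_one_iff_mem _).2 hnum
  have iter : ∀ n : ℕ, ∀ x : N, w.valuation N x ≤ 1 → ∃ k : KK, w.valuation N (x - algebraMap KK N k) ≤ WithZero.exp (-(n : ℤ)) := by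
    intro n
    induction n with
    | zero =>
      intro x hx
      refine ⟨0, ?_⟩
      rw [map_zero, sub_zero]
      simpa using hx
    | succ n ih =>
      intro x hx
      obtain ⟨k0, hk0⟩ := step x hx
      obtain ⟨k1, hk1⟩ := ih ((x - algebraMap KK N k0) / algebraMap KK N ϖ) (by
        rw [map_div₀, hwϖ]
        exact (div_le_one₀ (zero_lt_iff.2 WithZero.exp_ne_zero)).2 hk0)
      refine ⟨k0 + ϖ * k1, ?_⟩
      have e : x - algebraMap KK N (k0 + ϖ * k1) = algebraMap KK N ϖ *
          ((x - algebraMap KK N k0) / algebraMap KK N ϖ - algebraMap KK N k1) := by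
        rw [map_add, map_mul]
        field_simp
        ring
      rw [e, map_mul, hwϖ]
      refine (mul_le_mul_right hk1 _).trans ?_
      rw [← WithZero.exp_add, WithZero.exp_le_exp]
      push_cast
      omega
  have iter' : ∀ (n : ℕ) (x : N), ∃ k : KK, w.valuation N (algebraMap KK N k - x) ≤ WithZero.exp (-(n : ℤ)) := by
    intro n x
    obtain ⟨m, hm⟩ : ∃ m : ℕ, w.valuation N (algebraMap KK N ϖ ^ m * x) ≤ 1 := by
      rcases eq_or_ne x 0 with rfl | hx
      · exact ⟨0, by rw [mul_zero, map_zero]; exact zero_le⟩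
      have hx0 : (w.valuation N x)⁻¹ ≠ 0 := by
        rw [Ne, inv_eq_zero, map_eq_zero]
        exact hx
      obtain ⟨m, hm⟩ := s7_lt _ hx0
      refine ⟨m, ?_⟩
      rw [map_mul, map_pow, hwϖ, ← WithZero.exp_nsmul]
      have h1 : w.valuation N x ≠ 0 := by rwa [Ne, map_eq_zero]
      have h2 := (mul_le_mul_left hm.le (w.valuation N x))
      rw [inv_mul_cancel₀ h1] at h2
      refine (le_of_eq ?_).trans h2
      simp
    obtain ⟨k, hk⟩ := iter (n + m) _ hm
    refine ⟨k / ϖ ^ m, ?_⟩
    have e : algebraMap KK N (k / ϖ ^ m) - x = - ((algebraMap KK N ϖ ^ m * x - algebraMap KK N k) / algebraMap KK N ϖ ^ m) := by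
      rw [map_div₀, map_pow]
      field_simp
      ring
    rw [e, Valuation.map_neg, map_div₀, map_pow, hwϖ, ← WithZero.exp_nsmul]
    rw [div_le_iff₀ (zero_lt_iff.2 WithZero.exp_ne_zero), ← WithZero.exp_add]
    refine hk.trans (le_of_eq ?_)
    congr 1
    simp
    ring
  refine s7_surj φ (below_val h he) (fun g => ?_) (fun y n => ?_)
  · obtain ⟨x, hx⟩ := v.valuation_surjective KK g
    exact ⟨algebraMap KK _ x, by rw [s7_vv, hx]⟩
  · obtain ⟨γ, hγ⟩ := s7_B (F := w.adicCompletion N) (fun g => by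
      obtain ⟨x, hx⟩ := w.valuation_surjective N g
      exact ⟨algebraMap N _ x, by rw [s7_ww, hx]⟩) n
    have h2 : IsOpen ((fun z : w.adicCompletion N => z - y) ⁻¹' {z | Valued.v.restrict z < γ.1}) :=
      (Valued.isOpen_ball (w.adicCompletion N) γ.1).preimage (continuous_id.sub continuous_const)
    obtain ⟨x, hx⟩ := (HeightOneSpectrum.denseRange_algebraMap N w).exists_mem_open h2 ⟨y, by
      show Valued.v.restrict (y - y) < γ.1
      rw [sub_self, map_zero]
      exact zero_lt_iff.2 γ.ne_zero⟩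
    have hx1 : Valued.v (algebraMap N (w.adicCompletion N) x - y) ≤ (WithZero.exp (-(n : ℤ)) : WithZero (Multiplicative ℤ)) := hγ _ hx
    obtain ⟨k, hk⟩ := iter' n x
    refine ⟨algebraMap KK _ k, ?_⟩
    have e : φ (algebraMap KK (v.adicCompletion KK) k) - y = algebraMap N (w.adicCompletion N) (algebraMap KK N k - x) +
        (algebraMap N (w.adicCompletion N) x - y) := by
      rw [h.comm, map_sub]
      ring
    rw [e]
    refine (Valued.v.map_add _ _).trans (max_le ?_ hx1)
    rw [s7_ww]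
    exact hk

theorem res_of_inertia [w.asIdeal.LiesOver v.asIdeal] (hf : v.asIdeal.inertiaDeg' w.asIdeal = 1) (a : 𝓞 N) :
    ∃ k : 𝓞 KK, a - algebraMap (𝓞 KK) (𝓞 N) k ∈ w.asIdeal := by
  have hmax : v.asIdeal.IsMaximal := v.isMaximal
  have hmax' : w.asIdeal.IsMaximal := w.isMaximal
  rw [Ideal.inertiaDeg'_algebraMap] at hf
  let _ : Field (𝓞 KK ⧸ v.asIdeal) := Ideal.Quotient.field _
  obtain ⟨c, hc⟩ := (finrank_eq_one_iff_of_nonzero' (K := 𝓞 KK ⧸ v.asIdeal) (V := 𝓞 N ⧸ w.asIdeal) 1 (by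
    have : Nontrivial (𝓞 N ⧸ w.asIdeal) := Ideal.Quotient.nontrivial_iff.2 hmax'.ne_top
    exact one_ne_zero)).1 hf (Ideal.Quotient.mk _ a)
  obtain ⟨k, rfl⟩ := Ideal.Quotient.mk_surjective c
  refine ⟨k, ?_⟩
  rw [← Ideal.Quotient.mk_eq_mk_iff_sub_mem, ← hc, Algebra.smul_def, mul_one]
  rfl

end CXS
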