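import Pool.Agent.CXS.Defs
import Pool.Agent.TW.T8a

/-!
# [CXS-S8] local triviality for one embedding implies local triviality for all embeddings, over a trivial extension of the completion

PROOF. Let `Kv = v.adicCompletion KK`, `Mv = AlgebraicClosure Kv`, `ι₁ : L →ₐ[KK] Mv`. Put on `M` the structure of a `Kv`-algebra through `φ`; `φ` is bijective (surjective, a homomorphism of fields), so `M` is an algebraic closure of `Kv` and there is a ring isomorphism `F : M ≃+* Mv` with `F (algebraMap C M (φ x)) = algebraMap Kv Mv x`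
(`IsAlgClosure.equiv Kv M Mv`). `F ∘ ι` and `ι₁` are two `KK`-homomorphisms `L → Mv`, `L / KK` is normal: there is `g : L ≃ₐ[KK] L` with `ι₁ (x) = F (ι (g x))` (`WR.r4c_normal`, see TW/T8a.lean).
From `hloc`: `Q` over `M`. Put `Q₁ = ptE F Q`. For `τ₁ ∈ Gal(Mv/Kv)` put `τ = F⁻¹ τ₁ F ∈ Gal(M/C)` (it fixes `C = φ(Kv)`). If `ι₁ (σ x) = τ₁ (ι₁ x)` then `ι (g σ g⁻¹ y) = τ (ι y)`, so `ptE ι (c (g σ g⁻¹)) = ptE τ Q - Q`. With `c (g σ g⁻¹) = c g + g c(σ) + g σ c(g⁻¹)`, `c(g⁻¹) = - g⁻¹ c(g)` (`hc.crossed`, `c 1 = 0`):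
`ptE ι (ptE g (c σ)) = ptE τ Q - Q - ptE ι (c g) + ptE τ (ptE ι (c g))`. Apply `ptE F`: `ptE ι₁ (c σ) = ptE τ₁ R - R` with `R = ptE F (Q + ptE ι (c g))` (`JD.ptE_comp`, `JD.ptE_congr`, `JD.ptE_add`, `JD.ptE_sub`).
-/

set_option autoImplicit false

open NumberField IsDedekindDomain
open scoped Classical

namespace CXS

open CM27 CF
open JD (ED ptE Coc LocTriv Below jK)
open CUD (gal_comm alg_comm tau_comm am_ne am_o)

theorem S8_normal {F₀ E M : Type} [Field F₀] [Field E] [Field M] [Algebra F₀ E] [Algebra F₀ M]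
    [Normal F₀ E] (a b : E →ₐ[F₀] M) : ∃ g : E ≃ₐ[F₀] E, ∀ x, a (g x) = b x := by
  let _ : Algebra E M := (a : E →+* M).toAlgebra
  have : IsScalarTower F₀ E M := IsScalarTower.of_algebraMap_eq fun x => (a.commutes x).symm
  exact ⟨b.restrictNormal' E, fun x => b.restrictNormal_commutes E x⟩

theorem S8_equiv {Kv C M : Type} [Field Kv] [Field C] [Field M] [Algebra C M] [IsAlgClosure C M]
    (φ : Kv →+* C) (hs : Function.Surjective φ) :
    ∃ F : M ≃+* AlgebraicClosure Kv, ∀ x : Kv,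
      F (algebraMap C M (φ x)) = algebraMap Kv (AlgebraicClosure Kv) x := by
  let _ : Algebra Kv C := φ.toAlgebra
  let _ : Algebra Kv M := ((algebraMap C M).comp φ).toAlgebra
  have : IsScalarTower Kv C M := IsScalarTower.of_algebraMap_eq fun x => rfl
  have : Algebra.IsAlgebraic Kv C := ⟨fun x => by
    obtain ⟨y, rfl⟩ := hs x
    exact isAlgebraic_algebraMap (R := Kv) (A := C) y⟩
  have : Algebra.IsAlgebraic C M := IsAlgClosure.isAlgebraic
  have : Algebra.IsAlgebraic Kv M := Algebra.IsAlgebraic.trans Kv C M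
  have : IsAlgClosed M := IsAlgClosure.isAlgClosed C
  have : IsAlgClosure Kv M := ⟨inferInstance, inferInstance⟩
  let e := IsAlgClosure.equiv Kv M (AlgebraicClosure Kv)
  exact ⟨e.toRingEquiv, fun x => e.commutes x⟩

/-- [CXS-S8] -/
theorem locTriv_of_locAt {L : Type} [Field L] [Algebra KK L] [IsAlgClosure KK L] {d : KK} {c : (L ≃ₐ[KK] L) → (ED (algebraMap KK L d)).toAffine.Point}
    (hc : Coc KK L d c) {v : HeightOneSpectrum (𝓞 KK)} {C M : Type} [Field C] [Algebra KK C] [Field M] [Algebra C M] [Algebra KK M] [IsScalarTower KK C M]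
    [IsAlgClosure C M] {φ : v.adicCompletion KK →+* C} (hφ : ∀ x : KK, φ (algebraMap KK (v.adicCompletion KK) x) = algebraMap KK C x)
    (hs : Function.Surjective φ) {ι : L →ₐ[KK] M} (hloc : LocAt c C M ι) :
    LocTriv c (v.adicCompletion KK) (AlgebraicClosure (v.adicCompletion KK)) := by
  obtain ⟨F, hF⟩ := S8_equiv (Kv := v.adicCompletion KK) (C := C) (M := M) φ hs
  have hnorm : Normal KK L := IsAlgClosure.normal KK L
  have hFK : ∀ x : KK, F (algebraMap KK M x) =
      algebraMap KK (AlgebraicClosure (v.adicCompletion KK)) x := by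
    intro x
    rw [IsScalarTower.algebraMap_apply KK C M, ← hφ, hF,
      ← IsScalarTower.algebraMap_apply KK (v.adicCompletion KK)
        (AlgebraicClosure (v.adicCompletion KK))]
  intro ι₁
  let b : L →ₐ[KK] AlgebraicClosure (v.adicCompletion KK) :=
    { toRingHom := (F : M →+* AlgebraicClosure (v.adicCompletion KK)).comp (ι : L →+* M)
      commutes' := fun x => by
        show F (ι (algebraMap KK L x)) = _
        rw [ι.commutes, hFK] }
  obtain ⟨g, hg⟩ := S8_normal b ι₁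
  have hg' : ∀ x, F (ι (g x)) = ι₁ x := hg
  obtain ⟨Q, hQ⟩ := hloc
  have hFd : (F : M →+* AlgebraicClosure (v.adicCompletion KK)) (algebraMap KK M d) =
      algebraMap KK (AlgebraicClosure (v.adicCompletion KK)) d := hFK d
  refine ⟨ptE (F : M →+* AlgebraicClosure (v.adicCompletion KK)) hFd
    (Q + ptE (ι : L →+* M) (alg_comm ι d) (c g)), fun τ₁ σ hσ => ?_⟩
  let τ : M ≃ₐ[C] M := AlgEquiv.ofRingEquiv
    (f := (F.trans (τ₁ : AlgebraicClosure (v.adicCompletion KK) ≃+*
      AlgebraicClosure (v.adicCompletion KK))).trans F.symm) (fun y => by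
      obtain ⟨x, rfl⟩ := hs y
      show F.symm (τ₁ (F (algebraMap C M (φ x)))) = algebraMap C M (φ x)
      rw [hF, τ₁.commutes, ← hF, F.symm_apply_apply])
  have hτ : ∀ y, F (τ y) = τ₁ (F y) := fun y => F.apply_symm_apply _
  obtain ⟨σ', hσ'⟩ : ∃ σ' : L ≃ₐ[KK] L, g * σ = σ' * g := ⟨g * σ * g⁻¹, by group⟩
  have hσ'' : ∀ x, σ' (g x) = g (σ x) := fun x => by
    have := congrArg (fun h : L ≃ₐ[KK] L => h x) hσ'
    exact this.symm
  have hcond : ∀ x, ι (σ' x) = τ (ι x) := by
    intro x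
    obtain ⟨y, rfl⟩ := g.surjective x
    apply F.injective
    rw [hσ'', hg', hσ, hτ, hg']
  have key := hQ τ σ' hcond
  have h1 := hc.crossed g σ
  have h2 := hc.crossed σ' g
  rw [← hσ', h1] at h2
  -- `g (c σ) = c σ' + σ' (c g) - c g`
  have h3 : ptE (g : L →+* L) (gal_comm g d) (c σ) =
      c σ' + ptE (σ' : L →+* L) (gal_comm σ' d) (c g) - c g := by
    rw [← h2]
    abel
  have e1 : ptE (ι₁ : L →+* AlgebraicClosure (v.adicCompletion KK)) (alg_comm ι₁ d) (c σ) =
      ptE (F : M →+* AlgebraicClosure (v.adicCompletion KK)) hFd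
        (ptE (ι : L →+* M) (alg_comm ι d) (ptE (g : L →+* L) (gal_comm g d) (c σ))) := by
    rw [JD.ptE_comp, JD.ptE_comp]
    refine JD.ptE_congr ?_ _ _ _
    ext x
    exact (hg' x).symm
  have e2 : ptE (ι : L →+* M) (alg_comm ι d) (ptE (σ' : L →+* L) (gal_comm σ' d) (c g)) =
      ptE (τ : M →+* M) (tau_comm KK C M τ d) (ptE (ι : L →+* M) (alg_comm ι d) (c g)) := by
    rw [JD.ptE_comp, JD.ptE_comp]
    refine JD.ptE_congr ?_ _ _ _
    ext x
    exact hcond x
  have e3 : ∀ P : (ED (algebraMap KK M d)).toAffine.Point,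
      ptE (F : M →+* AlgebraicClosure (v.adicCompletion KK)) hFd
        (ptE (τ : M →+* M) (tau_comm KK C M τ d) P) =
      ptE (τ₁ : AlgebraicClosure (v.adicCompletion KK) →+* AlgebraicClosure (v.adicCompletion KK))
        (tau_comm KK (v.adicCompletion KK) (AlgebraicClosure (v.adicCompletion KK)) τ₁ d)
        (ptE (F : M →+* AlgebraicClosure (v.adicCompletion KK)) hFd P) := by
    intro P
    rw [JD.ptE_comp, JD.ptE_comp]
    refine JD.ptE_congr ?_ _ _ _
    ext x
    exact hτ x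
  rw [e1, h3, JD.ptE_sub, JD.ptE_add, e2, key, ← e3, ← JD.ptE_sub]
  congr 1
  rw [JD.ptE_add]
  abel

end CXS
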