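import Pool.Agent.CXS.S1
import Pool.Agent.CXS.S2
import Pool.Agent.CXS.S3
import Pool.Agent.CXS.S4
import Pool.Agent.CXS.S6

/-!
# [CXS-S9] the step from `K` to `N`

PROOF. Suppose `c` is not `dN T` for any `T ∈ W`. Let `Z = Ch KK N L (jK D)` (functions, an additive group), `S` the subgroup of the `c` with `Coc`, values in `W`, `LocTriv` at all `w` (closed under addition and negation: sums of locally constant maps; `LocTriv`: add the points `Q`; `JD.ptE_add`), `B` the subgroup of the `dN T`, `T ∈ W`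
(`B ≤ S`: `dN T` is a cocycle (`JD.n1_loc_ptE`, `JD.n1_comp`), with values in `W` (`hW.stab` for `res σ`), locally trivial with `Q = ptE ι T`).
`inv_class` (S1) with `G = L ≃ₐ[KK] L`, `p = l`, `ρ = ac`: `hadd`, `hmul`, `hone`: S2; `hp`: `l • c = 0 = dN 0` (`hW.kill`); `hS`: `ac_coc`, `hW.stab`, `ac_loc` (S3); `hB`: `ac_dN`, `hW.stab`; `H` = the kernel of the restriction `(L ≃ₐ[KK] L) →* (N ≃ₐ[KK] N)` (`AlgEquiv.restrictNormalHom N`), the quotient is finite (it embeds in the finite group `N ≃ₐ[KK] N`),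
`g ^ l ^ n ∈ H`: the image has order dividing `Nat.card (N ≃ₐ[KK] N) = finrank = l ^ n` (`IsGalois.card_aut_eq_finrank`, `pow_card_eq_one'`). `hH`: `g ∈ H` fixes `N`, so `g = res σ`, `ac_inner`, and `c σ ∈ W`.
This gives `c₁ ∈ S`, not in `B`, with `ac g c₁ - c₁ ∈ B` for all `g`. `ext_coc` (S4): `c'` over `KK`. `locC_of` (S6): `LocC l D c'`. `kstep` gives `T` with `tr T ∈ W`, `c' = ∂T`; `cob_res` (S5): `c₁ = dN (tr T) ∈ B`, a contradiction.
-/

set_option autoImplicit false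

open NumberField IsDedekindDomain
open scoped Classical

namespace CXS

open CM27 CF
open JD (ED ptE Coc LocTriv Below jK)
open CUD (gal_comm alg_comm tau_comm am_ne am_o)

section
variable {N L : Type} [Field N] [Field L] [Algebra N L] {d : N}

theorem s9_dN_add (T T' : (ED (algebraMap N L d)).toAffine.Point) : (dN (T + T') : (L ≃ₐ[N] L) → _) = dN T + dN T' := by
  funext σ
  show ptE (σ : L →+* L) (gal_comm σ d) (T + T') - (T + T') =
    (ptE (σ : L →+* L) (gal_comm σ d) T - T) + (ptE (σ : L →+* L) (gal_comm σ d) T' - T')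
  rw [JD.ptE_add]
  abel

theorem s9_dN_zero : (dN (0 : (ED (algebraMap N L d)).toAffine.Point) : (L ≃ₐ[N] L) → _) = 0 := by
  funext σ
  show ptE (σ : L →+* L) (gal_comm σ d) 0 - 0 = 0
  rw [JD.ptE_zero, sub_zero]

theorem s9_dN_neg (T : (ED (algebraMap N L d)).toAffine.Point) : (dN (-T) : (L ≃ₐ[N] L) → _) = -dN T := by
  rw [eq_neg_iff_add_eq_zero, ← s9_dN_add, neg_add_cancel, s9_dN_zero]

theorem s9_coc_dN [Algebra.IsAlgebraic N L] (T : (ED (algebraMap N L d)).toAffine.Point) : Coc N L d (dN T) := by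
  refine ⟨(JD.n1_loc_ptE (F := N) T).sub (IsLocallyConstant.const T), fun σ τ => ?_⟩
  show ptE ((σ * τ : L ≃ₐ[N] L) : L →+* L) (gal_comm (σ * τ) d) T - T = (ptE (σ : L →+* L) (gal_comm σ d) T - T) +
    ptE (σ : L →+* L) (gal_comm σ d) (ptE (τ : L →+* L) (gal_comm τ d) T - T)
  rw [JD.n1_comp, JD.ptE_sub]
  abel

theorem s9_coc_add {c c' : (L ≃ₐ[N] L) → (ED (algebraMap N L d)).toAffine.Point} (hc : Coc N L d c) (hc' : Coc N L d c') : Coc N L d (c + c') := by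
  refine ⟨hc.loc.add hc'.loc, fun σ τ => ?_⟩
  show c (σ * τ) + c' (σ * τ) = (c σ + c' σ) + ptE (σ : L →+* L) (gal_comm σ d) (c τ + c' τ)
  rw [JD.ptE_add, hc.crossed, hc'.crossed]
  abel

theorem s9_coc_neg {c : (L ≃ₐ[N] L) → (ED (algebraMap N L d)).toAffine.Point} (hc : Coc N L d c) : Coc N L d (-c) := by
  refine ⟨hc.loc.neg, fun σ τ => ?_⟩
  show -c (σ * τ) = -c σ + ptE (σ : L →+* L) (gal_comm σ d) (-c τ)
  rw [hc.crossed, ← zero_sub (c τ), JD.ptE_sub, JD.ptE_zero]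
  abel

theorem s9_loc_add {c c' : (L ≃ₐ[N] L) → (ED (algebraMap N L d)).toAffine.Point} {Fv Lv : Type} [Field Fv]
    [Algebra N Fv] [Field Lv] [Algebra Fv Lv] [Algebra N Lv] [IsScalarTower N Fv Lv] (h : LocTriv c Fv Lv) (h' : LocTriv c' Fv Lv) :
    LocTriv (c + c') Fv Lv := by
  intro ι
  obtain ⟨Q, hQ⟩ := h ι
  obtain ⟨Q', hQ'⟩ := h' ι
  refine ⟨Q + Q', fun τ σ hστ => ?_⟩
  show ptE (ι : L →+* Lv) (alg_comm ι d) (c σ + c' σ) = _
  rw [JD.ptE_add, JD.ptE_add, hQ τ σ hστ, hQ' τ σ hστ]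
  abel

theorem s9_loc_neg {c : (L ≃ₐ[N] L) → (ED (algebraMap N L d)).toAffine.Point} {Fv Lv : Type} [Field Fv]
    [Algebra N Fv] [Field Lv] [Algebra Fv Lv] [Algebra N Lv] [IsScalarTower N Fv Lv] (h : LocTriv c Fv Lv) :
    LocTriv (-c) Fv Lv := by
  intro ι
  obtain ⟨Q, hQ⟩ := h ι
  refine ⟨-Q, fun τ σ hστ => ?_⟩
  show ptE (ι : L →+* Lv) (alg_comm ι d) (-c σ) = _
  rw [← zero_sub (c σ), ← zero_sub Q, JD.ptE_sub, JD.ptE_sub, hQ τ σ hστ, JD.ptE_zero, JD.ptE_zero]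
  abel

theorem s9_loc_dN (T : (ED (algebraMap N L d)).toAffine.Point) {Fv Lv : Type} [Field Fv]
    [Algebra N Fv] [Field Lv] [Algebra Fv Lv] [Algebra N Lv] [IsScalarTower N Fv Lv] :
    LocTriv (dN T : (L ≃ₐ[N] L) → _) Fv Lv := by
  intro ι
  refine ⟨ptE (ι : L →+* Lv) (alg_comm ι d) T, fun τ σ hστ => ?_⟩
  have h7 : (ι : L →+* Lv).comp (σ : L →+* L) = (τ : Lv →+* Lv).comp (ι : L →+* Lv) := by
    ext x
    exact hστ x
  show ptE (ι : L →+* Lv) (alg_comm ι d) (ptE (σ : L →+* L) (gal_comm σ d) T - T) = _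
  rw [JD.ptE_sub, JD.ptE_comp, JD.ptE_comp, JD.ptE_congr h7]

end

section
variable {l : ℕ} {D : Eis} {N L : Type} [Field N] [NumberField N] [Field L] [Algebra KK N] [Algebra N L] [Algebra KK L]
    [IsScalarTower KK N L]

/-- the locally trivial cocycles with values in `W` -/
def s9_S (D : Eis) (W : AddSubgroup (ED (algebraMap N L (algebraMap KK N (jK D)))).toAffine.Point) [Algebra.IsAlgebraic N L] :
    AddSubgroup (Ch KK N L (jK D)) where
  carrier := {c | Coc N L (algebraMap KK N (jK D)) c ∧ (∀ σ, c σ ∈ W) ∧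
    ∀ w : HeightOneSpectrum (𝓞 N), LocTriv c (w.adicCompletion N) (AlgebraicClosure (w.adicCompletion N))}
  zero_mem' := by
    have h : (0 : Ch KK N L (jK D)) = dN 0 := s9_dN_zero.symm
    rw [h]
    refine ⟨s9_coc_dN _, fun σ => ?_, fun w => s9_loc_dN _⟩
    rw [s9_dN_zero]
    exact W.zero_mem
  add_mem' := fun {a b} ha hb => ⟨s9_coc_add ha.1 hb.1, fun σ => W.add_mem (ha.2.1 σ) (hb.2.1 σ), fun w => s9_loc_add (ha.2.2 w) (hb.2.2 w)⟩
  neg_mem' := fun {a} ha => ⟨s9_coc_neg ha.1, fun σ => W.neg_mem (ha.2.1 σ), fun w => s9_loc_neg (ha.2.2 w)⟩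

/-- the principal ones -/
def s9_B (D : Eis) (W : AddSubgroup (ED (algebraMap N L (algebraMap KK N (jK D)))).toAffine.Point) : AddSubgroup (Ch KK N L (jK D)) where
  carrier := {c | ∃ T ∈ W, c = dN T}
  zero_mem' := ⟨0, W.zero_mem, s9_dN_zero.symm⟩
  add_mem' := by
    rintro a b ⟨T, hT, rfl⟩ ⟨T', hT', rfl⟩
    exact ⟨T + T', W.add_mem hT hT', (s9_dN_add T T').symm⟩
  neg_mem' := by
    rintro a ⟨T, hT, rfl⟩
    exact ⟨-T, W.neg_mem hT, (s9_dN_neg T).symm⟩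

omit [NumberField N] in
/-- an automorphism which is the identity on `N` -/
theorem s9_res (g : L ≃ₐ[KK] L) (hg : ∀ x : N, g (algebraMap N L x) = algebraMap N L x) : ∃ σ : L ≃ₐ[N] L, res σ = g :=
  ⟨AlgEquiv.ofRingEquiv (f := g.toRingEquiv) hg, AlgEquiv.ext (fun _ => rfl)⟩

end

/-- [CXS-S9] -/
theorem stepN {l n : ℕ} (hl : l.Prime) {D : Eis} {N L : Type} [Field N] [NumberField N] [Field L] [Algebra KK N] [Algebra N L] [Algebra KK L]
    [IsScalarTower KK N L] [IsAlgClosure N L] [IsGalois KK N] (hdeg : Module.finrank KK N = l ^ n) (hN : HN l D N)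
    {W : AddSubgroup (ED (algebraMap N L (algebraMap KK N (jK D)))).toAffine.Point} (hW : Adm l KK N W)
    (kstep : ∀ c' : (L ≃ₐ[KK] L) → (ED (algebraMap KK L (jK D))).toAffine.Point, Coc KK L (jK D) c' → (∀ σ, tr KK N (c' σ) ∈ W) → LocC l D c' →
      ∃ T : (ED (algebraMap KK L (jK D))).toAffine.Point, tr KK N T ∈ W ∧ ∀ σ, c' σ = ptE (σ : L →+* L) (gal_comm σ (jK D)) T - T)
    {c : Ch KK N L (jK D)} (hc : Coc N L (algebraMap KK N (jK D)) c) (hcW : ∀ σ, c σ ∈ W)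
    (hloc : ∀ w : HeightOneSpectrum (𝓞 N), LocTriv c (w.adicCompletion N) (AlgebraicClosure (w.adicCompletion N))) :
    ∃ T ∈ W, c = dN T := by
  have halg : Algebra.IsAlgebraic N L := IsAlgClosure.isAlgebraic
  have hpos : 0 < Module.finrank KK N := by
    rw [hdeg]
    exact pow_pos hl.pos n
  have hfin : FiniteDimensional KK N := Module.finite_of_finrank_pos hpos
  by_contra hcon
  let f : (L ≃ₐ[KK] L) →* (N ≃ₐ[KK] N) := AlgEquiv.restrictNormalHom N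
  have hfq : Finite ((L ≃ₐ[KK] L) ⧸ f.ker) := Finite.of_injective (QuotientGroup.kerLift f) (QuotientGroup.kerLift_injective f)
  have hG : ∀ g : L ≃ₐ[KK] L, g ^ l ^ n ∈ f.ker := by
    intro g
    rw [MonoidHom.mem_ker, map_pow, ← hdeg, ← IsGalois.card_aut_eq_finrank]
    exact pow_card_eq_one'
  have hres : ∀ g ∈ f.ker, ∃ σ : L ≃ₐ[N] L, res σ = g := by
    intro g hg
    apply s9_res
    intro x
    have h1 : g.restrictNormal N = 1 := hg
    rw [nor_apply, h1]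
    rfl
  obtain ⟨z, ⟨hz1, hz2, hz3⟩, hzB, hz⟩ := inv_class l hl (s9_S D W) (s9_B D W)
    (by
      rintro z ⟨T, hT, rfl⟩
      refine ⟨s9_coc_dN T, fun σ => ?_, fun w => s9_loc_dN T⟩
      have h1 := hW.stab (res σ) T hT
      have h2 : ptE ((res σ : L ≃ₐ[KK] L) : L →+* L) (gN (res σ) (jK D)) T = ptE (σ : L →+* L) (gal_comm σ (algebraMap KK N (jK D))) T :=
        JD.ptE_congr (by ext x; rfl) _ _ T
      rw [h2] at h1
      exact W.sub_mem h1 hT)
    (fun g z => ac g z) (fun g z z' => ac_add g z z') (fun g h z => ac_mul g h z) (fun z => ac_one z)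
    (by
      rintro z ⟨-, hz, -⟩
      refine ⟨0, W.zero_mem, ?_⟩
      rw [s9_dN_zero]
      funext σ
      exact hW.kill _ (hz σ))
    (by
      rintro g z ⟨hz1, hz2, hz3⟩
      exact ⟨ac_coc g hz1, fun σ => hW.stab g _ (hz2 _), fun w => ac_loc g hz3 w⟩)
    (by
      rintro g z ⟨T, hT, rfl⟩
      exact ⟨_, hW.stab g T hT, ac_dN g T⟩)
    f.ker n hG
    (by
      rintro g hg z ⟨hz1, hz2, hz3⟩
      obtain ⟨σ, rfl⟩ := hres g hg
      exact ⟨z σ, hz2 σ, ac_inner hz1 σ⟩)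
    (z₀ := c) ⟨hc, hcW, hloc⟩ hcon
  obtain ⟨c', hc1, hc2, hc3⟩ := ext_coc hW hz1 hz2 hz
  obtain ⟨T, hT1, hT2⟩ := kstep c' hc1 hc2 (locC_of hN hz3 hc3)
  exact hzB ⟨tr KK N T, hT1, cob_res hc3 hT2⟩

end CXS
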