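import Pool.Agent.CXS.Defs
import Pool.Agent.JT.T1
import Pool.Agent.JD.N4

/-!
# [CXS-T1] roots and torsion over `N`

PROOF. `no_root`: `l = 2`: if `x ^ 3 = d` with `x : N` then `X ^ 3 - C d` is irreducible over `K` (degree `3` without root: `Polynomial.irreducible_of_degree_le_three_of_not_isRoot` or `X_pow_sub_C_irreducible_iff..`), it is the minimal polynomial of `x`, so `3 = finrank K K⟮x⟯ ∣ finrank K N = 2 ^ n`, a contradiction. `l = 3`: `X ^ 2 - C d` and `2 ∣ 3 ^ n`.
`exists_W2`: `W` = kernel of multiplication by `2` (`JT.twoE_iff`); `kill`: by definition; `stab`: `JD.ptE_nsmul`; `fix`: `P = (x, 0)`, `x ^ 3 = - d`, `x` fixed by `Gal(L/N)`, so `x` is in the image of `N` (`InfiniteGalois.mem_range_algebraMap_iff_fixed`, as in `JD.exists_pt` in JD/N4.lean), `(-x) ^ 3 = d`, a contradiction.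
`exists_W3`: `W` = kernel of `phiE` (`JD.phiE_add`, `JD.phiE_eq_zero`); `kill`: `JD.kerE_of_phi`-type lemma (JD/N2.lean: `3 • P = 0` for `KerE P`); `stab`: `JD.kerE_ptE`; `fix`: `P = (0, y)`, `y ^ 2 = d`, `y` fixed, so in `N`, a contradiction.
-/

set_option autoImplicit false

open NumberField IsDedekindDomain
open scoped Classical

namespace CXS

open JD (ED ptE Coc LocTriv KerE)
open JT (TwoE)
open CUD (gal_comm alg_comm tau_comm am_ne am_o)

theorem no_root {K N : Type} [Field K] [CharZero K] [Field N] [Algebra K N] [FiniteDimensional K N] {l n : ℕ} (hl : l = 2 ∨ l = 3)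
    (hdeg : Module.finrank K N = l ^ n) {d : K} (h : ∀ x : K, x ^ (5 - l) ≠ d) (x : N) : x ^ (5 - l) ≠ algebraMap K N d := by
  intro hx
  have hl' : l.Prime := by
    rcases hl with rfl | rfl
    · exact Nat.prime_two
    · exact Nat.prime_three
  have hq : (5 - l).Prime := by
    rcases hl with rfl | rfl
    · exact Nat.prime_three
    · exact Nat.prime_two
  have hne : 5 - l ≠ l := by
    rcases hl with rfl | rfl <;> norm_num
  have hirr : Irreducible (Polynomial.X ^ (5 - l) - Polynomial.C d) := X_pow_sub_C_irreducible_of_prime hq h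
  have hmon : (Polynomial.X ^ (5 - l) - Polynomial.C d).Monic := Polynomial.monic_X_pow_sub_C d hq.ne_zero
  have hroot : Polynomial.aeval x (Polynomial.X ^ (5 - l) - Polynomial.C d) = 0 := by
    rw [map_sub, map_pow, Polynomial.aeval_X, Polynomial.aeval_C, hx, sub_self]
  have hmin := minpoly.eq_of_irreducible_of_monic hirr hroot hmon
  have h1 := minpoly.degree_dvd (K := K) (L := N) (x := x) (IsIntegral.of_finite K x)
  rw [← hmin, Polynomial.natDegree_X_pow_sub_C, hdeg] at h1
  exact hne ((Nat.prime_dvd_prime_iff_eq hq hl').1 (hq.dvd_of_dvd_pow h1))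

variable {K N L : Type} [Field K] [CharZero K] [Field N] [CharZero N] [Field L] [Algebra K N] [Algebra N L] [Algebra K L] [IsScalarTower K N L]
  [IsAlgClosure N L] {d o : K}

/-- an element fixed by all automorphisms comes from `N` -/
theorem T1_fix {N L : Type} [Field N] [CharZero N] [Field L] [Algebra N L] [IsAlgClosure N L] {x : L}
    (h : ∀ σ : L ≃ₐ[N] L, σ x = x) : ∃ y : N, algebraMap N L y = x := by
  have hL : IsAlgClosed L := IsAlgClosure.isAlgClosed N
  have halg : Algebra.IsAlgebraic N L := IsAlgClosure.isAlgebraic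
  have hnor : Normal N L := IsAlgClosure.normal N L
  have hgal : IsGalois N L := ⟨⟩
  exact (InfiniteGalois.mem_range_algebraMap_iff_fixed (k := N) (K := L) x).2 h

theorem exists_W2 (hd : d ≠ 0) (hnc : ∀ x : N, x ^ 3 ≠ algebraMap K N d) :
    ∃ W : AddSubgroup (ED (algebraMap N L (algebraMap K N d))).toAffine.Point, (∀ P, P ∈ W ↔ TwoE P) ∧ Adm 2 K N W := by
  have hCL : CharZero L := charZero_of_injective_algebraMap (algebraMap N L).injective
  have hd' : algebraMap N L (algebraMap K N d) ≠ 0 := am_ne (am_ne hd)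
  let W : AddSubgroup (ED (algebraMap N L (algebraMap K N d))).toAffine.Point :=
    { carrier := {P | 2 • P = 0}
      zero_mem' := smul_zero 2
      add_mem' := fun {P Q} hP hQ => by
        show 2 • (P + Q) = 0
        rw [smul_add, hP, hQ, add_zero]
      neg_mem' := fun {P} hP => by
        show 2 • (-P) = 0
        rw [smul_neg, hP, neg_zero] }
  have hW : ∀ P, P ∈ W ↔ 2 • P = 0 := fun _ => Iff.rfl
  refine ⟨W, fun P => ?_, ?_, ?_, ?_⟩
  · rw [hW, JT.twoE_iff]
  · intro P hP
    exact hP
  · intro g P hP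
    rw [hW] at hP ⊢
    rw [← JD.ptE_nsmul, hP]
    rfl
  · intro P hP hfix
    have h2 : TwoE P := (JT.twoE_iff P).2 hP
    cases P with
    | zero => rfl
    | some x y hxy =>
      exfalso
      have hy : y = 0 := h2
      have heq : y ^ 2 = x ^ 3 + algebraMap N L (algebraMap K N d) := (JD.ED_equation _ x y).1 hxy.1
      have hx : ∀ σ : L ≃ₐ[N] L, σ x = x := by
        intro σ
        have h3 := hfix σ
        simp only [ptE] at h3
        rw [WeierstrassCurve.Affine.Point.some.injEq] at h3
        exact h3.1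
      obtain ⟨x0, rfl⟩ := T1_fix hx
      apply hnc (-x0)
      apply (algebraMap N L).injective
      rw [map_pow, map_neg]
      rw [hy] at heq
      linear_combination heq

theorem exists_W3 (hd : d ≠ 0) (ho : o ^ 2 + o + 1 = 0) (hnc : ∀ x : N, x ^ 2 ≠ algebraMap K N d) :
    ∃ W : AddSubgroup (ED (algebraMap N L (algebraMap K N d))).toAffine.Point, (∀ P, P ∈ W ↔ KerE P) ∧ Adm 3 K N W := by
  have hCL : CharZero L := charZero_of_injective_algebraMap (algebraMap N L).injective
  have hd' : algebraMap N L (algebraMap K N d) ≠ 0 := am_ne (am_ne hd)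
  have ho' : algebraMap K L o ^ 2 + algebraMap K L o + 1 = 0 := by
    rw [← map_pow, ← map_add, ← map_one (algebraMap K L), ← map_add, ho, map_zero]
  let W : AddSubgroup (ED (algebraMap N L (algebraMap K N d))).toAffine.Point :=
    { carrier := {P | JD.phiE ho' P = 0}
      zero_mem' := JD.phiE_zero ho'
      add_mem' := fun {P Q} hP hQ => by
        show JD.phiE ho' (P + Q) = 0
        rw [JD.phiE_add, hP, hQ, add_zero]
      neg_mem' := fun {P} hP => by
        show JD.phiE ho' (-P) = 0
        have h1 := JD.phiE_add ho' P (-P)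
        rw [add_neg_cancel, JD.phiE_zero, hP, zero_add] at h1
        exact h1.symm }
  have hW : ∀ P, P ∈ W ↔ KerE P := fun P => JD.phiE_eq_zero hd' ho' P
  refine ⟨W, hW, ?_, ?_, ?_⟩
  · intro P hP
    exact JD.kerE_of_phi hd' ho' ((hW P).1 hP)
  · intro g P hP
    rw [hW] at hP ⊢
    exact (JD.kerE_ptE _ _ P).2 hP
  · intro P hP hfix
    have h2 : KerE P := (hW P).1 hP
    cases P with
    | zero => rfl
    | some x y hxy =>
      exfalso
      have hx0 : x = 0 := h2
      have heq : y ^ 2 = x ^ 3 + algebraMap N L (algebraMap K N d) := (JD.ED_equation _ x y).1 hxy.1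
      have hy : ∀ σ : L ≃ₐ[N] L, σ y = y := by
        intro σ
        have h3 := hfix σ
        simp only [ptE] at h3
        rw [WeierstrassCurve.Affine.Point.some.injEq] at h3
        exact h3.2
      obtain ⟨y0, rfl⟩ := T1_fix hy
      apply hnc y0
      apply (algebraMap N L).injective
      rw [map_pow]
      rw [hx0] at heq
      linear_combination heq

end CXS
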