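import Pool.Agent.CXS.Defs
import Pool.Agent.JT.N1
import Pool.Agent.JT.N2
import Pool.Agent.JT.Z0

/-!
# [CXS-U1] `l = 2`: the local conditions and the step over `KK`

PROOF. `loc2`: (1) `φ` surjective, hence bijective: transport `LocA` along the inverse ring isomorphism `C ≃ v.adicCompletion KK` (`JT.mp_mu`, `SqA`, `LocA` under a ring homomorphism `ψ` with `ψ (algebraMap KK C x) = algebraMap KK _ x`).
(2) `v.valuation KK 2 = 1` and `D` has no cube root in the completion: `Or.inl (JT.ns_sq ..)` exactly as in `JT.loc_of_ev` (JT/Z0.lean). (3) `v.valuation KK 2 = 1`, `val (φ x) = Valued.v x`, `D = ρ ^ 3` in the completion: `JT.good_at hD v _ hρ` gives `c ≠ 0` with `Valued.v ((1 - o) * ρ) = Valued.v c ^ 2`, so the same for `val`, `φ ρ`, `φ c` in `C`;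
`JT.sp_dir val` in `C` (for `φ o`, `φ ρ`, `φ c`) gives even values `val (ev u (φ ρ'))`, `ρ' ^ 3 = D` in the completion, so even `Valued.v (ev u ρ')`; `JT.sp_conv` (as in `JT.loc_of_ev`).
`kstep2`: `JT.kummer3` over `KK` gives `u, n, t` (`hnc : ∀ x : KK, x ^ 3 ≠ jK D` from `Cl2 D`: see how JT/Z0.lean or JT/FT.lean gets it, e.g. `JT.not_cube`-type lemma); for each `v` the data of `hloc v`, `JT.loc_of_cob` with `Fv = C`, `Lv = M`, `ι`, `Q` gives `LocA` over `C`, `loc2` gives it over the completion; `hsel` gives `SqA`; `JT.cob_of_sq`.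
Compare `JT.step2` (JT/N3.lean).
-/

set_option autoImplicit false

open NumberField IsDedekindDomain
open scoped Classical

namespace CXS

open CM27 CF
open JD (ED ptE Coc LocTriv Below jK)
open JT (TwoE LocA SqA mp nm ev Cl2 Sel0)
open CUD (gal_comm alg_comm tau_comm am_ne am_o)

theorem u1_sqA {A B : Type} [Field A] [Field B] (ψ : A →+* B) {d : A} {u : A × A × A} (h : SqA d u) : SqA (ψ d) (mp ψ u) := by
  obtain ⟨g, hg⟩ := h
  exact ⟨mp ψ g, by rw [hg, JT.mp_mu]⟩

theorem u1_locA {A B : Type} [Field A] [Field B] (ψ : A →+* B) {d : A} {u : A × A × A} (h : LocA d u) : LocA (ψ d) (mp ψ u) := by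
  rcases h with h | ⟨x, y, hxy, h⟩
  · exact Or.inl (u1_sqA ψ h)
  · refine Or.inr ⟨ψ x, ψ y, by rw [← map_pow, hxy, map_add, map_pow], ?_⟩
    have h1 := u1_sqA ψ h
    rw [JT.mp_mu] at h1
    have h2 : mp ψ ((x, 1, 0) : A × A × A) = (ψ x, 1, 0) := by
      simp only [mp, map_one, map_zero]
    rw [h2] at h1
    exact h1

theorem u1_ns {D : Eis} {v : HeightOneSpectrum (𝓞 KK)} {u : KK × KK × KK}
    (hu : nm (jK D) u ≠ 0) (hs : IsSquare (nm (jK D) u)) (h2 : v.valuation KK 2 = 1)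
    (hnc : ∀ x : v.adicCompletion KK, x ^ 3 ≠ algebraMap KK (v.adicCompletion KK) (jK D)) :
    LocA (algebraMap KK (v.adicCompletion KK) (jK D)) (mp (algebraMap KK (v.adicCompletion KK)) u) := by
  obtain ⟨hu', hs'⟩ := JT.z0b_nm D hu hs v
  exact Or.inl (JT.ns_sq h2 (JT.z0b_o v) hnc hu' hs')

theorem loc2 {D : Eis} (hD : Cl2 D) {v : HeightOneSpectrum (𝓞 KK)} {C : Type} [Field C] [Algebra KK C] {φ : v.adicCompletion KK →+* C}
    (hφ : ∀ x : KK, φ (algebraMap KK (v.adicCompletion KK) x) = algebraMap KK C x) (hok : Ok 2 D v φ) {u : KK × KK × KK}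
    (hu : nm (jK D) u ≠ 0) (hs : IsSquare (nm (jK D) u)) (h : LocA (algebraMap KK C (jK D)) (mp (algebraMap KK C) u)) :
    LocA (algebraMap KK (v.adicCompletion KK) (jK D)) (mp (algebraMap KK (v.adicCompletion KK)) u) := by
  rcases hok with hsur | ⟨h2, hok⟩
  · have hbij : Function.Bijective φ := ⟨φ.injective, hsur⟩
    obtain ⟨ψ, hψ'⟩ : ∃ ψ : C →+* v.adicCompletion KK, ∀ x, ψ (φ x) = x :=
      ⟨((RingEquiv.ofBijective φ hbij).symm : C →+* v.adicCompletion KK), fun x =>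
        (RingEquiv.ofBijective φ hbij).symm_apply_apply x⟩
    have hψ : ∀ x : KK, ψ (algebraMap KK C x) = algebraMap KK (v.adicCompletion KK) x := fun x => by
      rw [← hφ x, hψ']
    have h1 := u1_locA ψ h
    have h2 : mp ψ (mp (algebraMap KK C) u) = mp (algebraMap KK (v.adicCompletion KK)) u := by
      simp only [mp]
      rw [hψ, hψ, hψ]
    rw [hψ, h2] at h1
    exact h1
  · have h2' : v.valuation KK 2 = 1 := by
      rw [← h2, Nat.cast_ofNat]
    rcases hok with hnc | ⟨val, hval⟩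
    · exact u1_ns hu hs h2' hnc
    · have hD0 := JT.cl2_ne hD
      obtain ⟨hu', hs'⟩ := JT.z0b_nm D hu hs v
      have hd0 : algebraMap KK (v.adicCompletion KK) (jK D) ≠ 0 := by
        refine (map_ne_zero _).2 fun h => hD0 (JD.jK_inj (h.trans (map_zero jK).symm))
      by_cases hc : ∃ ρ : v.adicCompletion KK, ρ ^ 3 = algebraMap KK (v.adicCompletion KK) (jK D)
      · obtain ⟨ρ, hρ⟩ := hc
        obtain ⟨c, hc0, hc⟩ := JT.good_at hD v (JT.z0b_o v) hρ
        refine JT.sp_conv v h2' (JT.z0b_o v) hd0 hρ hc0 hc hu' hs' fun ρ' hρ' => ?_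
        have ho : φ (algebraMap KK (v.adicCompletion KK) (jK CU.om)) ^ 2 +
            φ (algebraMap KK (v.adicCompletion KK) (jK CU.om)) + 1 = 0 := by
          rw [← map_pow, ← map_one φ, ← map_add, ← map_add, JT.z0b_o v, map_zero]
        have hρC : ∀ r : v.adicCompletion KK, r ^ 3 = algebraMap KK (v.adicCompletion KK) (jK D) →
            (φ r) ^ 3 = algebraMap KK C (jK D) := fun r hr => by rw [← map_pow, hr, hφ]
        have hcC : val ((1 - φ (algebraMap KK (v.adicCompletion KK) (jK CU.om))) * φ ρ) = val (φ c) ^ 2 := by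
          rw [← map_one φ, ← map_sub, ← map_mul, hval, hval, hc]
        have huC : nm (algebraMap KK C (jK D)) (mp (algebraMap KK C) u) ≠ 0 := by
          rw [JT.mp_nm]
          exact (map_ne_zero _).2 hu
        have hsC : IsSquare (nm (algebraMap KK C (jK D)) (mp (algebraMap KK C) u)) := by
          rw [JT.mp_nm]
          exact hs.map (algebraMap KK C)
        obtain ⟨g, hg⟩ := JT.sp_dir val ho (hρC ρ hρ) ((map_ne_zero φ).2 hc0) hcC huC hsC h (φ ρ') (hρC ρ' hρ')
        refine ⟨g, ?_⟩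
        rw [← hg, ← hval]
        simp only [JT.ev, mp, map_add, map_mul, map_pow, hφ]
      · push Not at hc
        exact u1_ns hu hs h2' hc

theorem kstep2 {D : Eis} (hD : Cl2 D) (hsel : Sel0 KK (jK D)) {L : Type} [Field L] [Algebra KK L] [IsAlgClosure KK L]
    {c : (L ≃ₐ[KK] L) → (ED (algebraMap KK L (jK D))).toAffine.Point} (hc : Coc KK L (jK D) c) (hT : ∀ σ, TwoE (c σ)) (hloc : LocC 2 D c) :
    ∃ T : (ED (algebraMap KK L (jK D))).toAffine.Point, TwoE T ∧ ∀ σ, c σ = ptE (σ : L →+* L) (gal_comm σ (jK D)) T - T := by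
  have hD0 := JT.cl2_ne hD
  have hd : jK D ≠ 0 := fun h => hD0 (JD.jK_inj (h.trans (map_zero jK).symm))
  have ho : (jK CU.om) ^ 2 + jK CU.om + 1 = 0 := by
    rw [← map_pow, ← map_one jK, ← map_add, ← map_add, show CU.om ^ 2 + CU.om + 1 = 0 by decide, map_zero]
  obtain ⟨u, n, t, ht, hk⟩ := JT.kummer3 hd ho (JT.not_cube hD.ncube) c hc hT
  have hn : nm (jK D) u ≠ 0 := by
    rw [ht.nm]
    exact pow_ne_zero 2 ht.n0
  have hs : IsSquare (nm (jK D) u) := ⟨n, by rw [ht.nm, sq]⟩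
  refine JT.cob_of_sq hd ho hT ht hk (hsel u hn hs fun v => ?_)
  obtain ⟨C, M, iC, iM, iKC, iCM, iKM, iT, iCl, φ, ι, hφ, ⟨Q, hQ⟩, hok⟩ := hloc v
  exact loc2 hD hφ hok hn hs (JT.loc_of_cob hd ho hT ht hk C M ι Q hQ)

end CXS
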