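import Pool.Agent.CXS.S9
import Pool.Agent.CXS.T1
import Pool.Agent.CXS.U1
import Pool.Agent.JT.N3
import Pool.Agent.JT.X2
import Pool.Agent.JT.M1

/-!
# [CXS-U2] `l = 2`: from `KK` to `N`

PROOF. `L = AlgebraicClosure N` with the instances `Algebra KK L`, `IsScalarTower KK N L` (Mathlib instances for `AlgebraicClosure`), `IsAlgClosure KK L` (`N / KK` is algebraic). `d = algebraMap KK N (jK D)`.
(1) `hsel : Sel0 KK (jK D)` from `h` (`JT.sel0_of_fin`). (2) `hnc : ∀ x : N, x ^ 3 ≠ d` from `no_root` (T1, `l = 2`, `5 - 2 = 3`; over `KK` from `Cl2 D`). (3) `exists_W2` gives `W`. (4) `stepN` (S9) with `kstep` from `kstep2` (`TwoE (tr ..) ↔ TwoE ..`: `JT.twoE_ptE`) gives: every `TwoE`-valued cocycle over `N`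
which is locally trivial is `dN T` with `TwoE T`. So `JT.Step2 N d`. (5) `Sha`: as in the proof of `JT.sha_pow2` (JT/N3.lean) for `k = 1`, with `JT.n3_gen`. (6) divisibility: `P ∈ E(N)`, `JT.two_surjE` gives `Q` over `L` with `2 • Q = ptE (algebraMap N L) P`; `c = dN Q` is a `TwoE`-valued cocycle, locally trivial (`Q`), so `c = dN T`, `Q - T` is fixed by `Gal(L/N)`, it is the image of a
point `Q₀` over `N` (`JT.m1a_desc` in JT/M1.lean), `2 • Q₀ = P`. (7) `JT.fin_of_two` for `F = N`, `F' = N(∛d)` (a number field: `IntermediateField.adjoin N {ρ}` in `L`, finite over `N`; `NumberField` instance from finiteness over `ℚ`), `d` integral (`JD.int_jF`-type lemma or `jK D` is the value of an element of `𝓞 KK`).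
`Fin`: `(ED (jK D)).map` or `ED (algebraMap KK N (jK D))`: the statement is for the latter.
-/

set_option autoImplicit false

open NumberField IsDedekindDomain
open scoped Classical

namespace CXS

open CM27 CF
open JD (ED ptE Coc LocTriv Below jK)
open JT (TwoE LocA SqA mp nm ev Cl2 Sel0)
open CUD (gal_comm alg_comm tau_comm am_ne am_o)

theorem u2_field {F : Type} [Field F] [NumberField F] {m : ℕ} (hm : 0 < m) (d : F) :
    ∃ (F' : Type) (_ : Field F') (_ : NumberField F') (_ : Algebra F F') (ρ : F'), ρ ^ m = algebraMap F F' d := by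
  obtain ⟨ρ, hρ⟩ := IsAlgClosed.exists_pow_nat_eq (algebraMap F (AlgebraicClosure F) d) hm
  have hfin : FiniteDimensional F (IntermediateField.adjoin F {ρ}) :=
    IntermediateField.adjoin.finiteDimensional (Algebra.IsIntegral.isIntegral ρ)
  have hnf : NumberField (IntermediateField.adjoin F {ρ}) := NumberField.of_module_finite F _
  refine ⟨IntermediateField.adjoin F {ρ}, inferInstance, hnf, inferInstance,
    ⟨ρ, IntermediateField.mem_adjoin_simple_self F ρ⟩, ?_⟩
  apply Subtype.ext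
  exact hρ

theorem u2_cob {F : Type} [Field F] [NumberField F] {d : F} (Q : (ED (algebraMap F (AlgebraicClosure F) d)).toAffine.Point) :
    Coc F (AlgebraicClosure F) d (fun σ => ptE (σ : AlgebraicClosure F →+* AlgebraicClosure F) (gal_comm σ d) Q - Q) ∧
      ∀ v : HeightOneSpectrum (𝓞 F), LocTriv (fun σ : AlgebraicClosure F ≃ₐ[F] AlgebraicClosure F =>
        ptE (σ : AlgebraicClosure F →+* AlgebraicClosure F) (gal_comm σ d) Q - Q)
          (v.adicCompletion F) (AlgebraicClosure (v.adicCompletion F)) := by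
  refine ⟨⟨(JD.n1_loc_ptE (F := F) Q).sub (IsLocallyConstant.const Q), fun σ τ => ?_⟩, fun v ι => ?_⟩
  · rw [JD.n1_comp, JD.ptE_sub]
    abel
  · refine ⟨ptE (ι : AlgebraicClosure F →+* AlgebraicClosure (v.adicCompletion F)) (alg_comm ι d) Q, fun τ σ hστ => ?_⟩
    have h7 : (ι : AlgebraicClosure F →+* AlgebraicClosure (v.adicCompletion F)).comp
        (σ : AlgebraicClosure F →+* AlgebraicClosure F) =
        (τ : AlgebraicClosure (v.adicCompletion F) →+* AlgebraicClosure (v.adicCompletion F)).comp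
          (ι : AlgebraicClosure F →+* AlgebraicClosure (v.adicCompletion F)) := by
      ext x
      exact hστ x
    have h8 : ptE (ι : AlgebraicClosure F →+* AlgebraicClosure (v.adicCompletion F)) (alg_comm ι d)
        (ptE (σ : AlgebraicClosure F →+* AlgebraicClosure F) (gal_comm σ d) Q) =
        ptE (τ : AlgebraicClosure (v.adicCompletion F) →+* AlgebraicClosure (v.adicCompletion F))
          (tau_comm F (v.adicCompletion F) (AlgebraicClosure (v.adicCompletion F)) τ d)
          (ptE (ι : AlgebraicClosure F →+* AlgebraicClosure (v.adicCompletion F)) (alg_comm ι d) Q) := by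
      rw [JD.ptE_comp, JD.ptE_comp]
      exact JD.ptE_congr h7 _ _ Q
    change ptE (ι : AlgebraicClosure F →+* AlgebraicClosure (v.adicCompletion F)) (alg_comm ι d)
      (ptE (σ : AlgebraicClosure F →+* AlgebraicClosure F) (gal_comm σ d) Q - Q) = _
    rw [JD.ptE_sub, h8]

/-- the Selmer condition over `F` gives `Fin 2` -/
theorem u2_fin {F : Type} [Field F] [NumberField F] {d o : F} (hd : d ≠ 0) (hdi : IsIntegral ℤ d) (ho : o ^ 2 + o + 1 = 0)
    (hnc : ∀ x : F, x ^ 3 ≠ d)
    (hstep : ∀ c : (AlgebraicClosure F ≃ₐ[F] AlgebraicClosure F) → (ED (algebraMap F (AlgebraicClosure F) d)).toAffine.Point,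
      Coc F (AlgebraicClosure F) d c → (∀ σ, TwoE (c σ)) →
      (∀ v : HeightOneSpectrum (𝓞 F), LocTriv c (v.adicCompletion F) (AlgebraicClosure (v.adicCompletion F))) →
      ∃ T : (ED (algebraMap F (AlgebraicClosure F) d)).toAffine.Point, TwoE T ∧
        ∀ σ, c σ = ptE (σ : AlgebraicClosure F →+* AlgebraicClosure F) (gal_comm σ d) T - T) : Fin 2 (ED d) := by
  have hdiv : ∀ P : (ED d).toAffine.Point, ∃ Q : (ED d).toAffine.Point, 2 • Q = P := by
    intro P
    obtain ⟨Q, hQ⟩ := JT.two_surjE (am_ne (L := AlgebraicClosure F) hd) (ptE (algebraMap F (AlgebraicClosure F)) rfl P)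
    have hg : ∀ σ : AlgebraicClosure F ≃ₐ[F] AlgebraicClosure F,
        ptE (σ : AlgebraicClosure F →+* AlgebraicClosure F) (gal_comm σ d) (ptE (algebraMap F (AlgebraicClosure F)) rfl P) =
          ptE (algebraMap F (AlgebraicClosure F)) rfl P := by
      intro σ
      rw [JD.ptE_comp]
      exact JD.ptE_congr (RingHom.ext σ.commutes) _ _ P
    obtain ⟨hc, hl⟩ := u2_cob Q
    obtain ⟨T, hT, h⟩ := hstep _ hc (fun σ => by
      rw [JT.twoE_iff, nsmul_sub, ← JD.ptE_nsmul, hQ, hg, sub_self]) hl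
    obtain ⟨Q₀, hQ₀⟩ := JT.m1a_desc hd (Q - T) (fun σ => by
      rw [JD.ptE_sub]
      have h1 := h σ
      rw [sub_eq_sub_iff_sub_eq_sub] at h1
      exact h1)
    refine ⟨Q₀, JD.ptE_injective (algebraMap F (AlgebraicClosure F)) rfl ?_⟩
    rw [JD.ptE_nsmul, hQ₀, nsmul_sub, hQ, (JT.twoE_iff T).1 hT, sub_zero]
  obtain ⟨F', iF, iNF, iA, ρ, hρ⟩ := u2_field (m := 3) (by norm_num) d
  refine ⟨(JT.fin_of_two hd hdi ho hnc hρ hdiv).1, fun x hx => ?_⟩
  obtain ⟨c, rfl⟩ := QuotientAddGroup.mk_surjective x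
  obtain ⟨hc1, hc2, -⟩ := c.2
  have h2 : 2 • c ∈ (SBSD.coboundaries (ED d)).addSubgroupOf (SBSD.locTrivial (ED d)) := by
    rw [← QuotientAddGroup.eq_zero_iff]
    exact hx
  obtain ⟨P, hP⟩ := AddSubgroup.mem_addSubgroupOf.1 h2
  exact (QuotientAddGroup.eq_zero_iff _).2 (AddSubgroup.mem_addSubgroupOf.2
    (JT.n3_gen hd (fun c hc hT hl => (hstep c hc hT hl).imp fun _ h => h.2) c.1 hc1 hc2 ⟨P, fun σ => hP σ⟩))

/-- [CXS-U2] -/
theorem fin_up2 {n : ℕ} {D : Eis} (hD : Cl2 D) {N : Type} [Field N] [NumberField N] [Algebra KK N] [IsGalois KK N]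
    (hdeg : Module.finrank KK N = 2 ^ n) (hN : HN 2 D N) (h : Fin 2 (ED (jK D))) : Fin 2 (ED (algebraMap KK N (jK D))) := by
  have hd : jK D ≠ 0 := fun h => JT.cl2_ne hD (JD.jK_inj (h.trans (map_zero jK).symm))
  have ho : (jK CU.om) ^ 2 + jK CU.om + 1 = 0 := by
    rw [← map_pow, ← map_one jK, ← map_add, ← map_add, show CU.om ^ 2 + CU.om + 1 = 0 by decide, map_zero]
  have hfd : FiniteDimensional KK N := FiniteDimensional.of_finrank_pos (by
    rw [hdeg]
    positivity)
  have hsel : Sel0 KK (jK D) := JT.sel0_of_fin hd ho (JT.not_cube hD.ncube) h.1 h.2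
  have hnc : ∀ x : N, x ^ 3 ≠ algebraMap KK N (jK D) := no_root (l := 2) (Or.inl rfl) hdeg (JT.not_cube hD.ncube)
  have hint : IsIntegral ℤ (algebraMap KK N (jK D)) :=
    (RingOfIntegers.isIntegral_coe (CU.eE D)).map ((algebraMap KK N).toIntAlgHom)
  have hcl : IsAlgClosure KK (AlgebraicClosure N) := ⟨inferInstance, Algebra.IsAlgebraic.trans KK N (AlgebraicClosure N)⟩
  obtain ⟨W, hW, hA⟩ := exists_W2 (K := KK) (N := N) (L := AlgebraicClosure N) hd hnc
  refine u2_fin (am_ne hd) hint (am_o ho) hnc fun c hc hT hl => ?_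
  obtain ⟨T, hTW, h1⟩ := stepN Nat.prime_two hdeg hN hA (fun c' hc' hT' hl' => by
    obtain ⟨T, hT, h2⟩ := kstep2 hD hsel hc' (fun σ => (JT.twoE_ptE _ _ _).1 ((hW _).1 (hT' σ))) hl'
    exact ⟨T, (hW _).2 ((JT.twoE_ptE _ _ _).2 hT), h2⟩) hc (fun σ => (hW _).2 (hT σ)) hl
  exact ⟨T, (hW _).1 hTW, fun σ => congrFun h1 σ⟩

end CXS
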