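import Pool.Agent.CXS.Defs
import Pool.Agent.JD.M2
import Pool.Agent.JT.M1

/-!
# [CXS-V1] finiteness from the surjectivity of `phiE`, over any number field

PROOF. Copy of the private lemmas `M2b_abs`, `M2b_ht`, `M2b_lt`, `M2b_core` of JD/M2.lean with `JD.M2a_gen` (public, generic: `K := F`, `F := F'`) instead of `exists_H`. The place `v` of `F'` over `3`: `HeightOneSpectrum` with `v.valuation F' 3 < 1`: as `JT.m1b_place` (JT/M1.lean) with `3` instead of `2`. `v.valuation F' (2 * r) ≤ 1`: `r` is integral (`r ^ 2` integral).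
The kernel: `phiE ho P = 0` implies `P = 0` by `hnc` (`JD.phiE_eq_zero`).
-/

set_option autoImplicit false

open NumberField IsDedekindDomain
open scoped Classical

namespace CXS

open JD (ED ptE phiE KerE)

theorem V1_place (F : Type) [Field F] [NumberField F] : ∃ v : HeightOneSpectrum (𝓞 F), v.valuation F 3 < 1 := by
  have h2 : ¬ IsUnit (3 : 𝓞 F) := by
    intro hu
    have h1 : IsUnit (Algebra.norm ℤ (3 : 𝓞 F)) := hu.map _
    have h3 : Algebra.norm ℤ (3 : 𝓞 F) = 3 ^ Module.finrank ℤ (𝓞 F) := by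
      have h5 := Algebra.norm_algebraMap (R := ℤ) (S := 𝓞 F) (3 : ℤ)
      rw [← h5]
      congr 1
      norm_num
    rw [h3, Int.isUnit_iff] at h1
    have h4 : 0 < Module.finrank ℤ (𝓞 F) := Module.finrank_pos
    rcases h1 with h1 | h1
    · have : (1 : ℤ) < 3 ^ Module.finrank ℤ (𝓞 F) := one_lt_pow₀ (by norm_num) h4.ne'
      omega
    · have : (0 : ℤ) < 3 ^ Module.finrank ℤ (𝓞 F) := by positivity
      omega
  obtain ⟨P, hP, hle⟩ := Ideal.exists_le_maximal (Ideal.span {(3 : 𝓞 F)})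
    (fun h => h2 (Ideal.span_singleton_eq_top.1 h))
  have h2P : (3 : 𝓞 F) ∈ P := hle (Ideal.mem_span_singleton_self _)
  have h30 : (3 : 𝓞 F) ≠ 0 := by
    intro h0
    have h1 := congrArg (algebraMap (𝓞 F) F) h0
    rw [map_ofNat, map_zero] at h1
    exact three_ne_zero h1
  refine ⟨⟨P, hP.isPrime, ?_⟩, ?_⟩
  · rintro rfl
    rw [Ideal.mem_bot] at h2P
    exact h30 h2P
  · have h5 := (HeightOneSpectrum.valuation_lt_one_iff_mem (K := F) ⟨P, hP.isPrime, by
      rintro rfl
      rw [Ideal.mem_bot] at h2P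
      exact h30 h2P⟩ (3 : 𝓞 F)).2 h2P
    have h6 : (algebraMap (𝓞 F) F) 3 = 3 := map_ofNat (algebraMap (𝓞 F) F) 3
    exact h6 ▸ h5

theorem V1_abs {A : Type} [AddCommGroup A] (f : A → A)
    (hadd : ∀ P Q, f (P + Q) = f P + f Q) (hs : ∀ P, ∃ Q, f Q = P)
    (H : AddSubgroup A) (hfin : Finite (A ⧸ H)) (ht : A → ℕ) (h1 : ∀ P ∈ H, f P ∈ H)
    (h2 : ∀ P ∈ H, P ≠ 0 → ht P < ht (f P)) : Finite A := by
  let φ : A →+ A := AddMonoidHom.mk' f hadd
  have h1 : ∀ P ∈ H, φ P ∈ H := h1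
  have h2 : ∀ P ∈ H, P ≠ 0 → ht P < ht (φ P) := h2
  have hs : ∀ P, ∃ Q, φ Q = P := hs
  have hpres : H ≤ H.comap φ := h1
  have hhalf : ∀ Q, φ Q ∈ H → Q ∈ H := by
    let ψ := QuotientAddGroup.map H H φ hpres
    have hg : Function.Surjective ψ := by
      intro q
      obtain ⟨P, rfl⟩ := QuotientAddGroup.mk_surjective q
      obtain ⟨Q, hQP⟩ := hs P
      refine ⟨(Q : A ⧸ H), ?_⟩
      change ((φ Q : A) : A ⧸ H) = (P : A ⧸ H)
      rw [hQP]
    have hinj : Function.Injective ψ := Finite.injective_iff_surjective.2 hg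
    intro Q hQH
    have h5 : ψ (Q : A ⧸ H) = ψ 0 := by
      rw [map_zero]
      exact (QuotientAddGroup.eq_zero_iff _).2 hQH
    exact (QuotientAddGroup.eq_zero_iff _).1 (hinj h5)
  have hker : ∀ n : ℕ, ∀ P ∈ H, ht P = n → P = 0 := by
    intro n
    induction n using Nat.strong_induction_on with
    | _ n ih =>
      intro P hP hn
      obtain ⟨Q, rfl⟩ := hs P
      have hQ1 : Q ∈ H := hhalf Q hP
      by_cases hQ0 : Q = 0
      · rw [hQ0, map_zero]
      · have h3 := h2 Q hQ1 hQ0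
        exact absurd (ih (ht Q) (by omega) Q hQ1 rfl) hQ0
  refine Finite.of_injective (fun P : A => (P : A ⧸ H)) fun P Q hPQ => ?_
  have h5 : -P + Q ∈ H := QuotientAddGroup.eq.1 hPQ
  have h6 := hker _ _ h5 rfl
  have h7 : Q = P + (-P + Q) := by abel
  rw [h7, h6, add_zero]

/-- the logarithm of `w x(P)` -/
noncomputable def V1_ht {K : Type} [Field K]
    (w : Valuation K (WithZero (Multiplicative ℤ))) {d : K} : (ED d).toAffine.Point → ℕ
  | .zero => 0
  | .some x _ _ => (WithZero.log (w x)).toNat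

theorem V1_lt {K : Type} [Field K]
    (w : Valuation K (WithZero (Multiplicative ℤ))) {x x' : K} (h3 : w 3 < 1) (hx : 1 < w x)
    (h : w x' * w 3 = w x) : 1 < w x' ∧ (WithZero.log (w x)).toNat < (WithZero.log (w x')).toNat := by
  have h8 : w x < w x' := by
    have h0 : w x' ≠ 0 := by
      intro h0
      rw [h0, zero_mul] at h
      rw [← h] at hx
      exact absurd hx (not_lt.2 zero_le)
    rw [← h]
    calc w x' * w 3 < w x' * 1 := mul_lt_mul_of_pos_left h3 (zero_lt_iff.mpr h0)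
      _ = w x' := mul_one _
  have hx' := hx.trans h8
  refine ⟨hx', ?_⟩
  obtain ⟨n, hn⟩ := CUD.c10c_exp w hx
  obtain ⟨n', hn'⟩ := CUD.c10c_exp w hx'
  rw [hn, hn', WithZero.exp_lt_exp] at h8
  rw [hn, hn', WithZero.log_exp, WithZero.log_exp]
  omega

theorem V1_core {K : Type} [Field K] [CharZero K] [inst : DecidableEq K] {d o : K}
    (ho : o ^ 2 + o + 1 = 0) (w : Valuation K (WithZero (Multiplicative ℤ)))
    (H : AddSubgroup (ED d).toAffine.Point) (h3 : w 3 < 1) (hH : ∀ P, P ∈ H ↔ JD.InKE w P)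
    (hfin : Finite ((ED d).toAffine.Point ⧸ H))
    (hraise : ∀ (x y : K) (h : (ED d).toAffine.Nonsingular x y), 1 < w x →
        ∃ (x' y' : K) (h' : (ED d).toAffine.Nonsingular x' y'),
          phiE ho (.some x y h) = .some x' y' h' ∧ w x' * w 3 = w x)
    (h : ∀ P : (ED d).toAffine.Point, ∃ Q, phiE ho Q = P) :
    Finite (ED d).toAffine.Point := by
  obtain rfl : inst = fun a b => Classical.propDecidable (a = b) := Subsingleton.elim _ _
  refine V1_abs (phiE ho) (JD.phiE_add ho) h H hfin (V1_ht w) ?_ ?_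
  · intro P hP
    rcases P with _ | ⟨x, y, k⟩
    · have : phiE ho (.zero : (ED d).toAffine.Point) = 0 := JD.phiE_zero ho
      rw [this]
      exact H.zero_mem
    · have hx : 1 < w x := (hH _).1 hP
      obtain ⟨x', y', h', h5, h6⟩ := hraise x y k hx
      rw [h5, hH]
      exact (V1_lt w h3 hx h6).1
  · intro P hP hP0
    rcases P with _ | ⟨x, y, k⟩
    · exact absurd rfl hP0
    · have hx : 1 < w x := (hH _).1 hP
      obtain ⟨x', y', h', h5, h6⟩ := hraise x y k hx
      rw [h5]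
      exact (V1_lt w h3 hx h6).2

/-- [CXS-V1] -/
theorem fin_of_phi {F F' : Type} [Field F] [NumberField F] [Field F'] [NumberField F'] [Algebra F F'] {d o : F} (hd : d ≠ 0)
    (hdi : IsIntegral ℤ d) (ho : o ^ 2 + o + 1 = 0) (hnc : ∀ x : F, x ^ 2 ≠ d) {r : F'} (hr : r ^ 2 = algebraMap F F' d)
    (h : ∀ P : (ED d).toAffine.Point, ∃ Q : (ED d).toAffine.Point, phiE ho Q = P) : Finite (ED d).toAffine.Point := by
  obtain ⟨v, hv⟩ := V1_place F'
  have hint : ∀ z : F', IsIntegral ℤ z → v.valuation F' z ≤ 1 := by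
    intro z hz
    exact v.valuation_le_one (⟨z, hz⟩ : 𝓞 F')
  have hdi' : IsIntegral ℤ (algebraMap F F' d) := hdi.map (algebraMap F F').toIntAlgHom
  have hri : IsIntegral ℤ r := IsIntegral.of_pow (n := 2) (by norm_num) (by rw [hr]; exact hdi')
  have hd' : algebraMap F F' d ≠ 0 := by
    intro h0
    exact hd ((map_eq_zero _).1 h0)
  have hr0 : r ≠ 0 := by
    rintro rfl
    apply hd'
    rw [← hr]
    norm_num
  have h2r : (2 : F') * r ≠ 0 := mul_ne_zero two_ne_zero hr0
  have h2i : v.valuation F' (2 * r) ≤ 1 := hint _ (by rw [two_mul]; exact hri.add hri)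
  obtain ⟨H, h6, h7, h8⟩ := JD.M2a_gen hr h2r ho v h2i
  have hw3 : (v.valuation F').comap (algebraMap F F') 3 < 1 := by
    change v.valuation F' (algebraMap F F' 3) < 1
    rw [map_ofNat]
    exact hv
  exact V1_core ho _ H hw3 h6 h7 h8 h

end CXS
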