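import Pool.Agent.CXS.Defs
import Pool.Agent.JD.N4
import Pool.Agent.JG.L4

/-!
# [CXS-V2] `l = 3`: the valuation of the Kummer class over an extension in which the class comes from a point

`F = K(√D)`, `L` an algebraic closure of `F` and of `KK`, `c` a cocycle over `KK` with values in the kernel of `phiE`, `b`, `s` its Kummer class over `F` (`JD.exists_bs`). `C` is a field over `KK` which contains a square root `ρ` of `D`, `c` becomes principal over `C`.

PROOF. `ι (algebraMap F L r) ^ 2 = D = (algebraMap C M ρ) ^ 2`, so `ι (r) = ± ρ`; let `ρ' = ± ρ ∈ C` with `ι (algebraMap F L r) = algebraMap C M ρ'`. Give `C` the structure of an `F`-algebra: `F = KK + KK r` (`JD.exists_uv`), the ring homomorphism `F →+* C` with `u + y r ↦ u + y ρ'`: it is the restriction of `ι` to `F`, which has values in the range of `algebraMap C M`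
(`RingHom.codRestrict`/`liftRange`: `(algebraMap C M).rangeRestrict` is a ring isomorphism onto its range). Then `JD.n4d_gen` (JD/N4.lean) with `Kv = C`, `Fw = C`, `M' = M`, `φ = RingHom.id C`, `j = RingHom.id M`, `ι' = ι` (as `F`-algebra homomorphism), `Q` from `hloc`. It gives: `b' = x + y ρ'` (the image of `b`) is a cube, or `2 ρ' b'` is a cube, or
`b' = (Y - ρ') g ^ 3` with `Y ^ 2 = X ^ 3 + D`, `Y - ρ' ≠ 0`. In each case `val b'` is a cube in `WithZero (Multiplicative ℤ)`: second case: `val (2 ρ')` is a cube by `h2`. Third case: `JG.val_pt` (JG/L4.lean). At the end the other sign: `(x + y ρ) (x - y ρ) = x ^ 2 - y ^ 2 D = b * τ b = t ^ 3` with `t ∈ F`, in `C` the image of `t` has `t' ^ 3 = b' (x - y ρ')`, so both signs have values which are cubes.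
-/

set_option autoImplicit false

open NumberField IsDedekindDomain
open scoped Classical

namespace CXS

open CM27 CF JZ
open JD (ED ptE Coc LocTriv Below jK jF Quad KerE cF)
open CU (la om eE W3)
open CUD (gal_comm alg_comm tau_comm am_ne am_o)

/-- dividing cubes of values -/
theorem V2_div {C : Type} [Field C] (val : Valuation C (WithZero (Multiplicative ℤ))) {a b : C}
    {g h : WithZero (Multiplicative ℤ)} (ha : a ≠ 0) (hg : val a = g ^ 3) (hh : val (a * b) = h ^ 3) :
    ∃ g' : WithZero (Multiplicative ℤ), val b = g' ^ 3 := by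
  have hg0 : g ≠ 0 := by
    rintro rfl
    rw [zero_pow three_ne_zero] at hg
    exact ha ((Valuation.zero_iff val).1 hg)
  refine ⟨h / g, ?_⟩
  rw [div_pow, ← hh, ← hg, map_mul, mul_comm, mul_div_assoc, div_self ((Valuation.ne_zero_iff val).2 ha), mul_one]

/-- the algebra structure -/
theorem V2_hom {D : Eis} {F : Type} [Field F] [NumberField F] [Algebra KK F] {r : F} {τ : F ≃ₐ[KK] F}
    {L : Type} [Field L] [Algebra F L] [Algebra KK L] [IsScalarTower KK F L] (hD : D ≠ 0) (hQ : Quad D r τ)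
    {C M : Type} [Field C] [Algebra KK C] [Field M] [Algebra C M] [Algebra KK M] [IsScalarTower KK C M]
    (ι : L →ₐ[KK] M) {ρ : C} (hρ : ι (algebraMap F L r) = algebraMap C M ρ) :
    ∃ ψ : F →+* C, (∀ z : F, algebraMap C M (ψ z) = ι (algebraMap F L z)) ∧
      (∀ x : KK, ψ (algebraMap KK F x) = algebraMap KK C x) ∧ ψ r = ρ := by
  have hex : ∀ z : F, ∃ y : C, algebraMap C M y = ι (algebraMap F L z) := by
    intro z
    obtain ⟨u, v, rfl⟩ := JD.exists_uv hD hQ z
    refine ⟨algebraMap KK C u + algebraMap KK C v * ρ, ?_⟩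
    rw [map_add, map_mul, map_add, map_mul, map_add, map_mul, ← hρ, ← IsScalarTower.algebraMap_apply KK C M,
      ← IsScalarTower.algebraMap_apply KK C M, ← IsScalarTower.algebraMap_apply KK F L,
      ← IsScalarTower.algebraMap_apply KK F L, ι.commutes, ι.commutes]
  have hinj : Function.Injective (algebraMap C M) := (algebraMap C M).injective
  choose f hf using hex
  refine ⟨{ toFun := f, map_one' := ?_, map_mul' := ?_, map_zero' := ?_, map_add' := ?_ }, hf, ?_, ?_⟩
  · apply hinj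
    rw [hf, map_one, map_one, map_one]
  · intro a b
    apply hinj
    rw [map_mul, hf, hf, hf, map_mul, map_mul]
  · apply hinj
    rw [hf, map_zero, map_zero, map_zero]
  · intro a b
    apply hinj
    rw [map_add, hf, hf, hf, map_add, map_add]
  · intro x
    apply hinj
    show algebraMap C M (f (algebraMap KK F x)) = _
    rw [hf, ← IsScalarTower.algebraMap_apply KK F L, ι.commutes, ← IsScalarTower.algebraMap_apply KK C M]
  · apply hinj
    show algebraMap C M (f r) = _
    rw [hf, hρ]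

/-- the value of the image of the class -/
theorem V2_core {D : Eis} {F : Type} [Field F] [NumberField F] [Algebra KK F] {r : F} {τ : F ≃ₐ[KK] F}
    {L : Type} [Field L] [Algebra F L] [Algebra KK L] [IsScalarTower KK F L] [IsAlgClosure F L] (hD : D ≠ 0) (hQ : Quad D r τ)
    {c : (L ≃ₐ[KK] L) → (ED (algebraMap KK L (jK D))).toAffine.Point} (hK : ∀ σ, KerE (c σ))
    {b : F} {s : L} (hb : b ≠ 0) (hs : s ^ 3 = algebraMap F L b)
    (h : ∀ σ : L ≃ₐ[F] L, σ s = CUD.chi (algebraMap F L (algebraMap KK F (jK om))) (cF hQ c σ) * s)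
    {C M : Type} [Field C] [Algebra KK C] [Field M] [Algebra C M] [Algebra KK M] [IsScalarTower KK C M] [IsAlgClosure C M]
    {ι : L →ₐ[KK] M} (hloc : LocAt c C M ι) (val : Valuation C (WithZero (Multiplicative ℤ))) {ρ : C}
    (hρ : ρ ^ 2 = algebraMap KK C (jK D)) (h2 : ∃ g : WithZero (Multiplicative ℤ), val (2 * ρ) = g ^ 3)
    (ψ : F →+* C) (hψ1 : ∀ z : F, algebraMap C M (ψ z) = ι (algebraMap F L z))
    (hψ2 : ∀ x : KK, ψ (algebraMap KK F x) = algebraMap KK C x) (hψ3 : ψ r = ρ) :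
    ∃ g : WithZero (Multiplicative ℤ), val (ψ b) = g ^ 3 := by
  let iC : Algebra F C := ψ.toAlgebra
  let iM : Algebra F M := ((algebraMap C M).comp ψ).toAlgebra
  have tow : IsScalarTower F C M := IsScalarTower.of_algebraMap_eq' rfl
  have hC : CharZero C := charZero_of_injective_algebraMap (algebraMap KK C).injective
  let ι' : L →ₐ[F] M := { (ι : L →+* M) with commutes' := fun z => (hψ1 z).symm }
  obtain ⟨Q, hQ'⟩ := hloc
  have hD0 : algebraMap KK C (jK D) ≠ 0 := by
    intro h0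
    have h1 : jK D = 0 := (map_eq_zero _).1 h0
    exact hD (JD.jK_inj (h1.trans (map_zero jK).symm))
  have hρ0 : ρ ≠ 0 := by
    rintro rfl
    apply hD0
    rw [← hρ]
    norm_num
  have h2ρ : (2 : C) * ρ ≠ 0 := mul_ne_zero two_ne_zero hρ0
  obtain ⟨g2, hg2⟩ := h2
  have key := JD.n4d_gen hD hQ JD.exists_o hK hb hs h C C M M (RingHom.id C) (fun x => (hψ2 x).symm)
    (RingHom.id M) ι ι' (fun _ => rfl) (fun _ => rfl) (fun τ'' => ⟨τ'', fun _ => rfl⟩) Q hQ'
  rcases key with ⟨t, ht⟩ | ⟨t, ht⟩ | ⟨X, Y, g, hg, he, hne, hbg⟩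
  · refine ⟨val t, ?_⟩
    rw [← map_pow, ← ht]
    rfl
  · have h5 : (2 * ρ) * ψ b = t ^ 3 := by
      rw [← ht]
      show _ = ψ (2 * r * b)
      rw [map_mul, map_mul, hψ3, map_ofNat]
    exact V2_div val h2ρ hg2 (h := val t) (by rw [h5, map_pow])
  · have h6 : algebraMap F C r = ρ := hψ3
    rw [h6] at hne hbg
    obtain ⟨g', hg'⟩ := JG.val_pt val hg2 h2ρ (X := X) (Y := Y) (by rw [he, hρ]) hne
    refine ⟨g' * val g, ?_⟩
    rw [mul_pow, ← map_pow, ← hg', ← map_mul]
    exact congrArg val hbg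

/-- [CXS-V2] -/
theorem val_at {D : Eis} {F : Type} [Field F] [NumberField F] [Algebra KK F] {r : F} {τ : F ≃ₐ[KK] F}
    {L : Type} [Field L] [Algebra F L] [Algebra KK L] [IsScalarTower KK F L] [IsAlgClosure F L] (hD : D ≠ 0) (hQ : Quad D r τ)
    {c : (L ≃ₐ[KK] L) → (ED (algebraMap KK L (jK D))).toAffine.Point} (hK : ∀ σ, KerE (c σ))
    {b : F} {s : L} (hb : b ≠ 0) (hs : s ^ 3 = algebraMap F L b)
    (h : ∀ σ : L ≃ₐ[F] L, σ s = CUD.chi (algebraMap F L (algebraMap KK F (jK om))) (cF hQ c σ) * s) (ht : ∃ t : F, b * τ b = t ^ 3)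
    {C M : Type} [Field C] [Algebra KK C] [Field M] [Algebra C M] [Algebra KK M] [IsScalarTower KK C M] [IsAlgClosure C M]
    {ι : L →ₐ[KK] M} (hloc : LocAt c C M ι) (val : Valuation C (WithZero (Multiplicative ℤ))) {ρ : C}
    (hρ : ρ ^ 2 = algebraMap KK C (jK D)) (h2 : ∃ g : WithZero (Multiplicative ℤ), val (2 * ρ) = g ^ 3)
    {x y : KK} (hxy : b = algebraMap KK F x + algebraMap KK F y * r) :
    ∃ g : WithZero (Multiplicative ℤ), val (algebraMap KK C x + algebraMap KK C y * ρ) = g ^ 3 := by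
  have e1 : (ι (algebraMap F L r)) ^ 2 = (algebraMap C M ρ) ^ 2 := by
    rw [← map_pow, ← map_pow, ← map_pow, hρ, hQ.sq, ← IsScalarTower.algebraMap_apply KK C M]
    have h1 : algebraMap F L (JD.jF F D) = algebraMap KK L (jK D) := by
      rw [IsScalarTower.algebraMap_apply KK F L]
      rfl
    rw [h1, ι.commutes]
  rcases sq_eq_sq_iff_eq_or_eq_neg.1 e1 with e2 | e2
  · obtain ⟨ψ, h1, h3, h4⟩ := V2_hom (C := C) hD hQ ι e2
    obtain ⟨g, hg⟩ := V2_core hD hQ hK hb hs h hloc val hρ h2 ψ h1 h3 h4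
    have h7 : ψ b = algebraMap KK C x + algebraMap KK C y * ρ := by
      rw [hxy, map_add, map_mul, h3, h3, h4]
    exact ⟨g, by rw [← h7]; exact hg⟩
  · have e3 : ι (algebraMap F L r) = algebraMap C M (-ρ) := by rw [e2, map_neg]
    obtain ⟨ψ, h1, h3, h4⟩ := V2_hom (C := C) hD hQ ι e3
    have h2' : ∃ g : WithZero (Multiplicative ℤ), val (2 * -ρ) = g ^ 3 := by
      obtain ⟨g, hg⟩ := h2
      refine ⟨g, ?_⟩
      rw [mul_neg, Valuation.map_neg]
      exact hg
    obtain ⟨g, hg⟩ := V2_core hD hQ hK hb hs h hloc val (ρ := -ρ) (by rw [neg_sq, hρ]) h2' ψ h1 h3 h4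
    obtain ⟨t, ht⟩ := ht
    have h5 : ψ b ≠ 0 := fun h0 => hb ((map_eq_zero ψ).1 h0)
    have h6 : ψ b * (algebraMap KK C x + algebraMap KK C y * ρ) = ψ t ^ 3 := by
      rw [← map_pow, ← ht, map_mul]
      congr 1
      rw [hxy, map_add, map_mul, τ.commutes, τ.commutes, hQ.tau, map_add, map_mul, h3, h3, map_neg, h4, neg_neg]
    exact V2_div val h5 hg (h := val (ψ t)) (by rw [h6, map_pow])

end CXS
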