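import Pool.Agent.CXS.S8
import Pool.Agent.CXS.V2
import Pool.Agent.JG.SV
import Pool.Agent.JG.L4

/-!
# [CXS-V3] `l = 3`: the valuations and the local condition at `λ` of the Kummer class over `F = K(√D)`

PROOF. `locK_at`: the proof of `JD.locK_of` (JD/N4.lean), for the given `v`, `φ` (`exists_embed`, `n4d_gen`).
`locK_la`: `JD.exists_Below w` gives `v`, `φ`, `Below v w φ`; `v` is over `λ` (`JD.below_la`), so `v.valuation KK 3 ≠ 1` (`3 = -ω² λ²`), and in `hloc v` the alternative `Ok` is the surjectivity; `locTriv_of_locAt` (S8) gives `LocTriv c` at `v`, and `locK_at`.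
`val_splitC`: `JD.exists_Below w` gives `v`, `φ'`. `hloc v` gives `C`, `M`, `φ`, `ι`, `Ok 3 D v φ`. If `φ` is surjective: `locTriv_of_locAt`, `locK_at`, `JG.val_split` (JG/L4.lean; `JG.clV_of hD`). Otherwise `JG.sq_of_split` gives `s` in the completion of `KK` with `s ^ 2 = D`, `φ' s = r`; so `D` has a square root (`5 - 3 = 2`) and `Ok` gives
`val` on `C` with `val (φ x) = Valued.v x`. `b = x + y r` with `x, y ∈ KK` (`JD.exists_uv`). `val_at` (V2) for `ρ = φ s` (`h2`: `JG.clV_of hD v s _`) gives that `val (x + y φ s) = Valued.v (x + y s)` is a cube; `JG.below_cube`: `Valued.v (φ' (x + y s)) = w b` is a cube.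
-/

set_option autoImplicit false

open NumberField IsDedekindDomain
open scoped Classical

namespace CXS

open CM27 CF JZ
open JD (ED ptE Coc LocTriv Below jK jF Quad KerE cF LocSol LocK OvLa)
open JG (ClG)
open CU (la om eE W3)
open CUD (gal_comm alg_comm tau_comm am_ne am_o)

section
variable {D : Eis} {F : Type} [Field F] [NumberField F] [Algebra KK F] {r : F} {τ : F ≃ₐ[KK] F}
  {L : Type} [Field L] [Algebra F L] [Algebra KK L] [IsScalarTower KK F L] [IsAlgClosure F L]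
  {c : (L ≃ₐ[KK] L) → (ED (algebraMap KK L (jK D))).toAffine.Point} {b : F} {s : L}

theorem locK_at (hD : D ≠ 0) (hQ : Quad D r τ) (hc : Coc KK L (jK D) c) (hK : ∀ σ, KerE (c σ)) (hb : b ≠ 0) (hs : s ^ 3 = algebraMap F L b)
    (h : ∀ σ : L ≃ₐ[F] L, σ s = CUD.chi (algebraMap F L (algebraMap KK F (jK om))) (cF hQ c σ) * s)
    {v : HeightOneSpectrum (𝓞 KK)} {w : HeightOneSpectrum (𝓞 F)} {φ : v.adicCompletion KK →+* w.adicCompletion F} (hB : Below v w φ)
    (hloc : LocTriv c (v.adicCompletion KK) (AlgebraicClosure (v.adicCompletion KK))) : LocK D r b w := by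
  obtain ⟨j, ι, ι', hj, hιι', hτ⟩ := JD.exists_embed (L := L) hD hQ hB
  obtain ⟨Q, hQ'⟩ := hloc ι
  rcases JD.n4d_gen hD hQ JD.exists_o hK hb hs h (v.adicCompletion KK) (w.adicCompletion F)
    (AlgebraicClosure (v.adicCompletion KK)) (AlgebraicClosure (w.adicCompletion F)) φ hB.comm j ι ι' hj hιι' hτ Q hQ'
    with h1 | h1 | ⟨x, y, g, h1, h2, h3, h4⟩
  · exact Or.inl h1
  · exact Or.inr (Or.inl h1)
  · exact Or.inr (Or.inr ⟨v, φ, x, y, g, hB, h1, h2, h3, h4⟩)

theorem V3_ne (hD : ClG D) : D ≠ 0 := by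
  rintro rfl
  exact hD.nsq ⟨0, by ring⟩

theorem V3_clos (hQ : Quad D r τ) : IsAlgClosure KK L := by
  have hF : Algebra.IsAlgebraic KK F := by
    have : FiniteDimensional KK F := Module.finite_of_finrank_pos (by rw [hQ.fr]; norm_num)
    exact Algebra.IsAlgebraic.of_finite KK F
  have h3 : IsAlgClosed L := IsAlgClosure.isAlgClosed F
  have h4 : Algebra.IsAlgebraic F L := IsAlgClosure.isAlgebraic
  exact ⟨h3, Algebra.IsAlgebraic.trans KK F L⟩

theorem V3_three {v : HeightOneSpectrum (𝓞 KK)} {w : HeightOneSpectrum (𝓞 F)} {φ : v.adicCompletion KK →+* w.adicCompletion F}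
    (hB : Below v w φ) (hw : OvLa w) : v.valuation KK (((3 : ℕ) : KK)) ≠ 1 := by
  intro h1
  have h2 := JD.below_la hB hw
  have e1 : Valued.v (algebraMap KK (v.adicCompletion KK) (jK la)) = v.valuation KK (jK la) :=
    HeightOneSpectrum.valuedAdicCompletion_eq_valuation' v (jK la)
  have h3 : v.valuation KK (jK la) = WithZero.exp (-1 : ℤ) := e1.symm.trans h2
  have h4 : (((3 : ℕ) : KK)) = jK (-om ^ 2) * jK la ^ 2 := by
    have h7 : (3 : Eis) = -om ^ 2 * la ^ 2 := by decide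
    have h8 := congrArg jK h7
    rw [map_mul, map_pow jK la, map_ofNat] at h8
    rw [Nat.cast_ofNat, h8]
  have h5 : v.valuation KK (jK (-om ^ 2)) ≤ 1 := v.valuation_le_one (eE (-om ^ 2))
  rw [h4, map_mul, map_pow, h3] at h1
  have h6 : v.valuation KK (jK (-om ^ 2)) * (WithZero.exp (-1 : ℤ)) ^ 2 < 1 := by
    calc v.valuation KK (jK (-om ^ 2)) * (WithZero.exp (-1 : ℤ)) ^ 2 ≤ 1 * (WithZero.exp (-1 : ℤ)) ^ 2 :=
          mul_le_mul_left h5 _
      _ = (WithZero.exp (-1 : ℤ)) ^ 2 := one_mul _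
      _ < 1 := by
        apply pow_lt_one₀ zero_le _ two_ne_zero
        rw [← WithZero.exp_zero, WithZero.exp_lt_exp]
        norm_num
  exact h6.ne h1

theorem locK_la (hD : ClG D) (hQ : Quad D r τ) (hc : Coc KK L (jK D) c) (hK : ∀ σ, KerE (c σ)) (hb : b ≠ 0) (hs : s ^ 3 = algebraMap F L b)
    (h : ∀ σ : L ≃ₐ[F] L, σ s = CUD.chi (algebraMap F L (algebraMap KK F (jK om))) (cF hQ c σ) * s)
    (hloc : LocC 3 D c) {w : HeightOneSpectrum (𝓞 F)} (hw : OvLa w) : LocK D r b w := by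
  have hcl : IsAlgClosure KK L := V3_clos (F := F) hQ
  obtain ⟨v, φ, hB⟩ := JD.exists_Below w
  obtain ⟨C, M, iC, iM, aC, aM, aK, iT, iA, φ', ι, hφ', hat, hok⟩ := hloc v
  rcases hok with hsur | ⟨h3, -⟩
  · exact locK_at (V3_ne hD) hQ hc hK hb hs h hB (locTriv_of_locAt hc hφ' hsur hat)
  · exact absurd h3 (V3_three hB hw)

theorem val_splitC (hD : ClG D) (hQ : Quad D r τ) (hc : Coc KK L (jK D) c) (hK : ∀ σ, KerE (c σ)) (hb : b ≠ 0) (hs : s ^ 3 = algebraMap F L b)
    (h : ∀ σ : L ≃ₐ[F] L, σ s = CUD.chi (algebraMap F L (algebraMap KK F (jK om))) (cF hQ c σ) * s) (ht : ∃ t : F, b * τ b = t ^ 3)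
    (hloc : LocC 3 D c) (w : HeightOneSpectrum (𝓞 F)) {x : F} (hne : w.valuation F (τ x) ≠ w.valuation F x) :
    ∃ g : WithZero (Multiplicative ℤ), w.valuation F b = g ^ 3 := by
  have hcl : IsAlgClosure KK L := V3_clos (F := F) hQ
  have hD0 := V3_ne hD
  obtain ⟨v, φ, hB⟩ := JD.exists_Below w
  obtain ⟨C, M, iC, iM, aC, aM, aK, iT, iA, φ', ι, hφ', hat, hok⟩ := hloc v
  rcases hok with hsur | ⟨-, h3⟩
  · exact JG.val_split hD0 (JG.clV_of hD) hQ w hne hb
      (locK_at hD0 hQ hc hK hb hs h hB (locTriv_of_locAt hc hφ' hsur hat))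
  · obtain ⟨q, hq1, hq2⟩ := JG.sq_of_split hD0 hQ hB hne
    rcases h3 with h3 | ⟨val, hval⟩
    · exact absurd hq1 (h3 q)
    · obtain ⟨u, y, huy⟩ := JD.exists_uv hD0 hQ b
      have hρ : φ' q ^ 2 = algebraMap KK C (jK D) := by
        rw [← map_pow, hq1, hφ']
      have h2 : ∃ g : WithZero (Multiplicative ℤ), val (2 * φ' q) = g ^ 3 := by
        obtain ⟨g, hg⟩ := JG.clV_of hD v q hq1
        refine ⟨g, ?_⟩
        rw [← hg, ← hval, map_mul φ', map_ofNat φ' 2]
      obtain ⟨g, hg⟩ := val_at hD0 hQ hK hb hs h ht hat val hρ h2 huy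
      have hg2 : Valued.v (algebraMap KK (v.adicCompletion KK) u + algebraMap KK (v.adicCompletion KK) y * q) = g ^ 3 := by
        rw [← hval, map_add, map_mul, hφ', hφ', hg]
      obtain ⟨g', hg'⟩ := JG.below_cube hB hg2
      refine ⟨g', ?_⟩
      rw [← hg', map_add, map_mul, hB.comm, hB.comm, hq2, ← JD.h1_val, huy, map_add, map_mul]

end

end CXS
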