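import Pool.Agent.CXS.V3
import Pool.Agent.JG.P
import Pool.Agent.JG.E10
import Pool.Agent.JG.H1
import Pool.Agent.JG.N5
import Pool.Agent.JG.TG

/-!
# [CXS-V4] `l = 3`: the step over `KK`

PROOF. `cube_of_locC`: the proof of `JG.cube_of_loc` (JG/H1.lean) with `P = PG D r`, `val_splitC` (V3) instead of `val_split` and `locK_la` (V3) instead of `hloc w`; `hN` is `JG.noBad_of_fin` (JG/E10.lean) with `JG.clV_of hD`, `(JG.types hD hQ).2.2`, `hfin`; `hdir` is `(JG.types hD hQ).2.1`.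
`cob_of_cube`: exactly the second half of the proof of `JD.n5_gen` (JD/N5.lean; for general `D` in JG/N5.lean), from `htriv` on; `T = c T₀`, `KerE T` by `hK T₀`.
`kstep3`: `letI := algK (KD D) (w_mem D)`, `obtain ⟨τ, hQ⟩ := JG.exists_quadG hD` (as in `JG.uc_iffG`, JG/ZG.lean), `F = KD D`. Embed `F` in `L` over `KK` (`IsAlgClosed.lift`), `Algebra F L`, `IsScalarTower KK F L`, `IsAlgClosure F L` as in `JD.step` (JD/N5.lean). `JD.exists_bs` gives `b, s, h` (`o = jK om`, `JD.exists_o`), `JD.norm_cube` gives `ht`; `cube_of_locC`, `cob_of_cube`.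
-/

set_option autoImplicit false

open NumberField IsDedekindDomain
open scoped Classical

namespace CXS

open CM27 CF JZ
open JD (ED ptE Coc LocTriv Below jK jF Quad KerE cF LocSol LocK OvLa)
open JG (ClG)
open CU (la om eE W3)
open CUD (gal_comm alg_comm tau_comm am_ne am_o)

section
variable {D : Eis} {F : Type} [Field F] [NumberField F] [Algebra KK F] {r : F} {τ : F ≃ₐ[KK] F}
  {L : Type} [Field L] [Algebra F L] [Algebra KK L] [IsScalarTower KK F L] [IsAlgClosure F L]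
  {c : (L ≃ₐ[KK] L) → (ED (algebraMap KK L (jK D))).toAffine.Point} {b : F} {s : L}

theorem cube_of_locC (hD : ClG D) (hfin : Fin 3 (ED (jK D))) (hQ : Quad D r τ) (hc : Coc KK L (jK D) c) (hK : ∀ σ, KerE (c σ)) (hb : b ≠ 0)
    (hs : s ^ 3 = algebraMap F L b)
    (h : ∀ σ : L ≃ₐ[F] L, σ s = CUD.chi (algebraMap F L (algebraMap KK F (jK om))) (cF hQ c σ) * s) (ht : ∃ t : F, b * τ b = t ^ 3)
    (hloc : LocC 3 D c) : ∃ g : F, g ^ 3 = b := by
  have hD0 := V3_ne hD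
  have hN : JG.NoBadP τ (JG.PG D r) := JG.noBad_of_fin hD0 (JG.clV_of hD) hQ (JG.types hD hQ).2.2 hfin.1 hfin.2
  have hdir := (JG.types hD hQ).2.1
  have hvs := fun (w : HeightOneSpectrum (𝓞 F)) (x : F) (hne : w.valuation F (τ x) ≠ w.valuation F x) =>
    val_splitC hD hQ hc hK hb hs h ht hloc w hne
  have hla := fun (w : HeightOneSpectrum (𝓞 F)) (hw : OvLa w) => locK_la hD hQ hc hK hb hs h hloc hw
  obtain ⟨t, ht⟩ := ht
  have hτb : τ b ≠ 0 := by
    intro h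
    exact hb ((map_eq_zero_iff τ τ.injective).1 h)
  have ht0 : t ≠ 0 := by
    rintro rfl
    rw [zero_pow three_ne_zero] at ht
    exact mul_ne_zero hb hτb ht
  obtain ⟨α, hα⟩ : ∃ α, α = b / τ b := ⟨_, rfl⟩
  have hα1 : α * τ α = 1 := by
    rw [hα, map_div₀, JD.tau_tau hD0 hQ]
    field_simp
  have hα0 : α ≠ 0 := left_ne_zero_of_mul (by rw [hα1]; exact one_ne_zero)
  have hαt : α = b ^ 2 / t ^ 3 := by
    rw [hα, ← ht]
    field_simp
  have hαv : ∀ w : HeightOneSpectrum (𝓞 F), ∃ g : WithZero (Multiplicative ℤ),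
      w.valuation F α = g ^ 3 := by
    intro w
    by_cases h2 : ∀ x : F, w.valuation F (τ x) = w.valuation F x
    · refine ⟨1, ?_⟩
      rw [hα, map_div₀, h2 b, div_self, one_pow]
      exact (Valuation.ne_zero_iff _).2 hb
    · push Not at h2
      obtain ⟨x, hx⟩ := h2
      obtain ⟨g, hg⟩ := hvs w x hx
      obtain ⟨w', hw'⟩ := JXD.exists_cj τ w
      obtain ⟨g', hg'⟩ := hvs w' x (by
        rw [hw', hw', JD.tau_tau hD0 hQ]
        exact hx.symm)
      rw [hw'] at hg'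
      exact ⟨g / g', by rw [hα, map_div₀, hg, hg', div_pow]⟩
  obtain ⟨k, hk1, hk⟩ := JG.exists_kappa hD0 hQ hα1 (fun w _ => hαv w)
  have hk0 : k ≠ 0 := left_ne_zero_of_mul (by rw [hk1]; exact one_ne_zero)
  obtain ⟨a, ha⟩ : ∃ a, a = α / k ^ 3 := ⟨_, rfl⟩
  have hτk : τ k ≠ 0 := right_ne_zero_of_mul (by rw [hk1]; exact one_ne_zero)
  have ha1 : a * τ a = 1 := by
    rw [ha, map_div₀, map_pow]
    have e : α / k ^ 3 * (τ α / τ k ^ 3) = (α * τ α) / (k * τ k) ^ 3 := by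
      field_simp
    rw [e, hα1, hk1]
    norm_num
  have ha0 : a ≠ 0 := left_ne_zero_of_mul (by rw [ha1]; exact one_ne_zero)
  have hav : ∀ w : HeightOneSpectrum (𝓞 F), ∃ g : WithZero (Multiplicative ℤ),
      w.valuation F a = g ^ 3 := by
    intro w
    obtain ⟨g, hg⟩ := hαv w
    exact ⟨g / w.valuation F k, by rw [ha, map_div₀, hg, map_pow, div_pow]⟩
  have hn : JXD.N1 τ a := by
    refine ⟨ha1, fun w hw => ?_⟩
    rw [ha, map_div₀, map_pow, hk w hw, div_self]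
    exact pow_ne_zero _ ((Valuation.ne_zero_iff _).2 hk0)
  have hak : a = b ^ 2 * (1 / (t * k)) ^ 3 := by
    rw [ha, hαt]
    field_simp
  have hLam : JG.LamP τ (JG.PG D r) a := by
    obtain ⟨w, hw⟩ := JG.exists_ov hD0 hQ
    exact ⟨ha1, hav, hn.2, hdir b hb ⟨t, ht⟩ w hw (hla w hw) a _ hn hak⟩
  obtain ⟨e, he⟩ := hN _ hLam
  have he0 : e ≠ 0 := by
    rintro rfl
    rw [zero_pow three_ne_zero] at he
    exact ha0 he.symm
  have hm3 : (e * k * t) ^ 3 = b ^ 2 := by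
    rw [mul_pow, mul_pow, he, ha, hαt]
    field_simp
  have hm0 : e * k * t ≠ 0 := mul_ne_zero (mul_ne_zero he0 hk0) ht0
  refine ⟨b / (e * k * t), ?_⟩
  rw [div_pow, hm3]
  field_simp

theorem cob_of_cube (hD : ClG D) (hQ : Quad D r τ) (hc : Coc KK L (jK D) c) (hK : ∀ σ, KerE (c σ)) (hb : b ≠ 0) (hs : s ^ 3 = algebraMap F L b)
    (h : ∀ σ : L ≃ₐ[F] L, σ s = CUD.chi (algebraMap F L (algebraMap KK F (jK om))) (cF hQ c σ) * s) {g : F} (hg : g ^ 3 = b) :
    ∃ T : (ED (algebraMap KK L (jK D))).toAffine.Point, KerE T ∧ ∀ σ, c σ = ptE (σ : L →+* L) (gal_comm σ (jK D)) T - T := by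
  have hD0 : D ≠ 0 := V3_ne hD
  have hL0 : CharZero L := charZero_of_injective_algebraMap (algebraMap F L).injective
  have hoF : (algebraMap KK F (jK om)) ^ 2 + algebraMap KK F (jK om) + 1 = 0 := am_o JD.exists_o
  have h2r : (2 * r : F) ≠ 0 := JD.n5_r_ne hD0 hQ
  have htriv : ∀ σ : L ≃ₐ[F] L, c (JD.resK σ) = 0 := by
    intro σ
    have h1 := CUD.trivial_of_cube (F := F) (L := L) h2r hoF (cF hQ c) (JD.cF_ker hQ hK) b s hb hs h ⟨g, hg.symm⟩ σ
    have h2 : JD.toV (JD.sqL hQ) JD.twoL (c (JD.resK σ)) = 0 := h1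
    exact (JD.toV (JD.sqL hQ) JD.twoL).injective (by rw [h2, map_zero])
  obtain ⟨T₀, hT₀⟩ := JD.exists_ext (L := L) τ
  -- automorphisms fixing the root
  have hfixF : ∀ σ : L ≃ₐ[KK] L, σ (algebraMap F L r) = algebraMap F L r → c σ = 0 := by
    intro σ hσ
    have hc1 : ∀ x : F, σ (algebraMap F L x) = algebraMap F L x := by
      intro x
      obtain ⟨u, v, rfl⟩ := JD.exists_uv hD0 hQ x
      rw [map_add, map_mul, ← IsScalarTower.algebraMap_apply KK F L, ← IsScalarTower.algebraMap_apply KK F L, map_add,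
        map_mul, σ.commutes, σ.commutes, hσ]
    let σ' : L ≃ₐ[F] L := AlgEquiv.ofRingEquiv (f := σ.toRingEquiv) hc1
    have h1 : JD.resK σ' = σ := by
      ext x
      rfl
    rw [← h1]
    exact htriv σ'
  have hrT : T₀ (algebraMap F L r) = -algebraMap F L r := by rw [hT₀, hQ.tau, map_neg]
  have hdL : algebraMap KK L (jK D) ≠ 0 := am_ne fun h0 => hD0 (JD.jK_inj (h0.trans (map_zero jK).symm))
  have hoL : (algebraMap KK L (jK om)) ^ 2 + algebraMap KK L (jK om) + 1 = 0 := am_o JD.exists_o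
  refine ⟨c T₀, hK T₀, fun σ => ?_⟩
  have hsq : (σ (algebraMap F L r)) ^ 2 = (algebraMap F L r) ^ 2 := by
    rw [← map_pow, JD.sqL hQ, σ.commutes]
  rcases sq_eq_sq_iff_eq_or_eq_neg.1 hsq with h1 | h1
  · rw [hfixF σ h1, JD.kerE_fix (JD.sqL hQ) (σ : L →+* L) _ h1 (hK T₀), sub_self]
  · have h2 : (σ * T₀⁻¹) (algebraMap F L r) = algebraMap F L r := by
      have h3 : T₀⁻¹ (algebraMap F L r) = -algebraMap F L r := by
        have h4 : T₀⁻¹ (T₀ (algebraMap F L r)) = algebraMap F L r := by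
          rw [← AlgEquiv.mul_apply, inv_mul_cancel, AlgEquiv.one_apply]
        rw [hrT, map_neg] at h4
        exact neg_eq_iff_eq_neg.1 h4
      rw [AlgEquiv.mul_apply, h3, map_neg, h1, neg_neg]
    have h3 := hfixF _ h2
    have h4 := hc.crossed (σ * T₀⁻¹) T₀
    rw [inv_mul_cancel_right, h3, zero_add, JD.kerE_fix (JD.sqL hQ) ((σ * T₀⁻¹ : L ≃ₐ[KK] L) : L →+* L) _ h2 (hK T₀)] at h4
    rw [h4, JD.kerE_neg (JD.sqL hQ) (σ : L →+* L) _ h1 (hK T₀)]
    have h5 := JD.kerE_of_phi hdL hoL (hK T₀)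
    have h6 : c T₀ - (-c T₀ - c T₀) = 3 • c T₀ := by
      rw [show (3 : ℕ) = 2 + 1 from rfl, add_smul, two_nsmul, one_smul]
      abel
    exact sub_eq_zero.1 (h6.trans h5)

end

section
open JL (KD sD)

theorem V4_tau {D : Eis} (hD : ClG D) (F : Type) [Field F] [NumberField F] [Algebra KK F]
    (hfr : Module.finrank KK F = 2) (r : F) (hr : r ^ 2 = jF F D) : ∃ τ : F ≃ₐ[KK] F, Quad D r τ := by
  haveI : Algebra.IsQuadraticExtension KK F := ⟨hfr⟩
  have hfix : ¬ ∀ τ : F ≃ₐ[KK] F, τ r = r := by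
    intro h
    have h1 : r ∈ (⊥ : IntermediateField KK F) := (IsGalois.mem_bot_iff_fixed r).2 h
    obtain ⟨x, hx⟩ := IntermediateField.mem_bot.1 h1
    refine JG.nsqK hD x ((algebraMap KK F).injective ?_)
    rw [map_pow, hx, hr, JD.jF_apply]
  push_neg at hfix
  obtain ⟨τ, hτ⟩ := hfix
  refine ⟨τ, ⟨hfr, hr, ?_⟩⟩
  have h3 : (τ r) ^ 2 = r ^ 2 := by
    rw [← map_pow, hr, JD.jF_apply]
    exact τ.commutes _
  rcases sq_eq_sq_iff_eq_or_eq_neg.1 h3 with h | h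
  · exact absurd h hτ
  · exact h

theorem V4_not {D : Eis} (hD : ClG D) : sD D ∉ KK := by
  intro h
  apply JG.nsqK hD ⟨sD D, h⟩
  apply Subtype.ext
  have h4 : ((jK D : KK) : ℂ) = emb D := CU.eE_coe D
  rw [h4]
  exact JL.sD_sq D

/-- the quadratic extension exists -/
theorem V4_quad {D : Eis} (hD : ClG D) : ∃ (F : Type) (_ : Field F) (_ : NumberField F) (_ : Algebra KK F) (r : F) (τ : F ≃ₐ[KK] F),
    Quad D r τ := by
  letI := algK (KD D) (JD.w_mem D)
  obtain ⟨τ, hτ⟩ := V4_tau hD (KD D) (JD.t1a_fin (KD D) (JD.w_mem D) (sD D) (JD.sD_mem D) (V4_not hD) (fun z hz => JD.t1a_mem hz))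
    ⟨sD D, JD.sD_mem D⟩ (JD.t1a_sq (KD D) (JD.w_mem D) D (JD.sD_mem D))
  exact ⟨KD D, inferInstance, inferInstance, inferInstance, _, τ, hτ⟩

end

theorem kstep3 {D : Eis} (hD : ClG D) (hfin : Fin 3 (ED (jK D))) {L : Type} [Field L] [Algebra KK L] [IsAlgClosure KK L]
    {c : (L ≃ₐ[KK] L) → (ED (algebraMap KK L (jK D))).toAffine.Point} (hc : Coc KK L (jK D) c) (hK : ∀ σ, KerE (c σ)) (hloc : LocC 3 D c) :
    ∃ T : (ED (algebraMap KK L (jK D))).toAffine.Point, KerE T ∧ ∀ σ, c σ = ptE (σ : L →+* L) (gal_comm σ (jK D)) T - T := by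
  obtain ⟨F, iF, iN, iA, r, τ, hQ⟩ := V4_quad hD
  have hD0 := V3_ne hD
  have hfin' : Module.Finite KK F := Module.finite_of_finrank_pos (by rw [hQ.fr]; norm_num)
  have halg : Algebra.IsAlgebraic KK F := inferInstance
  have hcl0 : IsAlgClosed L := IsAlgClosure.isAlgClosed KK
  have halgL : Algebra.IsAlgebraic KK L := IsAlgClosure.isAlgebraic
  let i : F →ₐ[KK] L := IsAlgClosed.lift
  let _ : Algebra F L := i.toRingHom.toAlgebra
  have htow : IsScalarTower KK F L := IsScalarTower.of_algebraMap_eq' (by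
    ext x
    exact (i.commutes x).symm)
  have hcl : IsAlgClosure F L := ⟨inferInstance, Algebra.IsAlgebraic.tower_top (K := KK) F⟩
  obtain ⟨b, s, hb, hs, h⟩ := JD.exists_bs (L := L) hD0 hQ JD.exists_o hc hK
  have ht := JD.norm_cube (L := L) hD0 hQ JD.exists_o hc hK hb hs h
  obtain ⟨g, hg⟩ := cube_of_locC hD hfin hQ hc hK hb hs h ht hloc
  exact cob_of_cube hD hQ hc hK hb hs h hg

end CXS
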