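import Pool.Agent.CXS.V4
import Pool.Agent.CXS.V1
import Pool.Agent.CXS.S9
import Pool.Agent.CXS.T1
import Pool.Agent.JT.M1

/-!
# [CXS-V5] `l = 3`: from `KK` to `N`

PROOF. As `fin_up2` in U2.lean: `L = AlgebraicClosure N`, `d = algebraMap KK N (jK D)`, `o = algebraMap KK N (jK om)`. `exists_W3` (T1; `hnc` from `no_root` with `l = 3`, over `KK` from `ClG D`, e.g. `JG.not_sqG`), `stepN` (S9) with `kstep` from `kstep3` (V4; `KerE (tr ..) ↔ KerE ..`: `JD.kerE_ptE`): every `KerE`-valued cocycle over `N` which is locally trivial is `dN T` with `KerE T`. So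
`JD.Step N d` and `JD.sha_pow` with `k = 1`. Divisibility: `P ∈ E(N)`, `JD.phiE_surj` over `L` gives `Q` with `phiE Q = ptE (algebraMap N L) P`; `c = dN Q` is `KerE`-valued (`JD.phiE_eq_zero`, `phiE_sub`, `phiE_ptE`), a cocycle (`JD.n1_loc_ptE`, `JD.n1_comp`), locally trivial (`Q`), so `c = dN T` with `KerE T`; `Q - T` is fixed by `Gal(L/N)`: it comes from `Q₀ ∈ E(N)`
(`JT.m1a_desc`, JT/M1.lean), `phiE Q₀ = P`. `fin_of_phi` (V1) with `F = N`, `F' = N(√d)` (`IntermediateField.adjoin N {r}` in `L`, a number field), `d` integral.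
-/

set_option autoImplicit false

open NumberField IsDedekindDomain
open scoped Classical

namespace CXS

open CM27 CF JZ
open JD (ED ptE Coc LocTriv Below jK phiE KerE)
open JG (ClG)
open CU (la om eE W3)
open CUD (gal_comm alg_comm tau_comm am_ne am_o)

theorem v5_field {F : Type} [Field F] [NumberField F] {m : ℕ} (hm : 0 < m) (d : F) :
    ∃ (F' : Type) (_ : Field F') (_ : NumberField F') (_ : Algebra F F') (ρ : F'), ρ ^ m = algebraMap F F' d := by
  obtain ⟨ρ, hρ⟩ := IsAlgClosed.exists_pow_nat_eq (algebraMap F (AlgebraicClosure F) d) hm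
  have hfin : FiniteDimensional F (IntermediateField.adjoin F {ρ}) :=
    IntermediateField.adjoin.finiteDimensional (Algebra.IsIntegral.isIntegral ρ)
  have hnf : NumberField (IntermediateField.adjoin F {ρ}) := NumberField.of_module_finite F _
  refine ⟨IntermediateField.adjoin F {ρ}, inferInstance, hnf, inferInstance,
    ⟨ρ, IntermediateField.mem_adjoin_simple_self F ρ⟩, ?_⟩
  apply Subtype.ext
  exact hρ

theorem v5_cob {F : Type} [Field F] [NumberField F] {d : F} (Q : (ED (algebraMap F (AlgebraicClosure F) d)).toAffine.Point) :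
    Coc F (AlgebraicClosure F) d (fun σ => ptE (σ : AlgebraicClosure F →+* AlgebraicClosure F) (gal_comm σ d) Q - Q) ∧
      ∀ v : HeightOneSpectrum (𝓞 F), LocTriv (fun σ : AlgebraicClosure F ≃ₐ[F] AlgebraicClosure F =>
        ptE (σ : AlgebraicClosure F →+* AlgebraicClosure F) (gal_comm σ d) Q - Q)
          (v.adicCompletion F) (AlgebraicClosure (v.adicCompletion F)) := by
  refine ⟨⟨(JD.n1_loc_ptE (F := F) Q).sub (IsLocallyConstant.const Q), fun σ τ => ?_⟩, fun v ι => ?_⟩
  · rw [JD.n1_comp, JD.ptE_sub]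
    abel
  · refine ⟨ptE (ι : AlgebraicClosure F →+* AlgebraicClosure (v.adicCompletion F)) (alg_comm ι d) Q, fun τ σ hστ => ?_⟩
    have h7 : (ι : AlgebraicClosure F →+* AlgebraicClosure (v.adicCompletion F)).comp
        (σ : AlgebraicClosure F →+* AlgebraicClosure F) =
        (τ : AlgebraicClosure (v.adicCompletion F) →+* AlgebraicClosure (v.adicCompletion F)).comp
          (ι : AlgebraicClosure F →+* AlgebraicClosure (v.adicCompletion F)) := by
      ext x
      exact hστ x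
    have h8 : ptE (ι : AlgebraicClosure F →+* AlgebraicClosure (v.adicCompletion F)) (alg_comm ι d)
        (ptE (σ : AlgebraicClosure F →+* AlgebraicClosure F) (gal_comm σ d) Q) =
        ptE (τ : AlgebraicClosure (v.adicCompletion F) →+* AlgebraicClosure (v.adicCompletion F))
          (tau_comm F (v.adicCompletion F) (AlgebraicClosure (v.adicCompletion F)) τ d)
          (ptE (ι : AlgebraicClosure F →+* AlgebraicClosure (v.adicCompletion F)) (alg_comm ι d) Q) := by
      rw [JD.ptE_comp, JD.ptE_comp]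
      exact JD.ptE_congr h7 _ _ Q
    change ptE (ι : AlgebraicClosure F →+* AlgebraicClosure (v.adicCompletion F)) (alg_comm ι d)
      (ptE (σ : AlgebraicClosure F →+* AlgebraicClosure F) (gal_comm σ d) Q - Q) = _
    rw [JD.ptE_sub, h8]

/-- the Selmer condition over `F` gives `Fin 3` -/
theorem v5_fin {F : Type} [Field F] [NumberField F] {d o : F} (hd : d ≠ 0) (hdi : IsIntegral ℤ d) (ho : o ^ 2 + o + 1 = 0)
    (hnc : ∀ x : F, x ^ 2 ≠ d)
    (hstep : ∀ c : (AlgebraicClosure F ≃ₐ[F] AlgebraicClosure F) → (ED (algebraMap F (AlgebraicClosure F) d)).toAffine.Point,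
      Coc F (AlgebraicClosure F) d c → (∀ σ, KerE (c σ)) →
      (∀ v : HeightOneSpectrum (𝓞 F), LocTriv c (v.adicCompletion F) (AlgebraicClosure (v.adicCompletion F))) →
      ∃ T : (ED (algebraMap F (AlgebraicClosure F) d)).toAffine.Point, KerE T ∧
        ∀ σ, c σ = ptE (σ : AlgebraicClosure F →+* AlgebraicClosure F) (gal_comm σ d) T - T) : Fin 3 (ED d) := by
  have hdiv : ∀ P : (ED d).toAffine.Point, ∃ Q : (ED d).toAffine.Point, phiE ho Q = P := by
    intro P
    obtain ⟨Q, hQ⟩ := JD.phiE_surj (am_ne (L := AlgebraicClosure F) hd) (am_o (L := AlgebraicClosure F) ho)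
      (ptE (algebraMap F (AlgebraicClosure F)) rfl P)
    have hg : ∀ σ : AlgebraicClosure F ≃ₐ[F] AlgebraicClosure F,
        ptE (σ : AlgebraicClosure F →+* AlgebraicClosure F) (gal_comm σ d) (ptE (algebraMap F (AlgebraicClosure F)) rfl P) =
          ptE (algebraMap F (AlgebraicClosure F)) rfl P := by
      intro σ
      rw [JD.ptE_comp]
      exact JD.ptE_congr (RingHom.ext σ.commutes) _ _ P
    obtain ⟨hc, hl⟩ := v5_cob Q
    obtain ⟨T, hT, h⟩ := hstep _ hc (fun σ => by
      rw [← JD.phiE_eq_zero (am_ne hd) (am_o ho), JD.phiE_sub,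
        JD.phiE_ptE (am_o (L := AlgebraicClosure F) ho) (σ : AlgebraicClosure F →+* AlgebraicClosure F) (gal_comm σ d)
          (am_o (L := AlgebraicClosure F) ho) (gal_comm σ o), hQ, hg, sub_self]) hl
    obtain ⟨Q₀, hQ₀⟩ := JT.m1a_desc hd (Q - T) (fun σ => by
      rw [JD.ptE_sub]
      have h1 := h σ
      rw [sub_eq_sub_iff_sub_eq_sub] at h1
      exact h1)
    refine ⟨Q₀, JD.ptE_injective (algebraMap F (AlgebraicClosure F)) rfl ?_⟩
    rw [← JD.phiE_ptE ho (algebraMap F (AlgebraicClosure F)) rfl (am_o (L := AlgebraicClosure F) ho) rfl, hQ₀, JD.phiE_sub, hQ,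
      (JD.phiE_eq_zero (am_ne hd) (am_o ho) T).2 hT, sub_zero]
  obtain ⟨F', iF, iNF, iA, ρ, hρ⟩ := v5_field (m := 2) (by norm_num) d
  exact ⟨fin_of_phi hd hdi ho hnc hρ hdiv, fun x hx =>
    JD.sha_pow hd ho (fun c hc hT hl => (hstep c hc hT hl).imp fun _ h => h.2) x 1 (by rw [pow_one]; exact hx)⟩

theorem v5_nsq {D : Eis} (hD : ClG D) (x : KK) : x ^ 2 ≠ jK D := by
  intro hx
  have hint : IsIntegral (𝓞 KK) (x ^ 2) := by
    rw [hx, JD.jK_apply]
    exact isIntegral_algebraMap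
  obtain ⟨y, hy⟩ := IsIntegrallyClosed.exists_algebraMap_eq_of_isIntegral_pow (by norm_num : 0 < 2) hint
  obtain ⟨m, rfl⟩ := eE.surjective y
  have h3 : jK m ^ 2 = jK D := by
    rw [← hx, ← hy]
    rfl
  rw [← map_pow] at h3
  exact hD.nsq ⟨m, JD.jK_inj h3⟩

/-- [CXS-V5] -/
theorem fin_up3 {n : ℕ} {D : Eis} (hD : ClG D) {N : Type} [Field N] [NumberField N] [Algebra KK N] [IsGalois KK N]
    (hdeg : Module.finrank KK N = 3 ^ n) (hN : HN 3 D N) (h : Fin 3 (ED (jK D))) : Fin 3 (ED (algebraMap KK N (jK D))) := by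
  have hd : jK D ≠ 0 := fun h => v5_nsq hD 0 (by rw [h]; ring)
  have ho : (jK CU.om) ^ 2 + jK CU.om + 1 = 0 := by
    rw [← map_pow, ← map_one jK, ← map_add, ← map_add, show CU.om ^ 2 + CU.om + 1 = 0 by decide, map_zero]
  have hfd : FiniteDimensional KK N := FiniteDimensional.of_finrank_pos (by
    rw [hdeg]
    positivity)
  have hnc : ∀ x : N, x ^ 2 ≠ algebraMap KK N (jK D) := no_root (l := 3) (Or.inr rfl) hdeg (v5_nsq hD)
  have hint : IsIntegral ℤ (algebraMap KK N (jK D)) :=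
    (RingOfIntegers.isIntegral_coe (CU.eE D)).map ((algebraMap KK N).toIntAlgHom)
  have hcl : IsAlgClosure KK (AlgebraicClosure N) := ⟨inferInstance, Algebra.IsAlgebraic.trans KK N (AlgebraicClosure N)⟩
  obtain ⟨W, hW, hA⟩ := exists_W3 (K := KK) (N := N) (L := AlgebraicClosure N) hd ho hnc
  refine v5_fin (am_ne hd) hint (am_o ho) hnc fun c hc hT hl => ?_
  obtain ⟨T, hTW, h1⟩ := stepN Nat.prime_three hdeg hN hA (fun c' hc' hT' hl' => by
    obtain ⟨T, hT, h2⟩ := kstep3 hD h hc' (fun σ => (JD.kerE_ptE _ _ _).1 ((hW _).1 (hT' σ))) hl'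
    exact ⟨T, (hW _).2 ((JD.kerE_ptE _ _ _).2 hT), h2⟩) hc (fun σ => (hW _).2 (hT σ)) hl
  exact ⟨T, (hW _).1 hTW, fun σ => congrFun h1 σ⟩

end CXS
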