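import Pool.Agent.CXS.U2
import Pool.Agent.CXS.V5
import Pool.Agent.CXS.D3
import Pool.Agent.CXS.S7
import Pool.Agent.JT.FT
import Pool.Agent.JG.HG
import Pool.Agent.CX.Defs

/-!
# [CXS-Z] the hypothesis `H(l)` over `N` and over `KK`
-/

set_option autoImplicit false

open NumberField IsDedekindDomain
open scoped Classical

namespace CXS

open CM27 CF
open JD (ED jK)

theorem no_inst (l : ℕ) {K : Type} [Field K] (i j : DecidableEq K) (E : WeierstrassCurve K) :
    (letI := i; ∀ P : E.toAffine.Point, l • P = 0 → P = 0) ↔ (letI := j; ∀ P : E.toAffine.Point, l • P = 0 → P = 0) := by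
  obtain rfl : i = j := Subsingleton.elim _ _
  exact Iff.rfl

theorem clG_of {D : Eis} (hf : CX.Sf D) (hD : CX.PL 3 (ED (jK D))) : JG.ClG D :=
  (JG.clG_iff D).2 ⟨hf.1, hf.2, (no_inst 3 _ _ _).1 hD.1, hD.2⟩

theorem cl2_of {D : Eis} (hf : CX.Sf D) (hD : CX.PL 2 (ED (jK D))) : JT.Cl2 D :=
  (JT.cl2_iff D fun a b => Classical.propDecidable (a = b)).2 ⟨hf.1, hf.2, hD.1, hD.2⟩

/-- `E_D(N)` finite without `Sha[l]` if and only if the same over `KK`. -/
theorem fin_iff {l n : ℕ} (hl : l = 2 ∨ l = 3) {D : Eis} (hf : CX.Sf D) (hD : CX.PL l (ED (jK D))) {N : Type} [Field N] [NumberField N]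
    [Algebra KK N] [IsGalois KK N] (hdeg : Module.finrank KK N = l ^ n) (hN : HN l D N) :
    Fin l (ED (algebraMap KK N (jK D))) ↔ Fin l (ED (jK D)) := by
  have hb : (ED (jK D)).baseChange N = ED (algebraMap KK N (jK D)) := JD.ED_map _ _
  rcases hl with rfl | rfl
  · exact ⟨fun h => fin_down Nat.prime_two hdeg _ hD.1 (hb ▸ h), fin_up2 (cl2_of hf hD) hdeg hN⟩
  · exact ⟨fun h => fin_down Nat.prime_three hdeg _ hD.1 (hb ▸ h), fin_up3 (clG_of hf hD) hdeg hN⟩

end CXS
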